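import Pool.Agent.H51.TM.Seg2

/-!
# Averages over initial segments
-/

namespace Pool.Agent.H51.TM

open Finset Polynomial

/-- the mean over initial segments tends to zero -/
def Small (f : ℕ → ℤ) : Prop :=
  ∀ ε : ℝ, 0 < ε → ∃ N0 : ℕ, ∀ N ≥ N0, |((∑ n ∈ range N, f n : ℤ) : ℝ)| ≤ ε * N

theorem average (y : ℤ[X]) (hy : ∀ n : ℕ, 0 ≤ y.eval (n : ℤ))
    (hy2 : derivative (derivative y) ≠ 0) (T D0 : ℕ) (hT : 0 < T) : Small (F y T D0) := by
  intro ε hε
  obtain ⟨s, hs⟩ : ∃ s : ℕ, (1 : ℝ) ≤ ε / 2 * 2 ^ s := by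
    obtain ⟨s, hs⟩ := pow_unbounded_of_one_lt ((1 : ℝ) / (ε / 2)) (show (1 : ℝ) < 2 by norm_num)
    refine ⟨s, ?_⟩
    rw [div_lt_iff₀ (by positivity)] at hs
    linarith
  obtain ⟨κ, μ0, hseg⟩ := segment y hy hy2 T D0 hT (ε / 2) (by positivity) (s + 1)
  refine ⟨2 ^ (μ0 + κ + s), ?_⟩
  intro N hN
  have hNpos : N ≠ 0 := by
    have : 0 < 2 ^ (μ0 + κ + s) := by positivity
    omega
  set L := Nat.log 2 N with hL
  have hL1 : 2 ^ L ≤ N := Nat.pow_log_le_self 2 hNpos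
  have hL2 : N < 2 ^ (L + 1) := Nat.lt_pow_succ_log_self (by norm_num) N
  have hL3 : μ0 + κ + s ≤ L := Nat.le_log_of_pow_le (by norm_num) hN
  obtain ⟨μ, hμ⟩ : ∃ μ, L = μ + κ + s := ⟨L - κ - s, by omega⟩
  have hμ0 : μ0 ≤ μ := by omega
  set M := 2 ^ (μ + κ) with hM
  have hMpos : 0 < M := by positivity
  set q := N / M with hq
  set r := N % M with hr
  have hNqr : N = M * q + r := (Nat.div_add_mod N M).symm
  have hrM : r < M := Nat.mod_lt _ hMpos
  have h1 : ∑ n ∈ range N, F y T D0 n = ∑ u ∈ range q, ∑ n ∈ range M, F y T D0 (M * u + n) +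
      ∑ n ∈ range r, F y T D0 (M * q + n) := by
    conv_lhs => rw [hNqr]
    rw [Finset.sum_range_add, sum_split]
  have h2 : ∀ u ∈ range q, |((∑ n ∈ range M, F y T D0 (M * u + n) : ℤ) : ℝ)| ≤ ε / 2 * M := by
    intro u hu
    rw [mem_range] at hu
    have h3 := hseg μ hμ0 (M * u) (by
      have h4 : M * u ≤ M * q := Nat.mul_le_mul_left _ hu.le
      have h5 : 2 ^ (L + 1) = 2 ^ (μ + κ + (s + 1)) := by rw [hμ]; rfl
      omega)
    have h6 : (M : ℝ) = 2 ^ (μ + κ) := by rw [hM]; push_cast; rfl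
    rw [h6]; exact h3
  have h3 : |((∑ n ∈ range r, F y T D0 (M * q + n) : ℤ) : ℝ)| ≤ ε / 2 * N := by
    have h4 : |∑ n ∈ range r, F y T D0 (M * q + n)| ≤ r := by
      refine (Finset.abs_sum_le_sum_abs _ _).trans ?_
      rw [Finset.sum_congr rfl fun m _ => F_abs y T D0 _]
      simp
    have h5 : |((∑ n ∈ range r, F y T D0 (M * q + n) : ℤ) : ℝ)| ≤ r := by
      rw [← Int.cast_abs]; exact_mod_cast h4
    have h6 : (r : ℝ) ≤ M := by exact_mod_cast hrM.le
    have h7 : (M : ℝ) * 2 ^ s ≤ N := by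
      have : M * 2 ^ s ≤ N := by
        rw [hM, ← pow_add, ← hμ]; exact hL1
      exact_mod_cast this
    have h8 : (M : ℝ) ≤ ε / 2 * N := by
      have h9 : (M : ℝ) * 1 ≤ M * (ε / 2 * 2 ^ s) := mul_le_mul_of_nonneg_left hs (by positivity)
      have h10 : (ε / 2) * (M * 2 ^ s) ≤ ε / 2 * N := mul_le_mul_of_nonneg_left h7 (by positivity)
      linarith
    linarith
  rw [h1]
  push_cast
  have h4 : |∑ u ∈ range q, ∑ n ∈ range M, (F y T D0 (M * u + n) : ℝ)| ≤ ε / 2 * N := by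
    refine (Finset.abs_sum_le_sum_abs _ _).trans ?_
    have h5 : ∀ u ∈ range q, |∑ n ∈ range M, (F y T D0 (M * u + n) : ℝ)| ≤ ε / 2 * M := by
      intro u hu
      have := h2 u hu
      push_cast at this
      exact this
    refine (Finset.sum_le_sum h5).trans ?_
    rw [Finset.sum_const, Finset.card_range, nsmul_eq_mul]
    have h6 : (M : ℝ) * q ≤ N := by
      have : M * q ≤ N := by omega
      exact_mod_cast this
    have h7 : (ε / 2) * (M * q) ≤ ε / 2 * N := mul_le_mul_of_nonneg_left h6 (by positivity)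
    linarith
  push_cast at h3
  calc _ ≤ |∑ u ∈ range q, ∑ n ∈ range M, (F y T D0 (M * u + n) : ℝ)| +
        |∑ n ∈ range r, (F y T D0 (M * q + n) : ℝ)| := abs_add_le _ _
    _ ≤ ε / 2 * N + ε / 2 * N := add_le_add h4 h3
    _ = ε * N := by ring

theorem abs_sum_le_card (f : ℕ → ℤ) (hf : ∀ n, |f n| ≤ 1) (N : ℕ) :
    |((∑ n ∈ range N, f n : ℤ) : ℝ)| ≤ N := by
  rw [← Int.cast_abs]
  have : |∑ n ∈ range N, f n| ≤ N := by
    refine (Finset.abs_sum_le_sum_abs _ _).trans ?_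
    refine (Finset.sum_le_sum fun n _ => hf n).trans ?_
    simp
  exact_mod_cast this

theorem Small.of_shift (f : ℕ → ℤ) (hf : ∀ n, |f n| ≤ 1) (n1 : ℕ)
    (h : Small fun n => f (n1 + n)) : Small f := by
  intro ε hε
  obtain ⟨N0, hN0⟩ := h (ε / 2) (by positivity)
  obtain ⟨N1, hN1⟩ := exists_nat_gt ((n1 : ℝ) / (ε / 2))
  refine ⟨N0 + n1 + N1, ?_⟩
  intro N hN
  obtain ⟨k, rfl⟩ : ∃ k, N = n1 + k := ⟨N - n1, by omega⟩
  rw [Finset.sum_range_add]
  push_cast
  have h1 := abs_sum_le_card f hf n1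
  have h2 := hN0 k (by omega)
  push_cast at h1 h2
  have h3 : (n1 : ℝ) ≤ ε / 2 * (n1 + k : ℝ) := by
    rw [div_lt_iff₀ (by positivity)] at hN1
    have h4 : (N1 : ℝ) ≤ (n1 + k : ℝ) := by
      have : N1 ≤ n1 + k := by omega
      exact_mod_cast this
    have h5 : (N1 : ℝ) * (ε / 2) ≤ (n1 + k : ℝ) * (ε / 2) := mul_le_mul_of_nonneg_right h4 (by positivity)
    linarith
  have h4 : (0 : ℝ) ≤ ε / 2 * n1 := by positivity
  calc _ ≤ |∑ n ∈ range n1, (f n : ℝ)| + |∑ n ∈ range k, (f (n1 + n) : ℝ)| := abs_add_le _ _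
    _ ≤ n1 + ε / 2 * k := add_le_add h1 h2
    _ ≤ _ := by linarith

theorem Small.of_classes (f : ℕ → ℤ) (hf : ∀ n, |f n| ≤ 1) (d : ℕ) (hd : 0 < d)
    (h : ∀ r < d, Small fun n => f (d * n + r)) : Small f := by
  intro ε hε
  have hd' : (0 : ℝ) < d := by exact_mod_cast hd
  choose! N0 hN0 using fun r (hr : r < d) => h r hr (ε / 2) (by positivity)
  obtain ⟨N1, hN1⟩ := exists_nat_gt ((d : ℝ) / (ε / 2))
  refine ⟨d * (∑ r ∈ range d, N0 r + 1) + N1, ?_⟩
  intro N hN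
  set q := N / d with hq
  set t := N % d with ht
  have hNq : N = d * q + t := (Nat.div_add_mod N d).symm
  have htd : t < d := Nat.mod_lt _ hd
  have hqN : ∑ r ∈ range d, N0 r ≤ q := by
    by_contra hcon
    push Not at hcon
    have h1 : d * (q + 1) ≤ d * (∑ r ∈ range d, N0 r) := Nat.mul_le_mul_left _ hcon
    have h2 : d * (q + 1) = d * q + d := by ring
    have h3 : d * (∑ r ∈ range d, N0 r + 1) = d * (∑ r ∈ range d, N0 r) + d := by ring
    omega
  have h1 : ∑ n ∈ range N, f n = ∑ r ∈ range d, ∑ n ∈ range q, f (d * n + r) +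
      ∑ n ∈ range t, f (d * q + n) := by
    conv_lhs => rw [hNq]
    rw [Finset.sum_range_add, sum_split, Finset.sum_comm]
  have h2 : |((∑ n ∈ range t, f (d * q + n) : ℤ) : ℝ)| ≤ ε / 2 * N := by
    have h3 := abs_sum_le_card (fun n => f (d * q + n)) (fun n => hf _) t
    have h4 : (t : ℝ) ≤ d := by exact_mod_cast htd.le
    rw [div_lt_iff₀ (by positivity)] at hN1
    have h5 : (N1 : ℝ) ≤ N := by
      have : N1 ≤ N := by omega
      exact_mod_cast this
    have h6 : (N1 : ℝ) * (ε / 2) ≤ N * (ε / 2) := mul_le_mul_of_nonneg_right h5 (by positivity)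
    linarith
  have h3 : |∑ r ∈ range d, ∑ n ∈ range q, (f (d * n + r) : ℝ)| ≤ ε / 2 * N := by
    refine (Finset.abs_sum_le_sum_abs _ _).trans ?_
    have h4 : ∀ r ∈ range d, |∑ n ∈ range q, (f (d * n + r) : ℝ)| ≤ ε / 2 * q := by
      intro r hr
      have h5 := hN0 r (mem_range.1 hr) q ((Finset.single_le_sum (f := N0)
        (fun i _ => Nat.zero_le _) hr).trans hqN)
      push_cast at h5
      exact h5
    refine (Finset.sum_le_sum h4).trans ?_
    rw [Finset.sum_const, Finset.card_range, nsmul_eq_mul]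
    have h5 : (d : ℝ) * q ≤ N := by
      have : d * q ≤ N := by omega
      exact_mod_cast this
    have h6 : (ε / 2) * (d * q) ≤ ε / 2 * N := mul_le_mul_of_nonneg_left h5 (by positivity)
    linarith
  rw [h1]
  push_cast at h2 ⊢
  calc _ ≤ |∑ r ∈ range d, ∑ n ∈ range q, (f (d * n + r) : ℝ)| +
        |∑ n ∈ range t, (f (d * q + n) : ℝ)| := abs_add_le _ _
    _ ≤ ε / 2 * N + ε / 2 * N := add_le_add h3 h2
    _ = ε * N := by ring

end Pool.Agent.H51.TM
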