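import Mathlib

/-!
# Thue-Morse signs: basic facts

`sg m` is `(-1)` to the number of ones in the binary expansion of `m`, `A w t` the same for the
residue of the integer `t` modulo `2 ^ w`, and `gam w D` the sum of `A w y * A w (y + D)` over a
complete residue system modulo `2 ^ w`.
-/

namespace Pool.Agent.H51.TM

open Finset

/-- the binary digit sum -/
def ds (m : ℕ) : ℕ := (Nat.digits 2 m).sum

theorem ds_two (m c : ℕ) (hc : c < 2) : ds (2 * m + c) = ds m + c := by
  rcases Nat.eq_zero_or_pos (2 * m + c) with h | h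
  · have h1 : m = 0 := by omega
    have h2 : c = 0 := by omega
    subst h1; subst h2; simp [ds]
  · unfold ds
    rw [Nat.digits_def' (by norm_num) h]
    have e1 : (2 * m + c) % 2 = c := by omega
    have e2 : (2 * m + c) / 2 = m := by omega
    rw [e1, e2, List.sum_cons, add_comm]

theorem ds_split (a k : ℕ) : ∀ r : ℕ, r < 2 ^ k → ds (2 ^ k * a + r) = ds a + ds r := by
  induction k with
  | zero =>
    intro r hr
    have : r = 0 := by simpa using hr
    subst this
    simp [ds]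
  | succ k ih =>
    intro r hr
    have hlt : r / 2 < 2 ^ k := by
      rw [pow_succ] at hr; omega
    have e1 : 2 ^ (k + 1) * a + r = 2 * (2 ^ k * a + r / 2) + r % 2 := by
      have := Nat.div_add_mod r 2
      rw [pow_succ]; nlinarith
    have e2 : r = 2 * (r / 2) + r % 2 := by omega
    rw [e1, ds_two _ _ (Nat.mod_lt _ (by norm_num)), ih _ hlt]
    conv_rhs => rw [e2, ds_two _ _ (Nat.mod_lt _ (by norm_num))]
    ring

/-- the Thue-Morse sign -/
def sg (m : ℕ) : ℤ := (-1) ^ ds m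

theorem sg_sq (m : ℕ) : sg m * sg m = 1 := by
  unfold sg
  rw [← mul_pow]; norm_num

theorem sg_abs (m : ℕ) : |sg m| = 1 := by
  unfold sg; rw [abs_pow]; norm_num

theorem sg_split (a k r : ℕ) (hr : r < 2 ^ k) : sg (2 ^ k * a + r) = sg a * sg r := by
  unfold sg; rw [ds_split a k r hr, pow_add]

/-- the Thue-Morse sign of the residue modulo `2 ^ w` -/
def A (w : ℕ) (t : ℤ) : ℤ := sg (t % 2 ^ w).toNat

theorem A_sq (w : ℕ) (t : ℤ) : A w t * A w t = 1 := sg_sq _

theorem A_abs (w : ℕ) (t : ℤ) : |A w t| = 1 := sg_abs _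

theorem A_zero (t : ℤ) : A 0 t = 1 := by
  unfold A; simp [sg, ds]

theorem A_add_mul (w : ℕ) (t k : ℤ) : A w (t + 2 ^ w * k) = A w t := by
  unfold A; rw [Int.add_mul_emod_self_left]

theorem A_congr (w : ℕ) (s t : ℤ) (h : (2 ^ w : ℤ) ∣ s - t) : A w s = A w t := by
  obtain ⟨k, hk⟩ := h
  have : s = t + 2 ^ w * k := by linarith
  rw [this, A_add_mul]

theorem A_split (i j : ℕ) (u : ℤ) (r : ℕ) (hr : r < 2 ^ i) :
    A (i + j) (2 ^ i * u + r) = sg r * A j u := by
  unfold A
  have hi : (0 : ℤ) < 2 ^ i := by positivity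
  have hj : (0 : ℤ) < 2 ^ j := by positivity
  have hr' : (r : ℤ) < 2 ^ i := by exact_mod_cast hr
  have e1 : (2 ^ i * u + r : ℤ) % 2 ^ (i + j) = 2 ^ i * (u % 2 ^ j) + r := by
    have h1 := Int.mul_ediv_add_emod u (2 ^ j)
    have h2 : (2 ^ i * u + r : ℤ) = (2 ^ i * (u % 2 ^ j) + r) + 2 ^ (i + j) * (u / 2 ^ j) := by
      rw [pow_add]; linear_combination (-(2 : ℤ) ^ i) * h1
    rw [h2, Int.add_mul_emod_self_left]
    apply Int.emod_eq_of_lt
    · have := Int.emod_nonneg u hj.ne'
      positivity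
    · have h3 := Int.emod_lt_of_pos u hj
      rw [pow_add]
      nlinarith [mul_le_mul_of_nonneg_left (Int.add_one_le_iff.2 h3) hi.le]
  rw [e1]
  have h4 : 0 ≤ u % 2 ^ j := Int.emod_nonneg u hj.ne'
  have e2 : (2 ^ i * (u % 2 ^ j) + (r : ℤ)).toNat = 2 ^ i * (u % 2 ^ j).toNat + r := by
    have h5 : ((u % 2 ^ j).toNat : ℤ) = u % 2 ^ j := Int.toNat_of_nonneg h4
    have : (2 ^ i * (u % 2 ^ j) + (r : ℤ)) = ((2 ^ i * (u % 2 ^ j).toNat + r : ℕ) : ℤ) := by
      push_cast; rw [h5]
    rw [this, Int.toNat_natCast]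
  rw [e2, sg_split _ _ _ hr, mul_comm]

theorem A_nat (w y : ℕ) (h : y < 2 ^ w) : A w (y : ℤ) = sg y := by
  unfold A
  rw [Int.emod_eq_of_lt (by positivity) (by exact_mod_cast h), Int.toNat_natCast]

theorem A_even (w : ℕ) (u : ℤ) : A (w + 1) (2 * u) = A w u := by
  have := A_split 1 w u 0 (by norm_num)
  rw [add_comm 1 w] at this
  simpa [sg, ds] using this

theorem A_odd (w : ℕ) (u : ℤ) : A (w + 1) (2 * u + 1) = - A w u := by
  have := A_split 1 w u 1 (by norm_num)
  rw [add_comm 1 w] at this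
  simpa [sg, ds] using this

/-! ## Sums over complete residue systems -/

theorem sum_split {β : Type*} [AddCommMonoid β] (K M : ℕ) (f : ℕ → β) :
    ∑ y ∈ range (K * M), f y = ∑ u ∈ range M, ∑ r ∈ range K, f (K * u + r) := by
  induction M with
  | zero => simp
  | succ M ih =>
    rw [Nat.mul_succ, Finset.sum_range_add, ih, Finset.sum_range_succ]

theorem sum_complete {β : Type*} [AddCommMonoid β] (M : ℕ) (f : ℤ → β)
    (hf : ∀ t k : ℤ, f (t + M * k) = f t) (σ : ℕ → ℤ)
    (hσ : ∀ i < M, ∀ j < M, (M : ℤ) ∣ σ i - σ j → i = j) :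
    ∑ i ∈ range M, f (σ i) = ∑ i ∈ range M, f i := by
  rcases Nat.eq_zero_or_pos M with rfl | hM
  · simp
  have hM' : (0 : ℤ) < M := by exact_mod_cast hM
  set τ : ℕ → ℕ := fun i => (σ i % M).toNat with hτ
  have hτ1 : ∀ i, ((τ i : ℕ) : ℤ) = σ i % M := fun i =>
    Int.toNat_of_nonneg (Int.emod_nonneg _ hM'.ne')
  have hτ2 : ∀ i, τ i < M := by
    intro i
    have := Int.emod_lt_of_pos (σ i) hM'
    rw [← hτ1] at this
    exact_mod_cast this
  have hinj : Set.InjOn τ (range M : Finset ℕ) := by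
    intro i hi j hj hij
    simp only [Finset.coe_range, Set.mem_Iio] at hi hj
    apply hσ i hi j hj
    have h1 : σ i % M = σ j % M := by rw [← hτ1, ← hτ1, hij]
    exact Int.ModEq.dvd (show σ j ≡ σ i [ZMOD (M : ℤ)] from h1.symm)
  have himg : (range M).image τ = range M := by
    apply Finset.eq_of_subset_of_card_le
    · intro x hx
      simp only [mem_image, mem_range] at hx ⊢
      obtain ⟨i, _, rfl⟩ := hx
      exact hτ2 i
    · rw [Finset.card_image_of_injOn hinj]
  have hval : ∀ i, f (σ i) = f ((τ i : ℕ) : ℤ) := by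
    intro i
    rw [hτ1]
    have := Int.emod_add_mul_ediv (σ i) M
    conv_lhs => rw [← this]
    rw [hf]
  calc ∑ i ∈ range M, f (σ i) = ∑ i ∈ range M, f ((τ i : ℕ) : ℤ) := by
        apply Finset.sum_congr rfl; intro i _; exact hval i
    _ = ∑ x ∈ (range M).image τ, f (x : ℤ) := (Finset.sum_image (f := fun x : ℕ => f (x : ℤ)) hinj).symm
    _ = ∑ i ∈ range M, f i := by rw [himg]

theorem sum_shift {β : Type*} [AddCommMonoid β] (M : ℕ) (f : ℤ → β)
    (hf : ∀ t k : ℤ, f (t + M * k) = f t) (c : ℤ) :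
    ∑ i ∈ range M, f ((i : ℤ) + c) = ∑ i ∈ range M, f i := by
  apply sum_complete M f hf
  intro i hi j hj h
  have h1 : (M : ℤ) ∣ (i : ℤ) - j := by
    have : (i : ℤ) - j = ((i : ℤ) + c) - (j + c) := by ring
    rw [this]; exact h
  have h2 := Int.eq_zero_of_abs_lt_dvd h1 (by
    rw [abs_lt]; constructor <;> omega)
  omega

/-! ## The autocorrelation -/

/-- autocorrelation of the Thue-Morse signs modulo `2 ^ w` -/
def gam (w : ℕ) (D : ℤ) : ℤ := ∑ y ∈ range (2 ^ w), A w y * A w (y + D)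

theorem gam_zero (D : ℤ) : gam 0 D = 1 := by
  simp [gam, A_zero]

theorem gam_abs_le (w : ℕ) (D : ℤ) : |gam w D| ≤ 2 ^ w := by
  unfold gam
  refine (Finset.abs_sum_le_sum_abs _ _).trans ?_
  rw [Finset.sum_congr rfl (g := fun _ => (1 : ℤ))]
  · simp
  · intro y _
    rw [abs_mul, A_abs, A_abs]; norm_num

theorem gam_even (w : ℕ) (D : ℤ) : gam (w + 1) (2 * D) = 2 * gam w D := by
  unfold gam
  rw [pow_succ, mul_comm (2 ^ w) 2, sum_split, Finset.mul_sum]
  apply Finset.sum_congr rfl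
  intro u _
  rw [Finset.sum_range_succ, Finset.sum_range_succ, Finset.sum_range_zero]
  push_cast
  have e1 : (2 * (u : ℤ) + 0 : ℤ) = 2 * u := by ring
  have e2 : (2 * (u : ℤ) + 0 + 2 * D : ℤ) = 2 * (u + D) := by ring
  have e3 : (2 * (u : ℤ) + 1 + 2 * D : ℤ) = 2 * (u + D) + 1 := by ring
  rw [e2, e3, e1, A_even, A_even, A_odd, A_odd]
  ring

theorem gam_odd (w : ℕ) (D : ℤ) : gam (w + 1) (2 * D + 1) = -(gam w D + gam w (D + 1)) := by
  unfold gam
  rw [pow_succ, mul_comm (2 ^ w) 2, sum_split, ← Finset.sum_add_distrib, ← Finset.sum_neg_distrib]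
  apply Finset.sum_congr rfl
  intro u _
  rw [Finset.sum_range_succ, Finset.sum_range_succ, Finset.sum_range_zero]
  push_cast
  have e1 : (2 * (u : ℤ) + 0 : ℤ) = 2 * u := by ring
  have e2 : (2 * (u : ℤ) + 0 + (2 * D + 1) : ℤ) = 2 * (u + D) + 1 := by ring
  have e3 : (2 * (u : ℤ) + 1 + (2 * D + 1) : ℤ) = 2 * (u + (D + 1)) := by ring
  rw [e2, e3, e1, A_even, A_even, A_odd, A_odd]
  ring

/-- bound for two neighbouring autocorrelations -/
def G (w : ℕ) (D : ℤ) : ℤ := max |gam w D| |gam w (D + 1)|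

theorem G_nonneg (w : ℕ) (D : ℤ) : 0 ≤ G w D := le_max_of_le_left (abs_nonneg _)

theorem G_le (w : ℕ) (D : ℤ) : G w D ≤ 2 ^ w := max_le (gam_abs_le _ _) (gam_abs_le _ _)

theorem G_two (w : ℕ) (E : ℤ) (r : ℕ) (hr : r < 2) : G (w + 1) (2 * E + r) ≤ 2 * G w E := by
  have h1 : |gam w E| ≤ G w E := le_max_left _ _
  have h2 : |gam w (E + 1)| ≤ G w E := le_max_right _ _
  have k1 := abs_le.1 h1
  have k2 := abs_le.1 h2
  have g0 : |gam (w + 1) (2 * E)| ≤ 2 * G w E := by
    rw [gam_even, abs_le]; constructor <;> linarith [k1.1, k1.2]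
  have g1 : |gam (w + 1) (2 * E + 1)| ≤ 2 * G w E := by
    rw [gam_odd, abs_le]; constructor <;> linarith [k1.1, k1.2, k2.1, k2.2]
  have g2 : |gam (w + 1) (2 * (E + 1))| ≤ 2 * G w E := by
    rw [gam_even, abs_le]; constructor <;> linarith [k2.1, k2.2]
  interval_cases r
  · have : (2 * E + ((0 : ℕ) : ℤ) : ℤ) = 2 * E := by push_cast; ring
    rw [this]; exact max_le g0 g1
  · have e : (2 * E + ((1 : ℕ) : ℤ) : ℤ) = 2 * E + 1 := by push_cast; ring
    have e' : (2 * E + 1 + 1 : ℤ) = 2 * (E + 1) := by ring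
    rw [e]
    refine max_le g1 ?_
    rw [e']; exact g2

theorem G_pow (i w : ℕ) (E : ℤ) : ∀ r : ℕ, r < 2 ^ i → G (w + i) (2 ^ i * E + r) ≤ 2 ^ i * G w E := by
  induction i with
  | zero =>
    intro r hr
    have : r = 0 := by simpa using hr
    subst this
    simp
  | succ i ih =>
    intro r hr
    have hlt : r / 2 < 2 ^ i := by rw [pow_succ] at hr; omega
    have e1 : (2 ^ (i + 1) * E + r : ℤ) = 2 * (2 ^ i * E + (r / 2 : ℕ)) + (r % 2 : ℕ) := by
      have h1 : (r : ℤ) = 2 * (r / 2 : ℕ) + (r % 2 : ℕ) := by exact_mod_cast (Nat.div_add_mod r 2).symm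
      rw [pow_succ]; linear_combination h1
    rw [e1, ← add_assoc]
    calc G (w + i + 1) (2 * (2 ^ i * E + (r / 2 : ℕ)) + (r % 2 : ℕ))
        ≤ 2 * G (w + i) (2 ^ i * E + (r / 2 : ℕ)) := G_two _ _ _ (Nat.mod_lt _ (by norm_num))
      _ ≤ 2 * (2 ^ i * G w E) := by linarith [ih _ hlt]
      _ = 2 ^ (i + 1) * G w E := by ring

theorem G_five (w : ℕ) (E : ℤ) : G (w + 4) (16 * E + 5) ≤ 12 * G w E := by
  have h1 : |gam w E| ≤ G w E := le_max_left _ _
  have h2 : |gam w (E + 1)| ≤ G w E := le_max_right _ _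
  have k1 := abs_le.1 h1
  have k2 := abs_le.1 h2
  -- values at `4 E + 1`, `4 E + 2`
  have e1 : gam (w + 1) (2 * E) = 2 * gam w E := gam_even _ _
  have e2 : gam (w + 1) (2 * E + 1) = -(gam w E + gam w (E + 1)) := gam_odd _ _
  have e3 : gam (w + 2) (4 * E + 1) = -(gam (w + 1) (2 * E) + gam (w + 1) (2 * E + 1)) := by
    have := gam_odd (w + 1) (2 * E)
    rw [← this]; congr 1; ring
  have e4 : gam (w + 2) (4 * E + 2) = 2 * gam (w + 1) (2 * E + 1) := by
    have := gam_even (w + 1) (2 * E + 1)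
    rw [← this]; congr 1; ring
  have e5 : gam (w + 3) (8 * E + 2) = 2 * gam (w + 2) (4 * E + 1) := by
    have := gam_even (w + 2) (4 * E + 1)
    rw [← this]; congr 1; ring
  have e6 : gam (w + 3) (8 * E + 3) = -(gam (w + 2) (4 * E + 1) + gam (w + 2) (4 * E + 2)) := by
    have := gam_odd (w + 2) (4 * E + 1)
    have h : (4 * E + 1 + 1 : ℤ) = 4 * E + 2 := by ring
    rw [h] at this
    rw [← this]; congr 1; ring
  have e7 : gam (w + 4) (16 * E + 5) = -(gam (w + 3) (8 * E + 2) + gam (w + 3) (8 * E + 3)) := by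
    have := gam_odd (w + 3) (8 * E + 2)
    have h : (8 * E + 2 + 1 : ℤ) = 8 * E + 3 := by ring
    rw [h] at this
    rw [← this]; congr 1; ring
  have e8 : gam (w + 4) (16 * E + 5 + 1) = 2 * gam (w + 3) (8 * E + 3) := by
    have := gam_even (w + 3) (8 * E + 3)
    rw [← this]; congr 1; ring
  unfold G
  apply max_le
  · rw [e7, e5, e6, e3, e4, e1, e2, abs_le]
    constructor <;> · unfold G at *; linarith [k1.1, k1.2, k2.1, k2.2]
  · rw [e8, e6, e3, e4, e1, e2, abs_le]
    constructor <;> · unfold G at *; linarith [k1.1, k1.2, k2.1, k2.2]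

/-- The autocorrelation is small on average along arithmetic progressions with odd difference. -/
theorem sum_G_odd (T : ℤ) (hT : Odd T) (w : ℕ) : ∀ (j : ℕ) (s : ℤ),
    ∑ m ∈ range (16 ^ j), G (w + 4 * j) (s + T * m) ≤ 2 ^ w * 252 ^ j := by
  intro j
  induction j with
  | zero =>
    intro s
    simpa using G_le w s
  | succ j ih =>
    intro s
    rw [pow_succ, mul_comm (16 ^ j) 16, sum_split, Finset.sum_comm]
    -- for each residue
    have step : ∀ m0 ∈ range 16, ∑ m1 ∈ range (16 ^ j),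
        G (w + 4 * (j + 1)) (s + T * ((16 * m1 + m0 : ℕ) : ℤ)) ≤
        (if (s + T * m0) % 16 = 5 then 12 else 16) * (2 ^ w * 252 ^ j) := by
      intro m0 _
      set e := (s + T * m0) / 16 with he
      set r := (s + T * m0) % 16 with hr
      have hsr : s + T * m0 = 16 * e + r := (Int.mul_ediv_add_emod _ _).symm
      have hr0 : 0 ≤ r := Int.emod_nonneg _ (by norm_num)
      have hr1 : r < 16 := Int.emod_lt_of_pos _ (by norm_num)
      have hc : ∀ m1 : ℕ, G (w + 4 * (j + 1)) (s + T * ((16 * m1 + m0 : ℕ) : ℤ)) ≤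
          (if r = 5 then 12 else 16) * G (w + 4 * j) (e + T * m1) := by
        intro m1
        have e1 : s + T * ((16 * m1 + m0 : ℕ) : ℤ) = 16 * (e + T * m1) + r := by
          push_cast; linear_combination hsr
        have e2 : w + 4 * (j + 1) = w + 4 * j + 4 := by ring
        rw [e1, e2]
        split_ifs with h5
        · rw [h5]; exact G_five _ _
        · have := G_pow 4 (w + 4 * j) (e + T * m1) r.toNat (by omega)
          have h6 : ((r.toNat : ℕ) : ℤ) = r := Int.toNat_of_nonneg hr0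
          rw [h6] at this
          norm_num at this
          exact this
      calc ∑ m1 ∈ range (16 ^ j), G (w + 4 * (j + 1)) (s + T * ((16 * m1 + m0 : ℕ) : ℤ))
          ≤ ∑ m1 ∈ range (16 ^ j), (if r = 5 then 12 else 16) * G (w + 4 * j) (e + T * m1) :=
            Finset.sum_le_sum fun m1 _ => hc m1
        _ = (if r = 5 then 12 else 16) * ∑ m1 ∈ range (16 ^ j), G (w + 4 * j) (e + T * m1) := by
            rw [Finset.mul_sum]
        _ ≤ (if r = 5 then 12 else 16) * (2 ^ w * 252 ^ j) := by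
            apply mul_le_mul_of_nonneg_left (ih e)
            split_ifs <;> norm_num
    calc _ ≤ ∑ m0 ∈ range 16, (if (s + T * m0) % 16 = 5 then 12 else 16) * (2 ^ w * 252 ^ j : ℤ) :=
          Finset.sum_le_sum step
      _ = (∑ m0 ∈ range 16, (if (s + T * m0) % 16 = 5 then 12 else 16 : ℤ)) * (2 ^ w * 252 ^ j) := by
          rw [Finset.sum_mul]
      _ = 2 ^ w * 252 ^ (j + 1) := by
          have h1 := sum_complete 16 (fun t : ℤ => (if t % 16 = 5 then 12 else 16 : ℤ))
            (by intro t k; simp [Int.add_mul_emod_self_left]) (fun m0 => s + T * m0)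
            (by
              intro i hi j hj h
              have h2 : (16 : ℤ) ∣ T * ((i : ℤ) - j) := by
                have : T * ((i : ℤ) - j) = (s + T * i) - (s + T * j) := by ring
                rw [this]; exact_mod_cast h
              have h3 : IsCoprime (16 : ℤ) T := by
                have : (16 : ℤ) = 2 ^ 4 := by norm_num
                rw [this]
                exact IsCoprime.pow_left (Int.isCoprime_two_left.2 hT)
              have h4 := h3.dvd_of_dvd_mul_left h2
              have h5 := Int.eq_zero_of_abs_lt_dvd h4 (by rw [abs_lt]; constructor <;> omega)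
              omega)
          have h2 : (∑ m0 ∈ range 16, (if (s + T * m0) % 16 = 5 then 12 else 16 : ℤ)) = 252 := by
            rw [h1]; decide
          rw [h2, pow_succ]; ring

end Pool.Agent.H51.TM
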