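import Pool.Agent.H51.TM.Orth

/-!
# Counting, and the Bessel inequality
-/

namespace Pool.Agent.H51.TM

open Finset Polynomial Filter Topology

theorem sg_eq (m : ℕ) : sg m = if ds m % 2 = 0 then 1 else -1 := by
  unfold sg
  split_ifs with h
  · exact Even.neg_one_pow (Nat.even_iff.2 h)
  · exact Odd.neg_one_pow (Nat.odd_iff.2 (by omega))

/-- number of agreements -/
theorem card_agree (v1 v2 : ℕ → ℕ) (N : ℕ) :
    2 * (((range N).filter fun n => ds (v1 n) % 2 = ds (v2 n) % 2).card : ℤ) =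
      N + ∑ n ∈ range N, sg (v1 n) * sg (v2 n) := by
  rw [Finset.card_filter]
  push_cast
  have h : (N : ℤ) = ∑ _n ∈ range N, (1 : ℤ) := by simp
  rw [h, Finset.mul_sum, ← Finset.sum_add_distrib]
  apply Finset.sum_congr rfl
  intro n _
  rw [sg_eq, sg_eq]
  have h1 := Nat.mod_lt (ds (v1 n)) (show 0 < 2 by norm_num)
  have h2 := Nat.mod_lt (ds (v2 n)) (show 0 < 2 by norm_num)
  split_ifs <;> omega

/-- number of occurrences of one symbol -/
theorem card_symbol (v : ℕ → ℕ) (c : ℕ) (hc : c < 2) (N : ℕ) :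
    |2 * (((range N).filter fun n => ds (v n) % 2 = c).card : ℤ) - N| =
      |∑ n ∈ range N, sg (v n)| := by
  have h : (2 * (((range N).filter fun n => ds (v n) % 2 = c).card : ℤ) - N) =
      (-1) ^ c * ∑ n ∈ range N, sg (v n) := by
    rw [Finset.card_filter]
    push_cast
    have h : (N : ℤ) = ∑ _n ∈ range N, (1 : ℤ) := by simp
    rw [h, Finset.mul_sum, Finset.mul_sum, ← Finset.sum_sub_distrib]
    apply Finset.sum_congr rfl
    intro n _
    rw [sg_eq]
    have h1 := Nat.mod_lt (ds (v n)) (show 0 < 2 by norm_num)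
    interval_cases c
    · split_ifs <;> omega
    · split_ifs <;> omega
  rw [h, abs_mul, abs_pow, abs_neg, abs_one, one_pow, one_mul]

theorem Small.tendsto_half (v1 v2 : ℕ → ℕ) (h : Small fun n => sg (v1 n) * sg (v2 n)) :
    Tendsto (fun N : ℕ => (((range N).filter fun n => ds (v1 n) % 2 = ds (v2 n) % 2).card : ℝ) / N)
      atTop (𝓝 (1 / 2)) := by
  rw [Metric.tendsto_atTop]
  intro ε hε
  obtain ⟨N0, hN0⟩ := h ε hε
  refine ⟨N0 + 1, ?_⟩
  intro N hN
  have hNpos : (0 : ℝ) < N := by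
    have : 0 < N := by omega
    exact_mod_cast this
  have h1 := hN0 N (by omega)
  have h2 : 2 * (((range N).filter fun n => ds (v1 n) % 2 = ds (v2 n) % 2).card : ℝ) =
      N + ((∑ n ∈ range N, sg (v1 n) * sg (v2 n) : ℤ) : ℝ) := by
    exact_mod_cast card_agree v1 v2 N
  set K : ℝ := (((range N).filter fun n => ds (v1 n) % 2 = ds (v2 n) % 2).card : ℝ) with hK
  set S : ℝ := ((∑ n ∈ range N, sg (v1 n) * sg (v2 n) : ℤ) : ℝ) with hS
  rw [Real.dist_eq]
  have h3 : K / N - 1 / 2 = S / (2 * N) := by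
    field_simp
    linarith
  rw [h3, abs_div, abs_of_pos (show (0 : ℝ) < 2 * N by positivity), div_lt_iff₀ (by positivity)]
  have h4 : 0 < ε * N := by positivity
  linarith

/-- Bessel's inequality for almost orthogonal sequences of signs -/
theorem bessel {ι : Type*} [DecidableEq ι] (s : ι → ℕ → ℤ) (hs : ∀ i n, |s i n| = 1) (B : Finset ι)
    (N : ℕ) (η : ℝ) (hη : ∀ i ∈ B, ∀ j ∈ B, i ≠ j →
      |((∑ n ∈ range N, s i n * s j n : ℤ) : ℝ)| ≤ η * N) (hη0 : 0 ≤ η) (ε : ℝ) (hε : 0 < ε)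
    (hB : ∀ i ∈ B, 2 * ε * N ≤ |((∑ n ∈ range N, s i n : ℤ) : ℝ)|) (hN : 0 < N) :
    4 * ε ^ 2 * B.card ≤ 1 + η * B.card := by
  rcases B.eq_empty_or_nonempty with rfl | hBne
  · simp
  have hNpos : (0 : ℝ) < N := by exact_mod_cast hN
  set S : ι → ℝ := fun i => ((∑ n ∈ range N, s i n : ℤ) : ℝ) with hS
  -- the signs of the sums
  have hσ : ∀ i, ∃ σ : ℝ, |σ| ≤ 1 ∧ σ * S i = |S i| := by
    intro i
    rcases le_or_gt 0 (S i) with h | h
    · exact ⟨1, by simp, by rw [one_mul, abs_of_nonneg h]⟩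
    · exact ⟨-1, by simp, by rw [abs_of_neg h]; ring⟩
  choose σ hσ1 hσ2 using hσ
  set g : ℕ → ℝ := fun n => ∑ i ∈ B, σ i * (s i n : ℝ) with hg
  have h1 : ∑ n ∈ range N, g n = ∑ i ∈ B, |S i| := by
    rw [hg, Finset.sum_comm]
    apply Finset.sum_congr rfl
    intro i _
    rw [← Finset.mul_sum, ← hσ2 i, hS]
    push_cast; rfl
  have h2 : ∑ n ∈ range N, g n ^ 2 ≤ B.card * N + η * N * B.card ^ 2 := by
    have h3 : ∀ n, g n ^ 2 = ∑ i ∈ B, ∑ j ∈ B, σ i * σ j * ((s i n : ℝ) * s j n) := by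
      intro n
      rw [sq, hg, Finset.sum_mul_sum]
      apply Finset.sum_congr rfl; intro i _
      apply Finset.sum_congr rfl; intro j _
      ring
    rw [Finset.sum_congr rfl fun n _ => h3 n, Finset.sum_comm]
    have h4 : ∀ i ∈ B, ∑ n ∈ range N, ∑ j ∈ B, σ i * σ j * ((s i n : ℝ) * s j n) ≤
        N + η * N * B.card := by
      intro i hi
      rw [Finset.sum_comm]
      have h5 : ∀ j ∈ B, ∑ n ∈ range N, σ i * σ j * ((s i n : ℝ) * s j n) ≤
          (if j = i then (N : ℝ) else 0) + η * N := by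
        intro j hj
        rw [← Finset.mul_sum]
        have h6 : |σ i * σ j| ≤ 1 := by
          rw [abs_mul]
          calc |σ i| * |σ j| ≤ 1 * 1 := mul_le_mul (hσ1 i) (hσ1 j) (abs_nonneg _) zero_le_one
            _ = 1 := one_mul 1
        have h7 : σ i * σ j * ∑ n ∈ range N, (s i n : ℝ) * s j n ≤
            |∑ n ∈ range N, (s i n : ℝ) * s j n| := by
          calc _ ≤ |σ i * σ j * ∑ n ∈ range N, (s i n : ℝ) * s j n| := le_abs_self _
            _ = |σ i * σ j| * |∑ n ∈ range N, (s i n : ℝ) * s j n| := abs_mul _ _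
            _ ≤ 1 * |∑ n ∈ range N, (s i n : ℝ) * s j n| :=
                mul_le_mul_of_nonneg_right h6 (abs_nonneg _)
            _ = _ := one_mul _
        refine h7.trans ?_
        split_ifs with hij
        · subst hij
          have h8 : ∀ n, (s j n : ℝ) * s j n = 1 := by
            intro n
            have h9 : s j n * s j n = 1 := by
              rw [← abs_mul_abs_self, hs]; norm_num
            exact_mod_cast h9
          rw [Finset.sum_congr rfl fun n _ => h8 n]
          simp only [Finset.sum_const, Finset.card_range, nsmul_eq_mul, mul_one]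
          rw [abs_of_nonneg hNpos.le]
          have : 0 ≤ η * N := by positivity
          linarith
        · have := hη i hi j hj (Ne.symm hij)
          push_cast at this
          linarith
      refine (Finset.sum_le_sum h5).trans ?_
      rw [Finset.sum_add_distrib, Finset.sum_ite_eq' B i, if_pos hi, Finset.sum_const, nsmul_eq_mul]
      apply le_of_eq; ring
    refine (Finset.sum_le_sum h4).trans ?_
    rw [Finset.sum_const, nsmul_eq_mul]
    apply le_of_eq; ring
  have h3 := sq_sum_le_card_mul_sum_sq (s := range N) (f := g)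
  rw [Finset.card_range, h1] at h3
  have h4 : 2 * ε * N * B.card ≤ ∑ i ∈ B, |S i| := by
    have := Finset.sum_le_sum hB
    rw [Finset.sum_const, nsmul_eq_mul] at this
    linarith
  have hBpos : (0 : ℝ) < B.card := by exact_mod_cast Finset.card_pos.2 hBne
  have h5 : (2 * ε * N * B.card) ^ 2 ≤ N * (B.card * N + η * N * B.card ^ 2) := by
    calc _ ≤ (∑ i ∈ B, |S i|) ^ 2 := pow_le_pow_left₀ (by positivity) h4 2
      _ ≤ N * ∑ n ∈ range N, g n ^ 2 := h3
      _ ≤ _ := mul_le_mul_of_nonneg_left h2 hNpos.le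
  have h6 : (N ^ 2 * B.card : ℝ) * (4 * ε ^ 2 * B.card) ≤ (N ^ 2 * B.card) * (1 + η * B.card) := by
    calc _ = (2 * ε * N * B.card) ^ 2 := by ring
      _ ≤ _ := h5
      _ = _ := by ring
  exact le_of_mul_le_mul_left h6 (by positivity)

/-- one symbol is off by `ε` among the first `N` terms -/
def Biased (v : ℕ → ℕ) (N : ℕ) (ε : ℝ) : Prop :=
  ∃ c < 2, ε ≤ |(((range N).filter fun n => ds (v n) % 2 = c).card : ℝ) / N - 1 / 2|

open Classical in
/-- In a finite family, with members of different classes asymptotically orthogonal, at most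
`1 / (4 ε²)` classes hold a biased member. -/
theorem few_biased {ι κ : Type*} (S : Finset ι) (v : ι → ℕ → ℕ) (cl : ι → κ)
    (h : ∀ i ∈ S, ∀ j ∈ S, cl i ≠ cl j → Small fun n => sg (v i n) * sg (v j n)) (ε : ℝ)
    (hε : 0 < ε) : ∀ᶠ N : ℕ in atTop,
      (((S.filter fun i => Biased (v i) N ε).image cl).card : ℝ) ≤ 1 / (4 * ε ^ 2) := by
  set K : ℕ := ⌊1 / (4 * ε ^ 2)⌋₊ with hK
  have hK1 : 1 / (4 * ε ^ 2) < (K : ℝ) + 1 := Nat.lt_floor_add_one _
  have hK2 : (K : ℝ) ≤ 1 / (4 * ε ^ 2) := Nat.floor_le (by positivity)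
  have hgap : 1 < 4 * ε ^ 2 * (K + 1) := by
    rw [div_lt_iff₀ (by positivity)] at hK1
    linarith
  set r : ℝ := (S.card : ℝ) + 1 with hr
  have hr0 : 0 < r := by positivity
  obtain ⟨η, hη0, hη1⟩ : ∃ η : ℝ, 0 < η ∧ 1 + η * r < 4 * ε ^ 2 * (K + 1) := by
    refine ⟨(4 * ε ^ 2 * (K + 1) - 1) / (2 * r), div_pos (by linarith) (by positivity), ?_⟩
    have : (4 * ε ^ 2 * (K + 1) - 1) / (2 * r) * r = (4 * ε ^ 2 * (K + 1) - 1) / 2 := by
      field_simp
    rw [this]; linarith
  have hch : ∀ i j, ∃ N0 : ℕ, i ∈ S → j ∈ S → cl i ≠ cl j → ∀ N ≥ N0,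
      |((∑ n ∈ range N, sg (v i n) * sg (v j n) : ℤ) : ℝ)| ≤ η * N := by
    intro i j
    by_cases hij : i ∈ S ∧ j ∈ S ∧ cl i ≠ cl j
    · obtain ⟨N0, hN0⟩ := h i hij.1 j hij.2.1 hij.2.2 η hη0
      exact ⟨N0, fun _ _ _ => hN0⟩
    · exact ⟨0, fun h1 h2 h3 => absurd ⟨h1, h2, h3⟩ hij⟩
  choose N0 hN0 using hch
  filter_upwards [eventually_ge_atTop (∑ i ∈ S, ∑ j ∈ S, N0 i j + 1)] with N hN
  have hNpos : 0 < N := by omega
  have hNr : (0 : ℝ) < N := by exact_mod_cast hNpos
  set B0 := S.filter fun i => Biased (v i) N ε with hB0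
  have hB0mem : ∀ i ∈ B0, i ∈ S ∧ Biased (v i) N ε := by
    intro i hi
    rw [hB0, mem_filter] at hi
    exact hi
  rcases B0.eq_empty_or_nonempty with hemp | ⟨i0, _⟩
  · rw [hemp, Finset.image_empty, Finset.card_empty]
    push_cast
    positivity
  have : Nonempty ι := ⟨i0⟩
  -- representatives
  have hrep : ∀ k ∈ B0.image cl, ∃ i, i ∈ B0 ∧ cl i = k := by
    intro k hk
    obtain ⟨i, hi, hik⟩ := mem_image.1 hk
    exact ⟨i, hi, hik⟩
  choose! rep hrep1 hrep2 using hrep
  set B := (B0.image cl).image rep with hB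
  have hBcard : B.card = (B0.image cl).card := by
    apply Finset.card_image_of_injOn
    intro k hk k' hk' hkk
    have h1 := hrep2 k hk
    have h2 := hrep2 k' hk'
    have h3 : rep k = rep k' := hkk
    rw [← h1, ← h2, h3]
  have hBmem : ∀ i ∈ B, i ∈ B0 := by
    intro i hi
    obtain ⟨k, hk, rfl⟩ := mem_image.1 hi
    exact hrep1 k hk
  have hBcl : ∀ i ∈ B, ∀ j ∈ B, i ≠ j → cl i ≠ cl j := by
    intro i hi j hj hij hcl
    obtain ⟨k, hk, rfl⟩ := mem_image.1 hi
    obtain ⟨k', hk', rfl⟩ := mem_image.1 hj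
    rw [hrep2 k hk, hrep2 k' hk'] at hcl
    rw [hcl] at hij
    exact hij rfl
  have hle : ∀ i ∈ S, ∀ j ∈ S, N0 i j ≤ N := by
    intro i hi j hj
    have h1 : N0 i j ≤ ∑ j ∈ S, N0 i j := Finset.single_le_sum (f := fun j => N0 i j)
      (fun _ _ => Nat.zero_le _) hj
    have h2 : ∑ j ∈ S, N0 i j ≤ ∑ i ∈ S, ∑ j ∈ S, N0 i j := Finset.single_le_sum
      (f := fun i => ∑ j ∈ S, N0 i j) (fun _ _ => Nat.zero_le _) hi
    omega
  have hBS : ∀ i ∈ B, i ∈ S := fun i hi => (hB0mem i (hBmem i hi)).1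
  have hbes := bessel (fun i n => sg (v i n)) (fun i n => sg_abs _) B N η
    (fun i hi j hj hij => hN0 i j (hBS i hi) (hBS j hj) (hBcl i hi j hj hij) N
      (hle i (hBS i hi) j (hBS j hj))) hη0.le ε hε (by
      intro i hi
      obtain ⟨c, hc, h1⟩ := (hB0mem i (hBmem i hi)).2
      have h2 : |2 * (((range N).filter fun n => ds (v i n) % 2 = c).card : ℝ) - N| =
          |((∑ n ∈ range N, sg (v i n) : ℤ) : ℝ)| := by
        have := card_symbol (v i) c hc N
        rw [← Int.cast_abs, ← this]; push_cast; rfl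
      rw [← h2]
      have h3 : 2 * (((range N).filter fun n => ds (v i n) % 2 = c).card : ℝ) - N =
          2 * N * ((((range N).filter fun n => ds (v i n) % 2 = c).card : ℝ) / N - 1 / 2) := by
        field_simp
      rw [h3, abs_mul, abs_of_pos (show (0 : ℝ) < 2 * N by positivity)]
      calc 2 * ε * N = 2 * N * ε := by ring
        _ ≤ _ := mul_le_mul_of_nonneg_left h1 (by positivity)) hNpos
  have hcard : B.card ≤ K := by
    by_contra hcon
    push Not at hcon
    have h1 : (K : ℝ) + 1 ≤ B.card := by exact_mod_cast hcon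
    have h2 : (B.card : ℝ) ≤ r := by
      have : B.card ≤ S.card := Finset.card_le_card fun i hi => hBS i hi
      have h3 : (B.card : ℝ) ≤ S.card := by exact_mod_cast this
      rw [hr]; linarith
    have h4 : 4 * ε ^ 2 * (K + 1) ≤ 4 * ε ^ 2 * B.card := mul_le_mul_of_nonneg_left h1 (by positivity)
    have h5 : η * B.card ≤ η * r := mul_le_mul_of_nonneg_left h2 hη0.le
    linarith
  rw [← hBcard]
  have : (B.card : ℝ) ≤ K := by exact_mod_cast hcard
  exact this.trans hK2

/-- the same statement, in terms of sets -/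
theorem few_biased_set {ι κ : Type*} (S : Finset ι) (v : ι → ℕ → ℕ) (cl : ι → κ)
    (h : ∀ i ∈ S, ∀ j ∈ S, cl i ≠ cl j → Small fun n => sg (v i n) * sg (v j n)) (ε : ℝ)
    (hε : 0 < ε) : ∀ᶠ N : ℕ in atTop,
      ((cl '' {i | i ∈ S ∧ Biased (v i) N ε}).ncard : ℝ) ≤ 1 / (4 * ε ^ 2) := by
  classical
  filter_upwards [few_biased S v cl h ε hε] with N hN
  have hset : {i | i ∈ S ∧ Biased (v i) N ε} = ((S.filter fun i => Biased (v i) N ε : Finset ι) : Set ι) := by
    ext i
    simp only [Set.mem_ofPred_eq, Finset.coe_filter]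
  rw [hset, ← Finset.coe_image, Set.ncard_coe_finset]
  exact hN

end Pool.Agent.H51.TM
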