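import Pool.Agent.H51.TM.Bessel

/-!
# Dilations
-/

namespace Pool.Agent.H51.TM

open Finset Polynomial Filter Topology

theorem sg_two_pow_mul (k m : ℕ) : sg (2 ^ k * m) = sg m := by
  have := sg_split m k 0 (by positivity)
  rw [add_zero] at this
  rw [this]
  simp [sg, ds]

/-- The symbols at `z` and `2 ^ k z` are uncorrelated on every residue class. -/
theorem dilation_small (A b B C₀ : ℚ) (d : ℕ) (hd : 2 ≤ d) (hA : A ≠ 0) (hB : B ≠ 0) (k : ℕ)
    (hk : 1 ≤ k) (v : ℕ → ℕ)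
    (hv : ∀ n : ℕ, A * ((n : ℚ) + b) ^ d + B * ((n : ℚ) + b) + C₀ = v n) (Q r s : ℕ) (hQ : 0 < Q)
    (hs : (s : ℚ) + b = 2 ^ k * ((r : ℚ) + b)) :
    Small fun n => sg (v (Q * n + r)) * sg (v (2 ^ k * Q * n + s)) := by
  set P1 : ℚ[X] := C (2 ^ (d * k)) * (C A * (C (Q : ℚ) * X + C ((r : ℚ) + b)) ^ d +
    C B * (C (Q : ℚ) * X + C ((r : ℚ) + b)) + C C₀) with hP1
  set P2 : ℚ[X] := C A * (C (2 ^ k * (Q : ℚ)) * X + C (2 ^ k * ((r : ℚ) + b))) ^ d +
    C B * (C (2 ^ k * (Q : ℚ)) * X + C (2 ^ k * ((r : ℚ) + b))) + C C₀ with hP2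
  have hQ' : (Q : ℚ) ≠ 0 := by exact_mod_cast hQ.ne'
  have hl : (C (Q : ℚ) * X + C ((r : ℚ) + b) : ℚ[X]).natDegree = 1 := natDegree_linear hQ'
  have h1 : ∀ n : ℕ, P1.eval (n : ℚ) = ((2 ^ (d * k) * v (Q * n + r) : ℕ) : ℚ) := by
    intro n
    have := hv (Q * n + r)
    rw [hP1]
    simp only [eval_mul, eval_add, eval_pow, eval_C, eval_X]
    push_cast at this ⊢
    rw [← this]; ring
  have h2 : ∀ n : ℕ, P2.eval (n : ℚ) = (v (2 ^ k * Q * n + s) : ℚ) := by
    intro n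
    have := hv (2 ^ k * Q * n + s)
    rw [hP2]
    simp only [eval_mul, eval_add, eval_pow, eval_C, eval_X]
    push_cast at this ⊢
    have e : (2 : ℚ) ^ k * Q * n + s + b = 2 ^ k * Q * n + 2 ^ k * (r + b) := by rw [← hs]; ring
    rw [e] at this
    rw [← this]
  have hdiff : P1 - P2 = C ((2 ^ (d * k) - 2 ^ k) * B * Q) * X +
      C ((2 ^ (d * k) - 2 ^ k) * B * (r + b) + (2 ^ (d * k) - 1) * C₀) := by
    have e1 : (C (2 ^ k * (Q : ℚ)) * X + C (2 ^ k * ((r : ℚ) + b)) : ℚ[X]) =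
        C (2 ^ k) * (C (Q : ℚ) * X + C ((r : ℚ) + b)) := by
      simp only [map_mul]; ring
    rw [hP1, hP2, e1, mul_pow, ← C_pow, ← pow_mul, mul_comm k d]
    simp only [map_mul, map_add, map_sub, map_pow, map_one, map_ofNat]
    ring
  have hlead : (2 ^ (d * k) - 2 ^ k) * B * (Q : ℚ) ≠ 0 := by
    apply mul_ne_zero (mul_ne_zero _ hB) hQ'
    have h3 : (2 : ℚ) ^ k < 2 ^ (d * k) := by
      apply pow_lt_pow_right₀ (by norm_num)
      nlinarith
    linarith
  have hdeg : 2 ≤ P1.natDegree := by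
    have e2 : (C A * (C (Q : ℚ) * X + C ((r : ℚ) + b)) ^ d : ℚ[X]).natDegree = d := by
      rw [natDegree_C_mul hA, natDegree_pow, hl, mul_one]
    have e3 : (C B * (C (Q : ℚ) * X + C ((r : ℚ) + b)) + C C₀ : ℚ[X]).natDegree ≤ 1 := by
      apply (natDegree_add_le _ _).trans
      rw [natDegree_C, natDegree_C_mul hB, hl]
      simp
    have e4 : (C A * (C (Q : ℚ) * X + C ((r : ℚ) + b)) ^ d +
        (C B * (C (Q : ℚ) * X + C ((r : ℚ) + b)) + C C₀) : ℚ[X]).natDegree = d := by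
      rw [natDegree_add_eq_left_of_natDegree_lt, e2]
      rw [e2]; omega
    rw [hP1, natDegree_C_mul (by positivity), add_assoc, e4]
    exact hd
  have horth := orth P1 P2 (fun n => 2 ^ (d * k) * v (Q * n + r)) (fun n => v (2 ^ k * Q * n + s))
    h1 h2 hdeg (by rw [hdiff]; exact natDegree_linear hlead)
  have : (fun n => sg (2 ^ (d * k) * v (Q * n + r)) * sg (v (2 ^ k * Q * n + s))) =
      fun n => sg (v (Q * n + r)) * sg (v (2 ^ k * Q * n + s)) := by
    funext n; rw [sg_two_pow_mul]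
  rw [← this]
  exact horth

/-- number of `n < N` with `2 ^ a ∣ q n + u`, lower bound -/
theorem count_ge (q a : ℕ) (hq : Odd q) (u : ℤ) (N : ℕ) :
    N ≤ 2 ^ a * (((range N).filter fun n : ℕ => (2 ^ a : ℤ) ∣ q * n + u).card + 1) := by
  classical
  -- the root modulo `2 ^ a`
  have hcop : IsCoprime ((2 : ℤ) ^ a) (q : ℤ) :=
    IsCoprime.pow_left (Int.isCoprime_two_left.2 (by exact_mod_cast hq))
  obtain ⟨s, t, hst⟩ := hcop
  obtain ⟨n0, hn0, hn0d⟩ : ∃ n0 : ℕ, n0 < 2 ^ a ∧ (2 ^ a : ℤ) ∣ q * n0 + u := by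
    have hpos : (0 : ℤ) < 2 ^ a := by positivity
    refine ⟨((-t * u) % 2 ^ a).toNat, ?_, ?_⟩
    · have h1 := Int.emod_lt_of_pos (-t * u) hpos
      have h2 := Int.emod_nonneg (-t * u) hpos.ne'
      have h3 : ((((-t * u) % 2 ^ a).toNat : ℕ) : ℤ) < ((2 ^ a : ℕ) : ℤ) := by
        rw [Int.toNat_of_nonneg h2]; push_cast; exact h1
      exact_mod_cast h3
    · have h2 := Int.emod_nonneg (-t * u) hpos.ne'
      rw [Int.toNat_of_nonneg h2]
      have h4 := Int.mul_ediv_add_emod (-t * u) (2 ^ a)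
      refine ⟨s * u - q * ((-t * u) / 2 ^ a), ?_⟩
      linear_combination q * h4 + (-u) * hst
  have hsub : (range ((N + 2 ^ a - 1 - n0) / 2 ^ a)).image (fun j => n0 + 2 ^ a * j) ⊆
      (range N).filter fun n : ℕ => (2 ^ a : ℤ) ∣ q * n + u := by
    intro n hn
    obtain ⟨j, hj, rfl⟩ := mem_image.1 hn
    rw [mem_range] at hj
    rw [mem_filter, mem_range]
    constructor
    · have h1 : 2 ^ a * (j + 1) ≤ N + 2 ^ a - 1 - n0 := by
        have h2 := Nat.mul_le_mul_left (2 ^ a) hj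
        exact (h2.trans (Nat.mul_div_le _ _))
      have h3 : 2 ^ a * (j + 1) = 2 ^ a * j + 2 ^ a := by ring
      have h4 : 0 < 2 ^ a := by positivity
      omega
    · have : (q : ℤ) * ((n0 + 2 ^ a * j : ℕ) : ℤ) + u = (q * n0 + u) + 2 ^ a * (q * j) := by
        push_cast; ring
      rw [this]
      exact dvd_add hn0d (dvd_mul_right _ _)
  have hcard := Finset.card_le_card hsub
  rw [Finset.card_image_of_injective _ (by
    intro i j hij
    have h1 : n0 + 2 ^ a * i = n0 + 2 ^ a * j := hij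
    have h2 : 2 ^ a * i = 2 ^ a * j := by omega
    exact Nat.eq_of_mul_eq_mul_left (by positivity) h2), Finset.card_range] at hcard
  have h5 : N ≤ 2 ^ a * ((N + 2 ^ a - 1 - n0) / 2 ^ a + 1) := by
    have h6 := Nat.div_add_mod (N + 2 ^ a - 1 - n0) (2 ^ a)
    have h7 := Nat.mod_lt (N + 2 ^ a - 1 - n0) (show 0 < 2 ^ a by positivity)
    have h8 : 2 ^ a * ((N + 2 ^ a - 1 - n0) / 2 ^ a + 1) =
        2 ^ a * ((N + 2 ^ a - 1 - n0) / 2 ^ a) + 2 ^ a := by ring
    omega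
  exact h5.trans (Nat.mul_le_mul_left _ (by omega))

/-- number of `n < N` with `2 ^ a ∣ q n + u`, upper bound -/
theorem count_le (q a : ℕ) (hq : Odd q) (u : ℤ) (N : ℕ) :
    2 ^ a * ((range N).filter fun n : ℕ => (2 ^ a : ℤ) ∣ q * n + u).card ≤ N + 2 ^ a := by
  classical
  have hcop : IsCoprime ((2 : ℤ) ^ a) (q : ℤ) :=
    IsCoprime.pow_left (Int.isCoprime_two_left.2 (by exact_mod_cast hq))
  have h1 : ((range N).filter fun n : ℕ => (2 ^ a : ℤ) ∣ q * n + u).card ≤ (range (N / 2 ^ a + 1)).card := by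
    apply Finset.card_le_card_of_injOn (fun n => n / 2 ^ a)
    · intro n hn
      simp only [Finset.coe_filter, mem_range, Set.mem_ofPred_eq] at hn
      simp only [Finset.coe_range, Set.mem_Iio]
      have := Nat.div_le_div_right (c := 2 ^ a) hn.1.le
      omega
    · intro n hn n' hn' h
      simp only [Finset.coe_filter, mem_range, Set.mem_ofPred_eq] at hn hn'
      have h2 : (2 ^ a : ℤ) ∣ (q : ℤ) * ((n : ℤ) - n') := by
        have := dvd_sub hn.2 hn'.2
        have e : (q : ℤ) * n + u - (q * n' + u) = (q : ℤ) * ((n : ℤ) - n') := by ring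
        rwa [e] at this
      have h3 := hcop.dvd_of_dvd_mul_left h2
      have h4 : n / 2 ^ a = n' / 2 ^ a := h
      have h5 : (n' : ℤ) ≡ n [ZMOD ((2 ^ a : ℕ) : ℤ)] := by
        rw [Int.modEq_iff_dvd]; push_cast; exact h3
      have h6 : n' % 2 ^ a = n % 2 ^ a := Int.natCast_modEq_iff.1 h5
      rw [← Nat.div_add_mod n (2 ^ a), ← Nat.div_add_mod n' (2 ^ a), h4, h6]
  rw [Finset.card_range] at h1
  calc _ ≤ 2 ^ a * (N / 2 ^ a + 1) := Nat.mul_le_mul_left _ h1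
    _ = 2 ^ a * (N / 2 ^ a) + 2 ^ a := by ring
    _ ≤ N + 2 ^ a := Nat.add_le_add_right (Nat.mul_div_le _ _) _

end Pool.Agent.H51.TM
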