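import Pool.Agent.H51.TM.Basic

/-!
# Four point correlations of the Thue-Morse signs
-/

namespace Pool.Agent.H51.TM

open Finset

/-- the four point sum -/
def H4 (w : ℕ) (c c' r : ℤ) : ℤ :=
  ∑ θ ∈ range (2 ^ w), ∑ y ∈ range (2 ^ w),
    A w y * A w (y + c) * (A w (y + θ * r) * A w (y + θ * r + c'))

theorem A_shift (w : ℕ) (t k : ℤ) : A w (t + ((2 ^ w : ℕ) : ℤ) * k) = A w t := by
  push_cast; exact A_add_mul w t k

theorem H4_odd (w : ℕ) (c c' r : ℤ) (hr : Odd r) : H4 w c c' r = gam w c * gam w c' := by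
  unfold H4
  rw [Finset.sum_comm]
  have h1 : ∀ y : ℕ, ∑ θ ∈ range (2 ^ w), A w y * A w (y + c) * (A w (y + θ * r) * A w (y + θ * r + c')) =
      A w y * A w (y + c) * gam w c' := by
    intro y
    rw [← Finset.mul_sum]
    congr 1
    unfold gam
    apply sum_complete (2 ^ w) (fun t : ℤ => A w t * A w (t + c'))
    · intro t k
      have e : t + ((2 ^ w : ℕ) : ℤ) * k + c' = (t + c') + ((2 ^ w : ℕ) : ℤ) * k := by ring
      rw [e, A_shift, A_shift]
    · intro i hi j hj h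
      have h2 : ((2 : ℤ) ^ w) ∣ r * ((i : ℤ) - j) := by
        have : r * ((i : ℤ) - j) = (y + i * r) - (y + j * r) := by ring
        rw [this]; exact_mod_cast h
      have h3 : IsCoprime ((2 : ℤ) ^ w) r := IsCoprime.pow_left (Int.isCoprime_two_left.2 hr)
      have h4 := h3.dvd_of_dvd_mul_left h2
      have h5 := Int.eq_zero_of_abs_lt_dvd h4 (by
        rw [abs_lt]
        have hi' : (i : ℤ) < 2 ^ w := by exact_mod_cast hi
        have hj' : (j : ℤ) < 2 ^ w := by exact_mod_cast hj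
        constructor <;> omega)
      omega
  rw [Finset.sum_congr rfl fun y _ => h1 y, ← Finset.sum_mul]
  rfl

theorem A_two (w : ℕ) (y c : ℤ) (b : ℕ) (hb : b < 2) :
    A (w + 1) (2 * y + b + c) = (if (b + c) % 2 = 0 then 1 else -1) * A w (y + (b + c) / 2) := by
  have h1 := Int.mul_ediv_add_emod (b + c) 2
  have h2 := Int.emod_nonneg (b + c) (show (2 : ℤ) ≠ 0 by norm_num)
  have h3 := Int.emod_lt_of_pos (b + c) (show (0 : ℤ) < 2 by norm_num)
  split_ifs with h
  · have : 2 * y + b + c = 2 * (y + (b + c) / 2) := by omega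
    rw [this, A_even, one_mul]
  · have : 2 * y + b + c = 2 * (y + (b + c) / 2) + 1 := by omega
    rw [this, A_odd]; ring

theorem H4_even (w : ℕ) (c c' r : ℤ) :
    |H4 (w + 1) c c' (2 * r)| ≤ 2 * (|H4 w ((0 + c) / 2) ((0 + c') / 2) r| +
      |H4 w ((1 + c) / 2) ((1 + c') / 2) r|) := by
  -- the sum over `θ` has period `2 ^ w`
  have key : H4 (w + 1) c c' (2 * r) = 2 *
      ((if (0 + c) % 2 = 0 then 1 else -1) * (if (0 + c') % 2 = 0 then 1 else -1) *
        H4 w ((0 + c) / 2) ((0 + c') / 2) r +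
       (if (1 + c) % 2 = 0 then 1 else -1) * (if (1 + c') % 2 = 0 then 1 else -1) *
        H4 w ((1 + c) / 2) ((1 + c') / 2) r) := by
    have hy : ∀ θ : ℤ, ∑ y ∈ range (2 ^ (w + 1)), A (w + 1) y * A (w + 1) (y + c) *
        (A (w + 1) (y + θ * (2 * r)) * A (w + 1) (y + θ * (2 * r) + c')) =
        (if (0 + c) % 2 = 0 then 1 else -1) * (if (0 + c') % 2 = 0 then 1 else -1) *
          (∑ y ∈ range (2 ^ w), A w y * A w (y + (0 + c) / 2) *
            (A w (y + θ * r) * A w (y + θ * r + (0 + c') / 2))) +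
        (if (1 + c) % 2 = 0 then 1 else -1) * (if (1 + c') % 2 = 0 then 1 else -1) *
          (∑ y ∈ range (2 ^ w), A w y * A w (y + (1 + c) / 2) *
            (A w (y + θ * r) * A w (y + θ * r + (1 + c') / 2))) := by
      intro θ
      rw [pow_succ, mul_comm (2 ^ w) 2, sum_split, Finset.mul_sum, Finset.mul_sum,
        ← Finset.sum_add_distrib]
      apply Finset.sum_congr rfl
      intro u _
      rw [Finset.sum_range_succ, Finset.sum_range_succ, Finset.sum_range_zero, zero_add]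
      have a0 := A_two w (u : ℤ) c 0 (by norm_num)
      have a1 := A_two w (u : ℤ) c 1 (by norm_num)
      have b0 := A_two w ((u : ℤ) + θ * r) c' 0 (by norm_num)
      have b1 := A_two w ((u : ℤ) + θ * r) c' 1 (by norm_num)
      have c0 := A_even w (u : ℤ)
      have c1 := A_odd w (u : ℤ)
      have d0 := A_even w ((u : ℤ) + θ * r)
      have d1 := A_odd w ((u : ℤ) + θ * r)
      push_cast at *
      have e1 : (2 * (u : ℤ) + 0 : ℤ) = 2 * u := by ring
      have e2 : (2 * (u : ℤ) + 0 + θ * (2 * r) : ℤ) = 2 * (u + θ * r) := by ring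
      have e3 : (2 * (u : ℤ) + 1 + θ * (2 * r) : ℤ) = 2 * (u + θ * r) + 1 := by ring
      have e4 : (2 * ((u : ℤ) + θ * r) + c' : ℤ) = 2 * (u + θ * r) + 0 + c' := by ring
      rw [e2, e3, e4, a0, a1, b0, b1, e1, c0, c1, d0, d1]
      ring
    unfold H4
    rw [pow_succ, mul_comm (2 ^ w) 2]
    have hper : ∀ f : ℤ → ℤ, (∀ t k : ℤ, f (t + ((2 ^ w : ℕ) : ℤ) * k) = f t) →
        ∑ θ ∈ range (2 * 2 ^ w), f θ = 2 * ∑ θ ∈ range (2 ^ w), f θ := by
      intro f hf
      rw [two_mul, Finset.sum_range_add, two_mul]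
      congr 1
      apply Finset.sum_congr rfl
      intro x _
      have := hf x 1
      push_cast at this ⊢
      rw [← this]; congr 1; ring
    have h1 := hper (fun θ : ℤ => ∑ y ∈ range (2 * 2 ^ w), A (w + 1) y * A (w + 1) (y + c) *
        (A (w + 1) (y + θ * (2 * r)) * A (w + 1) (y + θ * (2 * r) + c'))) (by
      intro t k
      apply Finset.sum_congr rfl
      intro y _
      have e1 : (y : ℤ) + (t + ((2 ^ w : ℕ) : ℤ) * k) * (2 * r) =
          (y + t * (2 * r)) + 2 ^ (w + 1) * (k * r) := by push_cast; ring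
      have e2 : (y + t * (2 * r)) + 2 ^ (w + 1) * (k * r) + c' =
          (y + t * (2 * r) + c') + 2 ^ (w + 1) * (k * r) := by ring
      rw [e1, e2, A_add_mul, A_add_mul])
    rw [h1]
    congr 1
    rw [Finset.mul_sum, Finset.mul_sum, ← Finset.sum_add_distrib]
    apply Finset.sum_congr rfl
    intro θ _
    have h2 := hy θ
    rw [pow_succ, mul_comm (2 ^ w) 2] at h2
    exact h2
  rw [key, abs_mul]
  have h2 : |(2 : ℤ)| = 2 := rfl
  rw [h2]
  apply mul_le_mul_of_nonneg_left _ (by norm_num)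
  refine (abs_add_le _ _).trans ?_
  have hs : ∀ (p q : Prop) [Decidable p] [Decidable q] (x : ℤ),
      |(if p then 1 else -1) * (if q then 1 else -1) * x| = |x| := by
    intro p q _ _ x
    split_ifs <;> simp
  rw [hs, hs]

theorem H4_bound (w : ℕ) (E : ℤ) (ρ : ℤ) (hρ : Odd ρ) : ∀ (i : ℕ) (c c' : ℤ),
    2 ^ i * E ≤ c → c ≤ 2 ^ i * (E + 1) → |H4 (w + i) c c' (2 ^ i * ρ)| ≤ 4 ^ i * (2 ^ w * G w E) := by
  intro i
  induction i with
  | zero =>
    intro c c' h1 h2
    simp only [pow_zero, one_mul, add_zero] at h1 h2 ⊢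
    rw [H4_odd _ _ _ _ hρ, abs_mul, mul_comm]
    have hg : |gam w c| ≤ G w E := by
      rcases (by omega : c = E ∨ c = E + 1) with h | h
      · rw [h]; exact le_max_left _ _
      · rw [h]; exact le_max_right _ _
    exact mul_le_mul (gam_abs_le _ _) hg (abs_nonneg _) (by positivity)
  | succ i ih =>
    intro c c' h1 h2
    rw [pow_succ] at h1 h2
    have e : (2 : ℤ) ^ (i + 1) * ρ = 2 * (2 ^ i * ρ) := by ring
    rw [e, ← add_assoc]
    refine (H4_even _ _ _ _).trans ?_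
    have b1 := ih ((0 + c) / 2) ((0 + c') / 2)
      (by rw [Int.le_ediv_iff_mul_le (by norm_num)]; linarith)
      (by
        have : (0 + c) / 2 < 2 ^ i * (E + 1) + 1 := by
          rw [Int.ediv_lt_iff_lt_mul (by norm_num)]; linarith
        linarith)
    have b2 := ih ((1 + c) / 2) ((1 + c') / 2)
      (by rw [Int.le_ediv_iff_mul_le (by norm_num)]; linarith)
      (by
        have : (1 + c) / 2 < 2 ^ i * (E + 1) + 1 := by
          rw [Int.ediv_lt_iff_lt_mul (by norm_num)]; linarith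
        linarith)
    calc _ ≤ 2 * (4 ^ i * (2 ^ w * G w E) + 4 ^ i * (2 ^ w * G w E)) := by linarith
      _ = 4 ^ (i + 1) * (2 ^ w * G w E) := by ring

theorem H4_trivial (w : ℕ) (c c' r : ℤ) : |H4 w c c' r| ≤ 4 ^ w := by
  unfold H4
  refine (Finset.abs_sum_le_sum_abs _ _).trans ?_
  have h1 : ∀ θ ∈ range (2 ^ w), |∑ y ∈ range (2 ^ w),
      A w y * A w (y + c) * (A w (y + θ * r) * A w (y + θ * r + c'))| ≤ 2 ^ w := by
    intro θ _
    refine (Finset.abs_sum_le_sum_abs _ _).trans ?_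
    rw [Finset.sum_congr rfl (g := fun _ => (1 : ℤ))]
    · simp
    · intro y _
      rw [abs_mul, abs_mul, abs_mul, A_abs, A_abs, A_abs, A_abs]; norm_num
  refine (Finset.sum_le_sum h1).trans ?_
  rw [Finset.sum_const, Finset.card_range, nsmul_eq_mul]
  have : (4 : ℤ) ^ w = 2 ^ w * 2 ^ w := by rw [← mul_pow]; norm_num
  rw [this]; push_cast; exact le_rfl

/-- the square sum -/
def Qf (w k : ℕ) (T δ : ℤ) : ℤ :=
  ∑ θ ∈ range (2 ^ w), ∑ y ∈ range (2 ^ w),
    (∑ m ∈ range (2 ^ k), A w (y + δ + (θ + T) * m) * A w (y + θ * m)) ^ 2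

theorem Qf_eq (w k : ℕ) (T δ : ℤ) : Qf w k T δ = ∑ m ∈ range (2 ^ k), ∑ m' ∈ range (2 ^ k),
    H4 w (δ + T * m) (δ + T * m') (m' - m) := by
  unfold Qf H4
  have h1 : ∀ θ : ℕ, ∑ y ∈ range (2 ^ w),
      (∑ m ∈ range (2 ^ k), A w (y + δ + (θ + T) * m) * A w (y + θ * m)) ^ 2 =
      ∑ m ∈ range (2 ^ k), ∑ m' ∈ range (2 ^ k), ∑ y ∈ range (2 ^ w),
        A w y * A w (y + (δ + T * m)) * (A w (y + θ * (m' - m)) *
          A w (y + θ * (m' - m) + (δ + T * m'))) := by
    intro θ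
    have h2 : ∀ y : ℕ, (∑ m ∈ range (2 ^ k), A w (y + δ + (θ + T) * m) * A w (y + θ * m)) ^ 2 =
        ∑ m ∈ range (2 ^ k), ∑ m' ∈ range (2 ^ k),
          (A w (y + δ + (θ + T) * m) * A w (y + θ * m)) *
          (A w (y + δ + (θ + T) * m') * A w (y + θ * m')) := by
      intro y
      rw [sq, Finset.sum_mul_sum]
    rw [Finset.sum_congr rfl fun y _ => h2 y, Finset.sum_comm]
    apply Finset.sum_congr rfl
    intro m _
    rw [Finset.sum_comm]
    apply Finset.sum_congr rfl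
    intro m' _
    have h3 := sum_shift (2 ^ w) (fun t : ℤ => A w t * A w (t + (δ + T * m)) *
      (A w (t + θ * (m' - m)) * A w (t + θ * (m' - m) + (δ + T * m')))) (by
        intro t k
        have e1 : t + ((2 ^ w : ℕ) : ℤ) * k + (δ + T * m) =
          (t + (δ + T * m)) + ((2 ^ w : ℕ) : ℤ) * k := by ring
        have e2 : t + ((2 ^ w : ℕ) : ℤ) * k + θ * ((m' : ℤ) - m) =
          (t + θ * ((m' : ℤ) - m)) + ((2 ^ w : ℕ) : ℤ) * k := by ring
        have e3 : (t + θ * ((m' : ℤ) - m)) + ((2 ^ w : ℕ) : ℤ) * k + (δ + T * m') =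
          (t + θ * ((m' : ℤ) - m) + (δ + T * m')) + ((2 ^ w : ℕ) : ℤ) * k := by ring
        rw [e1, e2, e3, A_shift, A_shift, A_shift, A_shift]) ((θ : ℤ) * m)
    rw [← h3]
    apply Finset.sum_congr rfl
    intro y _
    have e1 : (y : ℤ) + δ + (θ + T) * m = y + θ * m + (δ + T * m) := by ring
    have e2 : (y : ℤ) + θ * m' = y + θ * m + θ * (m' - m) := by ring
    have e3 : (y : ℤ) + δ + (θ + T) * m' = y + θ * m + θ * (m' - m) + (δ + T * m') := by ring
    rw [e1, e2, e3]; ring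
  rw [Finset.sum_congr rfl fun θ _ => h1 θ, Finset.sum_comm]
  apply Finset.sum_congr rfl
  intro m _
  rw [Finset.sum_comm]

end Pool.Agent.H51.TM
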