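import Pool.Agent.H51.TM.Rot

/-!
# The inner sum for a fixed base point
-/

namespace Pool.Agent.H51.TM

open Finset

/-- window correlation -/
def Th (w k : ℕ) (T v δ θ : ℤ) : ℤ :=
  |∑ m ∈ range (2 ^ k), A w (v + δ + (θ + T) * m) * A w (v + θ * m)|

theorem Th_nonneg (w k : ℕ) (T v δ θ : ℤ) : 0 ≤ Th w k T v δ θ := abs_nonneg _

theorem Th_per_v (w k : ℕ) (T δ θ v q : ℤ) : Th w k T (v + 2 ^ w * q) δ θ = Th w k T v δ θ := by
  unfold Th
  congr 1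
  apply Finset.sum_congr rfl
  intro m _
  have e1 : v + 2 ^ w * q + δ + (θ + T) * m = (v + δ + (θ + T) * m) + 2 ^ w * q := by ring
  have e2 : v + 2 ^ w * q + θ * m = (v + θ * m) + 2 ^ w * q := by ring
  rw [e1, e2, A_add_mul, A_add_mul]

theorem Th_per_θ (w k : ℕ) (T v δ θ q : ℤ) : Th w k T v δ (θ + 2 ^ w * q) = Th w k T v δ θ := by
  unfold Th
  congr 1
  apply Finset.sum_congr rfl
  intro m _
  have e1 : v + δ + (θ + 2 ^ w * q + T) * m = (v + δ + (θ + T) * m) + 2 ^ w * (q * m) := by ring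
  have e2 : v + (θ + 2 ^ w * q) * m = (v + θ * m) + 2 ^ w * (q * m) := by ring
  rw [e1, e2, A_add_mul, A_add_mul]

theorem A_split' (i j : ℕ) (t : ℤ) :
    A (i + j) t = sg (t % 2 ^ i).toNat * A j (t / 2 ^ i) := by
  have hi : (0 : ℤ) < 2 ^ i := by positivity
  have h0 := Int.emod_nonneg t hi.ne'
  have h1 := Int.emod_lt_of_pos t hi
  have h2 : ((t % 2 ^ i).toNat : ℤ) = t % 2 ^ i := Int.toNat_of_nonneg h0
  have h3 : (t % 2 ^ i).toNat < 2 ^ i := by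
    have : ((t % 2 ^ i).toNat : ℤ) < ((2 ^ i : ℕ) : ℤ) := by rw [h2]; push_cast; exact h1
    exact_mod_cast this
  have := A_split i j (t / 2 ^ i) _ h3
  rw [h2, Int.mul_ediv_add_emod] at this
  exact this

theorem inner_bound (κ1 κ2 w : ℕ) (T : ℕ) (R : ℕ) (hR : 0 < R) (θ y0 D d0 : ℤ)
    (hd0 : d0 ≤ D) (hd1 : D ≤ d0 + T + 1) (hgood : Good (κ1 + w) R (2 ^ κ1) θ) :
    |∑ m ∈ range (2 ^ (κ1 + κ2)), A (κ1 + w) (y0 + θ * m + (D + T * m)) * A (κ1 + w) (y0 + θ * m)| ≤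
      (2 ^ κ1 / R + 1 : ℕ) * ∑ i ∈ range (T + 2), ∑ v ∈ range (2 ^ w),
        Th w κ2 T v (d0 / 2 ^ κ1 + i) θ := by
  have hL : (0 : ℤ) < 2 ^ κ1 := by positivity
  rw [pow_add, sum_split, Finset.sum_comm]
  -- one residue class
  have h1 : ∀ m0 ∈ range (2 ^ κ1), |∑ m1 ∈ range (2 ^ κ2),
      A (κ1 + w) (y0 + θ * ((2 ^ κ1 * m1 + m0 : ℕ) : ℤ) + (D + T * ((2 ^ κ1 * m1 + m0 : ℕ) : ℤ))) *
        A (κ1 + w) (y0 + θ * ((2 ^ κ1 * m1 + m0 : ℕ) : ℤ))| ≤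
      ∑ i ∈ range (T + 2), Th w κ2 T ((y0 + θ * m0) / 2 ^ κ1) (d0 / 2 ^ κ1 + i) θ := by
    intro m0 hm0
    rw [mem_range] at hm0
    have hm0' : (m0 : ℤ) < 2 ^ κ1 := by exact_mod_cast hm0
    set z := y0 + θ * m0 with hz
    set u := z / 2 ^ κ1 with hu
    set ρ := z % 2 ^ κ1 with hρ
    set δ := (z + (D + T * m0)) / 2 ^ κ1 - u with hδ
    set ρ' := (z + (D + T * m0)) % 2 ^ κ1 with hρ'
    have e1 : ∀ m1 : ℕ, A (κ1 + w) (y0 + θ * ((2 ^ κ1 * m1 + m0 : ℕ) : ℤ) +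
        (D + T * ((2 ^ κ1 * m1 + m0 : ℕ) : ℤ))) = sg ρ'.toNat * A w (u + δ + (θ + T) * m1) := by
      intro m1
      have e : y0 + θ * ((2 ^ κ1 * m1 + m0 : ℕ) : ℤ) + (D + T * ((2 ^ κ1 * m1 + m0 : ℕ) : ℤ)) =
          (z + (D + T * m0)) + 2 ^ κ1 * ((θ + T) * m1) := by push_cast; ring
      rw [e, A_split', Int.add_mul_emod_self_left, Int.add_mul_ediv_left _ _ hL.ne']
      congr 2
      rw [hδ]; ring
    have e2 : ∀ m1 : ℕ, A (κ1 + w) (y0 + θ * ((2 ^ κ1 * m1 + m0 : ℕ) : ℤ)) =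
        sg ρ.toNat * A w (u + θ * m1) := by
      intro m1
      have e : y0 + θ * ((2 ^ κ1 * m1 + m0 : ℕ) : ℤ) = z + 2 ^ κ1 * (θ * m1) := by push_cast; ring
      rw [e, A_split', Int.add_mul_emod_self_left, Int.add_mul_ediv_left _ _ hL.ne']
    have e3 : ∑ m1 ∈ range (2 ^ κ2),
        A (κ1 + w) (y0 + θ * ((2 ^ κ1 * m1 + m0 : ℕ) : ℤ) + (D + T * ((2 ^ κ1 * m1 + m0 : ℕ) : ℤ))) *
          A (κ1 + w) (y0 + θ * ((2 ^ κ1 * m1 + m0 : ℕ) : ℤ)) = sg ρ'.toNat * sg ρ.toNat *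
        ∑ m1 ∈ range (2 ^ κ2), A w (u + δ + (θ + T) * m1) * A w (u + θ * m1) := by
      rw [Finset.mul_sum]
      apply Finset.sum_congr rfl
      intro m1 _
      rw [e1, e2]; ring
    rw [e3, abs_mul, abs_mul, sg_abs, sg_abs, one_mul, one_mul]
    -- the value of `δ`
    have f1 := Int.mul_ediv_add_emod z (2 ^ κ1)
    have f2 := Int.emod_nonneg z hL.ne'
    have f3 := Int.emod_lt_of_pos z hL
    have f4 := Int.mul_ediv_add_emod (z + (D + T * m0)) (2 ^ κ1)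
    have f5 := Int.emod_nonneg (z + (D + T * m0)) hL.ne'
    have f6 := Int.emod_lt_of_pos (z + (D + T * m0)) hL
    have f7 := Int.mul_ediv_add_emod d0 (2 ^ κ1)
    have f8 := Int.emod_nonneg d0 hL.ne'
    have f9 := Int.emod_lt_of_pos d0 hL
    set q1 := d0 / 2 ^ κ1 with hq1
    have hTm : (0 : ℤ) ≤ T * m0 := by positivity
    have hTm' : (T : ℤ) * m0 + T ≤ T * 2 ^ κ1 := by
      have : (T : ℤ) * (m0 + 1) ≤ T * 2 ^ κ1 := mul_le_mul_of_nonneg_left (by omega) (by positivity)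
      linarith
    have g1 : q1 ≤ δ := by
      by_contra hcon
      have h2 : (2 : ℤ) ^ κ1 * (δ + 1) ≤ 2 ^ κ1 * q1 := mul_le_mul_of_nonneg_left (by omega) hL.le
      have h3 : (2 : ℤ) ^ κ1 * δ = 2 ^ κ1 * ((z + (D + T * m0)) / 2 ^ κ1) - 2 ^ κ1 * u := by
        rw [hδ]; ring
      linarith
    have g2 : δ < q1 + (T + 2) := by
      by_contra hcon
      have h2 : (2 : ℤ) ^ κ1 * (q1 + (T + 2)) ≤ 2 ^ κ1 * δ := mul_le_mul_of_nonneg_left (by omega) hL.le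
      have h3 : (2 : ℤ) ^ κ1 * δ = 2 ^ κ1 * ((z + (D + T * m0)) / 2 ^ κ1) - 2 ^ κ1 * u := by
        rw [hδ]; ring
      have h4 : (2 : ℤ) ^ κ1 * (q1 + (T + 2)) = 2 ^ κ1 * q1 + T * 2 ^ κ1 + 2 * 2 ^ κ1 := by ring
      linarith
    obtain ⟨i, hi⟩ := Int.eq_ofNat_of_zero_le (sub_nonneg.2 g1)
    have hi' : i < T + 2 := by
      have : (i : ℤ) < T + 2 := by rw [← hi]; linarith
      exact_mod_cast this
    have hδi : δ = q1 + i := by linarith
    have := Finset.single_le_sum (f := fun i : ℕ => Th w κ2 T u (q1 + i) θ)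
      (fun i _ => Th_nonneg _ _ _ _ _ _) (mem_range.2 hi')
    refine le_trans (le_of_eq ?_) this
    simp only [Th]
    rw [← hδi]
  calc |∑ m0 ∈ range (2 ^ κ1), ∑ m1 ∈ range (2 ^ κ2), _|
      ≤ ∑ m0 ∈ range (2 ^ κ1), ∑ i ∈ range (T + 2),
          Th w κ2 T ((y0 + θ * m0) / 2 ^ κ1) (d0 / 2 ^ κ1 + i) θ :=
        (Finset.abs_sum_le_sum_abs _ _).trans (Finset.sum_le_sum h1)
    _ = ∑ i ∈ range (T + 2), ∑ m0 ∈ range (2 ^ κ1),
          Th w κ2 T ((y0 + θ * m0) / 2 ^ κ1) (d0 / 2 ^ κ1 + i) θ := Finset.sum_comm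
    _ ≤ ∑ i ∈ range (T + 2), (2 ^ κ1 / R + 1 : ℕ) * ∑ v ∈ range (2 ^ w),
          Th w κ2 T v (d0 / 2 ^ κ1 + i) θ := by
        apply Finset.sum_le_sum
        intro i _
        exact spread κ1 w R hR θ y0 hgood (2 ^ κ1)
          (fun v => Th w κ2 T v (d0 / 2 ^ κ1 + i) θ) (fun v => Th_nonneg _ _ _ _ _ _)
          (fun v k => Th_per_v _ _ _ _ _ _ _)
    _ = _ := by rw [Finset.mul_sum]

theorem emod_ediv (κ w : ℕ) (t : ℤ) : t % 2 ^ (κ + w) / 2 ^ κ = t / 2 ^ κ % 2 ^ w := by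
  have hL : (0 : ℤ) < 2 ^ κ := by positivity
  have hw : (0 : ℤ) < 2 ^ w := by positivity
  have h1 := Int.mul_ediv_add_emod t (2 ^ κ)
  have h2 := Int.emod_nonneg t hL.ne'
  have h3 := Int.emod_lt_of_pos t hL
  have h4 := Int.mul_ediv_add_emod (t / 2 ^ κ) (2 ^ w)
  have h5 := Int.emod_nonneg (t / 2 ^ κ) hw.ne'
  have h6 := Int.emod_lt_of_pos (t / 2 ^ κ) hw
  have e1 : t = (2 ^ κ * (t / 2 ^ κ % 2 ^ w) + t % 2 ^ κ) + 2 ^ (κ + w) * (t / 2 ^ κ / 2 ^ w) := by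
    rw [pow_add]; linear_combination (-1 : ℤ) * h1 - 2 ^ κ * h4
  have e2 : t % 2 ^ (κ + w) = 2 ^ κ * (t / 2 ^ κ % 2 ^ w) + t % 2 ^ κ := by
    conv_lhs => rw [e1]
    rw [Int.add_mul_emod_self_left]
    apply Int.emod_eq_of_lt (by positivity)
    rw [pow_add]
    nlinarith [mul_le_mul_of_nonneg_left (Int.add_one_le_iff.2 h6) hL.le]
  rw [e2, add_comm, Int.add_mul_ediv_left _ _ hL.ne', Int.ediv_eq_zero_of_lt h2 h3, zero_add]

/-- the number of overflows -/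
theorem overflow (κ1 M w c : ℕ) (hc : c ≤ w) (R : ℕ) (hR : 0 < R) (θ y0 : ℤ)
    (hgood : Good (κ1 + w) R (2 ^ κ1) θ) :
    (((range M).filter fun m : ℕ =>
      (2 : ℤ) ^ (κ1 + w) - 2 ^ (κ1 + w - c) ≤ (y0 + θ * m) % 2 ^ (κ1 + w)).card : ℤ) ≤
      (M / R + 1 : ℕ) * 2 ^ (w - c) := by
  have hL : (0 : ℤ) < 2 ^ κ1 := by positivity
  have hw : (0 : ℤ) < 2 ^ w := by positivity
  set f : ℤ → ℤ := fun v => if (2 : ℤ) ^ w - 2 ^ (w - c) ≤ v % 2 ^ w then 1 else 0 with hf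
  have hf0 : ∀ v, 0 ≤ f v := by intro v; simp only [hf]; split_ifs <;> norm_num
  have hfp : ∀ v k : ℤ, f (v + 2 ^ w * k) = f v := by
    intro v k; simp only [hf, Int.add_mul_emod_self_left]
  have h1 := spread κ1 w R hR θ y0 hgood M f hf0 hfp
  have h2 : ∑ v ∈ range (2 ^ w), f v ≤ 2 ^ (w - c) := by
    have h3 : ∀ v ∈ range (2 ^ w), f v = if 2 ^ w - 2 ^ (w - c) ≤ v then 1 else 0 := by
      intro v hv
      rw [mem_range] at hv
      have hv' : (v : ℤ) % 2 ^ w = v := Int.emod_eq_of_lt (by positivity) (by exact_mod_cast hv)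
      simp only [hf, hv']
      have h4 : 2 ^ (w - c) ≤ 2 ^ w := Nat.pow_le_pow_right (by norm_num) (Nat.sub_le _ _)
      have h5 : ((2 : ℤ) ^ w - 2 ^ (w - c) ≤ v) ↔ (2 ^ w - 2 ^ (w - c) ≤ v) := by
        have h6 : ((2 ^ w - 2 ^ (w - c) : ℕ) : ℤ) = 2 ^ w - 2 ^ (w - c) := by
          push_cast [Nat.cast_sub h4]; ring
        rw [← h6]; exact_mod_cast Iff.rfl
      simp only [h5]
    rw [Finset.sum_congr rfl h3]
    have h7 : ∑ v ∈ range (2 ^ w), (if 2 ^ w - 2 ^ (w - c) ≤ v then (1 : ℤ) else 0) =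
        (((range (2 ^ w)).filter fun v => 2 ^ w - 2 ^ (w - c) ≤ v).card : ℤ) := by
      rw [Finset.card_filter]; push_cast; rfl
    rw [h7]
    have h8 : (range (2 ^ w)).filter (fun v => 2 ^ w - 2 ^ (w - c) ≤ v) ⊆
        Ico (2 ^ w - 2 ^ (w - c)) (2 ^ w) := by
      intro v hv
      rw [mem_filter, mem_range] at hv
      rw [mem_Ico]; exact ⟨hv.2, hv.1⟩
    have h9 := Finset.card_le_card h8
    rw [Nat.card_Ico] at h9
    have h4 : 2 ^ (w - c) ≤ 2 ^ w := Nat.pow_le_pow_right (by norm_num) (Nat.sub_le _ _)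
    rw [Nat.sub_sub_self h4] at h9
    have h10 : ((range (2 ^ w)).filter fun v => 2 ^ w - 2 ^ (w - c) ≤ v).card ≤ 2 ^ (w - c) := h9
    exact_mod_cast h10
  have h3 : (((range M).filter fun m : ℕ =>
      (2 : ℤ) ^ (κ1 + w) - 2 ^ (κ1 + w - c) ≤ (y0 + θ * m) % 2 ^ (κ1 + w)).card : ℤ) ≤
      ∑ m ∈ range M, f ((y0 + θ * m) / 2 ^ κ1) := by
    rw [Finset.card_filter]
    push_cast
    apply Finset.sum_le_sum
    intro m _
    split_ifs with h
    · have : f ((y0 + θ * m) / 2 ^ κ1) = 1 := by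
        simp only [hf]
        rw [if_pos]
        -- the upper digits of the residue
        set t := y0 + θ * m with ht
        have g1 : t % 2 ^ (κ1 + w) / 2 ^ κ1 = t / 2 ^ κ1 % 2 ^ w := emod_ediv κ1 w t
        rw [← g1, Int.le_ediv_iff_mul_le hL]
        have e1 : ((2 : ℤ) ^ w - 2 ^ (w - c)) * 2 ^ κ1 = 2 ^ (κ1 + w) - 2 ^ (κ1 + w - c) := by
          rw [sub_mul, ← pow_add, ← pow_add, add_comm w κ1]
          congr 2; omega
        rw [e1]; exact h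
      rw [this]
    · exact hf0 _
  refine h3.trans (h1.trans ?_)
  exact mul_le_mul_of_nonneg_left h2 (by positivity)

/-- the sign of a nonnegative integer -/
def sgz (t : ℤ) : ℤ := sg t.toNat

theorem sgz_abs (t : ℤ) : |sgz t| = 1 := sg_abs _

theorem sgz_split (k : ℕ) (H a : ℤ) (hH : 0 ≤ H) (h0 : 0 ≤ a) (h1 : a < 2 ^ k) :
    sgz (2 ^ k * H + a) = sgz H * sgz a := by
  obtain ⟨H', rfl⟩ := Int.eq_ofNat_of_zero_le hH
  obtain ⟨a', rfl⟩ := Int.eq_ofNat_of_zero_le h0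
  unfold sgz
  have e1 : ((2 : ℤ) ^ k * (H' : ℤ) + (a' : ℤ)).toNat = 2 ^ k * H' + a' := by
    have : ((2 : ℤ) ^ k * (H' : ℤ) + (a' : ℤ)) = ((2 ^ k * H' + a' : ℕ) : ℤ) := by push_cast; ring
    rw [this, Int.toNat_natCast]
  rw [e1, Int.toNat_natCast, Int.toNat_natCast]
  exact sg_split _ _ _ (by exact_mod_cast h1)

theorem A_eq_sgz (w : ℕ) (t : ℤ) : A w t = sgz (t % 2 ^ w) := rfl

/-- without overflow the product of two signs is determined by the window -/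
theorem sgz_mul (K : ℕ) (t D : ℤ) (ht : 0 ≤ t) (hD : 0 ≤ D) (h : t % 2 ^ K + D < 2 ^ K) :
    sgz (t + D) * sgz t = A K (t + D) * A K t := by
  have hK : (0 : ℤ) < 2 ^ K := by positivity
  have h1 := Int.mul_ediv_add_emod t (2 ^ K)
  have h2 := Int.emod_nonneg t hK.ne'
  have h3 := Int.emod_lt_of_pos t hK
  have hH : 0 ≤ t / 2 ^ K := Int.ediv_nonneg ht hK.le
  have e1 : sgz t = sgz (t / 2 ^ K) * sgz (t % 2 ^ K) := by
    conv_lhs => rw [← h1]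
    exact sgz_split _ _ _ hH h2 h3
  have e2 : sgz (t + D) = sgz (t / 2 ^ K) * sgz (t % 2 ^ K + D) := by
    have : t + D = 2 ^ K * (t / 2 ^ K) + (t % 2 ^ K + D) := by linarith
    rw [this]
    exact sgz_split _ _ _ hH (by linarith) h
  have e3 : A K (t + D) = sgz (t % 2 ^ K + D) := by
    rw [A_eq_sgz]
    congr 1
    have : t + D = (t % 2 ^ K + D) + 2 ^ K * (t / 2 ^ K) := by linarith
    rw [this, Int.add_mul_emod_self_left]
    exact Int.emod_eq_of_lt (by linarith) h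
  rw [e1, e2, e3, A_eq_sgz]
  have e4 : sgz (t / 2 ^ K) * sgz (t / 2 ^ K) = 1 := sg_sq _
  linear_combination (sgz (t % 2 ^ K + D) * sgz (t % 2 ^ K)) * e4

/-- passage from the true values to the window -/
theorem to_window (K M c : ℕ) (y : ℕ → ℤ) (y0 θ D : ℤ) (T : ℕ) (hc : c ≤ K)
    (hy0 : ∀ m < M, 0 ≤ y m) (hy : ∀ m < M, (2 ^ K : ℤ) ∣ y m - (y0 + θ * m))
    (hD0 : 0 ≤ D) (hD : D + T * M ≤ 2 ^ (K - c)) :
    |∑ m ∈ range M, sgz (y m + (D + T * m)) * sgz (y m)| ≤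
      |∑ m ∈ range M, A K (y0 + θ * m + (D + T * m)) * A K (y0 + θ * m)| +
      2 * (((range M).filter fun m : ℕ =>
        (2 : ℤ) ^ K - 2 ^ (K - c) ≤ (y0 + θ * m) % 2 ^ K).card : ℤ) := by
  have hpt : ∀ m ∈ range M, |sgz (y m + (D + T * m)) * sgz (y m) -
      A K (y0 + θ * m + (D + T * m)) * A K (y0 + θ * m)| ≤
      2 * (if (2 : ℤ) ^ K - 2 ^ (K - c) ≤ (y0 + θ * m) % 2 ^ K then 1 else 0) := by
    intro m hm
    rw [mem_range] at hm
    have hm' : (m : ℤ) ≤ M := by exact_mod_cast hm.le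
    have hTm : (0 : ℤ) ≤ T * m := by positivity
    have hTm' : (T : ℤ) * m ≤ T * M := mul_le_mul_of_nonneg_left hm' (by positivity)
    have hmod : y m % 2 ^ K = (y0 + θ * m) % 2 ^ K := (Int.modEq_iff_dvd.2 (hy m hm)).symm
    have eA1 : A K (y0 + θ * m) = A K (y m) := (A_congr K _ _ (hy m hm)).symm
    have eA2 : A K (y0 + θ * m + (D + T * m)) = A K (y m + (D + T * m)) := by
      apply (A_congr K _ _ _).symm
      have : y m + (D + T * m) - (y0 + θ * m + (D + T * m)) = y m - (y0 + θ * m) := by ring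
      rw [this]; exact hy m hm
    split_ifs with h
    · have h1 : |sgz (y m + (D + T * m)) * sgz (y m)| = 1 := by
        rw [abs_mul, sgz_abs, sgz_abs]; norm_num
      have h2 : |A K (y0 + θ * m + (D + T * m)) * A K (y0 + θ * m)| = 1 := by
        rw [abs_mul, A_abs, A_abs]; norm_num
      calc _ ≤ |sgz (y m + (D + T * m)) * sgz (y m)| +
            |A K (y0 + θ * m + (D + T * m)) * A K (y0 + θ * m)| := abs_sub _ _
        _ = 2 * 1 := by rw [h1, h2]; norm_num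
    · rw [eA1, eA2, sgz_mul K (y m) (D + T * m) (hy0 m hm) (by linarith) (by
        rw [hmod]; push Not at h; linarith)]
      simp
  have h1 : |∑ m ∈ range M, sgz (y m + (D + T * m)) * sgz (y m) -
      ∑ m ∈ range M, A K (y0 + θ * m + (D + T * m)) * A K (y0 + θ * m)| ≤
      2 * (((range M).filter fun m : ℕ =>
        (2 : ℤ) ^ K - 2 ^ (K - c) ≤ (y0 + θ * m) % 2 ^ K).card : ℤ) := by
    rw [← Finset.sum_sub_distrib, Finset.card_filter]
    push_cast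
    rw [Finset.mul_sum]
    exact (Finset.abs_sum_le_sum_abs _ _).trans (Finset.sum_le_sum hpt)
  have h2 := abs_sub_abs_le_abs_sub (∑ m ∈ range M, sgz (y m + (D + T * m)) * sgz (y m))
    (∑ m ∈ range M, A K (y0 + θ * m + (D + T * m)) * A K (y0 + θ * m))
  linarith

end Pool.Agent.H51.TM
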