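import Pool.Agent.H51.TM.Dilate

/-!
# Disjoint pairs `(z, 2 ^ k z)` and the explicit lower density
-/

namespace Pool.Agent.H51.TM

open Finset Polynomial Filter Topology

/-- the two-adic valuation of `q n + u` lies in `[2 l k, (2 l + 1) k)` for some `l < L` -/
def Layer (q : ℕ) (u : ℤ) (k L n : ℕ) : Prop :=
  ∃ l < L, (2 ^ (2 * l * k) : ℤ) ∣ q * n + u ∧ ¬ (2 ^ ((2 * l + 1) * k) : ℤ) ∣ q * n + u

theorem Layer_periodic (q : ℕ) (u : ℤ) (k L m n : ℕ) :
    Layer q u k L (2 ^ (2 * L * k) * m + n) ↔ Layer q u k L n := by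
  have h : ∀ a ≤ 2 * L * k, ((2 ^ a : ℤ) ∣ q * ((2 ^ (2 * L * k) * m + n : ℕ) : ℤ) + u ↔
      (2 ^ a : ℤ) ∣ q * n + u) := by
    intro a ha
    have e : (q : ℤ) * ((2 ^ (2 * L * k) * m + n : ℕ) : ℤ) + u =
        (q * n + u) + 2 ^ (2 * L * k) * (q * m) := by push_cast; ring
    rw [e]
    exact dvd_add_left (Dvd.dvd.mul_right (pow_dvd_pow _ ha) _)
  unfold Layer
  constructor
  · rintro ⟨l, hl, h1, h2⟩
    refine ⟨l, hl, (h _ ?_).1 h1, fun h3 => h2 ((h _ ?_).2 h3)⟩
    · exact Nat.mul_le_mul_right _ (by omega)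
    · exact Nat.mul_le_mul_right _ (by omega)
  · rintro ⟨l, hl, h1, h2⟩
    refine ⟨l, hl, (h _ ?_).2 h1, fun h3 => h2 ((h _ ?_).1 h3)⟩
    · exact Nat.mul_le_mul_right _ (by omega)
    · exact Nat.mul_le_mul_right _ (by omega)

theorem Layer_disjoint (q : ℕ) (u : ℤ) (k L n n' : ℕ) (hn : Layer q u k L n)
    (hn' : Layer q u k L n') (h : (q : ℤ) * n' + u = 2 ^ k * (q * n + u)) : False := by
  obtain ⟨l, _, h1, h2⟩ := hn
  obtain ⟨l', _, h3, h4⟩ := hn'
  rw [h] at h3 h4
  rcases le_or_gt l' l with hl | hl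
  · apply h4
    have h5 : (2 : ℤ) ^ ((2 * l' + 1) * k) ∣ 2 ^ (k + 2 * l * k) := by
      apply pow_dvd_pow
      have : (2 * l' + 1) * k ≤ (2 * l + 1) * k := Nat.mul_le_mul_right _ (by omega)
      calc _ ≤ (2 * l + 1) * k := this
        _ = k + 2 * l * k := by ring
    refine h5.trans ?_
    rw [pow_add]
    exact mul_dvd_mul_left _ h1
  · apply h2
    have h5 : (2 : ℤ) ^ (k + (2 * l + 1) * k) ∣ 2 ^ k * (q * n + u) := by
      refine (pow_dvd_pow _ ?_).trans h3
      have : (2 * l + 2) * k ≤ 2 * l' * k := Nat.mul_le_mul_right _ (by omega)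
      calc _ = (2 * l + 2) * k := by ring
        _ ≤ _ := this
    rw [pow_add] at h5
    exact (mul_dvd_mul_iff_left (show (2 : ℤ) ^ k ≠ 0 by positivity)).1 h5

open Classical in
theorem Layer_count (q : ℕ) (hq : Odd q) (u : ℤ) (k N : ℕ) : ∀ L : ℕ,
    (N : ℝ) * (1 - (1 / 2 ^ k) ^ (2 * L)) ≤
      (((range N).filter (Layer q u k L)).card + 2 * L : ℝ) * (1 + 1 / 2 ^ k) := by
  intro L
  induction L with
  | zero => simp; positivity
  | succ L ih =>
    -- the new layer
    set new := (range N).filter fun n : ℕ => (2 ^ (2 * L * k) : ℤ) ∣ q * n + u ∧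
      ¬ (2 ^ ((2 * L + 1) * k) : ℤ) ∣ q * n + u with hnew
    have h1 : (((range N).filter (Layer q u k L)).card : ℝ) + new.card ≤
        ((range N).filter (Layer q u k (L + 1))).card := by
      have hdisj : Disjoint ((range N).filter (Layer q u k L)) new := by
        rw [Finset.disjoint_left]
        intro n hn hn'
        rw [mem_filter] at hn hn'
        obtain ⟨l, hl, _, h3⟩ := hn.2
        apply h3
        refine (pow_dvd_pow _ ?_).trans hn'.2.1
        exact Nat.mul_le_mul_right _ (by omega)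
      rw [← Nat.cast_add, ← Finset.card_union_of_disjoint hdisj]
      apply Nat.cast_le.2
      apply Finset.card_le_card
      intro n hn
      rw [mem_union] at hn
      rcases hn with hn | hn
      · rw [mem_filter] at hn ⊢
        obtain ⟨l, hl, h2⟩ := hn.2
        exact ⟨hn.1, l, by omega, h2⟩
      · rw [hnew, mem_filter] at hn
        rw [mem_filter]
        exact ⟨hn.1, L, by omega, hn.2⟩
    have h2 : (N : ℝ) * ((1 / 2 ^ k) ^ (2 * L) * (1 - 1 / 2 ^ k)) ≤ new.card + 2 := by
      have h3 : new = ((range N).filter fun n : ℕ => (2 ^ (2 * L * k) : ℤ) ∣ q * n + u) \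
          ((range N).filter fun n : ℕ => (2 ^ ((2 * L + 1) * k) : ℤ) ∣ q * n + u) := by
        ext n
        simp only [hnew, mem_filter, Finset.mem_sdiff]
        tauto
      have hsub : ((range N).filter fun n : ℕ => (2 ^ ((2 * L + 1) * k) : ℤ) ∣ q * n + u) ⊆
          ((range N).filter fun n : ℕ => (2 ^ (2 * L * k) : ℤ) ∣ q * n + u) := by
        intro n hn
        rw [mem_filter] at hn ⊢
        refine ⟨hn.1, (pow_dvd_pow _ ?_).trans hn.2⟩
        exact Nat.mul_le_mul_right _ (by omega)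
      have h4 := Finset.card_sdiff_add_card_eq_card hsub
      rw [← h3] at h4
      have h5 := count_ge q (2 * L * k) hq u N
      have h6 := count_le q ((2 * L + 1) * k) hq u N
      set a := ((range N).filter fun n : ℕ => (2 ^ (2 * L * k) : ℤ) ∣ q * n + u).card with ha
      set b := ((range N).filter fun n : ℕ => (2 ^ ((2 * L + 1) * k) : ℤ) ∣ q * n + u).card with hb
      have h5' : (N : ℝ) ≤ 2 ^ (2 * L * k) * (a + 1) := by exact_mod_cast h5
      have h6' : (2 : ℝ) ^ ((2 * L + 1) * k) * b ≤ N + 2 ^ ((2 * L + 1) * k) := by exact_mod_cast h6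
      have h4' : (new.card : ℝ) + b = a := by exact_mod_cast h4
      have e1 : (1 / (2 : ℝ) ^ k) ^ (2 * L) = 1 / 2 ^ (2 * L * k) := by
        rw [div_pow, one_pow, ← pow_mul, mul_comm k]
      have e2 : (2 : ℝ) ^ ((2 * L + 1) * k) = 2 ^ (2 * L * k) * 2 ^ k := by
        rw [← pow_add]; congr 1; ring
      have g1 : (N : ℝ) / 2 ^ (2 * L * k) ≤ a + 1 := by
        rw [div_le_iff₀ (by positivity)]; linarith
      have g2 : (b : ℝ) ≤ N / 2 ^ ((2 * L + 1) * k) + 1 := by
        rw [← sub_le_iff_le_add, le_div_iff₀ (by positivity)]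
        linarith
      have e3 : (N : ℝ) * ((1 / 2 ^ k) ^ (2 * L) * (1 - 1 / 2 ^ k)) =
          N / 2 ^ (2 * L * k) - N / 2 ^ ((2 * L + 1) * k) := by
        rw [e1, e2]; field_simp
      rw [e3]
      linarith
    have e : (N : ℝ) * (1 - (1 / 2 ^ k) ^ (2 * (L + 1))) = (N : ℝ) * (1 - (1 / 2 ^ k) ^ (2 * L)) +
        (N : ℝ) * ((1 / 2 ^ k) ^ (2 * L) * (1 - 1 / 2 ^ k)) * (1 + 1 / 2 ^ k) := by
      rw [show 2 * (L + 1) = 2 * L + 2 by ring, pow_add]; ring
    rw [e]
    have hy : (0 : ℝ) ≤ 1 + 1 / 2 ^ k := by positivity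
    have h3 := mul_le_mul_of_nonneg_right h2 hy
    calc _ ≤ (((range N).filter (Layer q u k L)).card + 2 * L : ℝ) * (1 + 1 / 2 ^ k) +
          (new.card + 2) * (1 + 1 / 2 ^ k) := add_le_add ih h3
      _ = (((range N).filter (Layer q u k L)).card + new.card + 2 * (L + 1) : ℝ) * (1 + 1 / 2 ^ k) := by
          ring
      _ ≤ _ := by
          apply mul_le_mul_of_nonneg_right _ hy
          push_cast
          linarith

theorem Small.zero : Small fun _ => 0 := by
  intro ε hε
  refine ⟨0, fun N _ => ?_⟩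
  simp only [Finset.sum_const_zero, Int.cast_zero, abs_zero]
  positivity

open Classical in
/-- one symbol, case of a nonnegative translation part -/
theorem density_core (A b B C₀ : ℚ) (d : ℕ) (hd : 2 ≤ d) (hA : A ≠ 0) (hB : B ≠ 0)
    (hb : Odd b.den) (k β : ℕ) (hk : 1 ≤ k) (hβ : (β : ℚ) = (2 ^ k - 1) * b) (v : ℕ → ℕ)
    (hv : ∀ n : ℕ, A * ((n : ℚ) + b) ^ d + B * ((n : ℚ) + b) + C₀ = v n) (c : ℕ) (hc : c < 2)
    (δ : ℝ) (hδ : δ < 1 / (2 * (2 ^ k + 1))) :
    ∀ᶠ M : ℕ in atTop, δ * M ≤ (((range M).filter fun n => ds (v n) % 2 = c).card : ℝ) := by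
  set q := b.den with hq
  set u := b.num with hu
  have hqpos : (0 : ℚ) < q := by exact_mod_cast b.den_pos
  have hbqu : b * q = u := by rw [hq, hu]; exact Rat.mul_den_eq_num b
  -- the relation between the two points of a pair
  have hrel : ∀ n : ℕ, (q : ℤ) * ((2 ^ k * n + β : ℕ) : ℤ) + u = 2 ^ k * (q * n + u) := by
    intro n
    have : (q : ℚ) * ((2 ^ k * n + β : ℕ) : ℚ) + u = 2 ^ k * (q * n + u) := by
      push_cast
      rw [hβ, ← hbqu]; ring
    exact_mod_cast this
  set y : ℝ := 1 / 2 ^ k with hy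
  have hy0 : 0 < y := by rw [hy]; positivity
  have hy1 : y ≤ 1 / 2 := by
    rw [hy]
    apply one_div_le_one_div_of_le (by norm_num)
    calc (2 : ℝ) = 2 ^ 1 := by norm_num
      _ ≤ 2 ^ k := pow_le_pow_right₀ (by norm_num) hk
  -- the choice of the number of layers
  have hbound : 1 / (2 * (2 ^ k + 1)) = y * (1 / (1 + y)) / 2 := by
    rw [hy]; field_simp
  rw [hbound] at hδ
  obtain ⟨ε, hε, hε1⟩ : ∃ ε : ℝ, 0 < ε ∧ δ + 4 * ε < y * (1 / (1 + y)) / 2 :=
    ⟨(y * (1 / (1 + y)) / 2 - δ) / 8, by linarith, by linarith⟩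
  obtain ⟨L, hL⟩ : ∃ L : ℕ, y ^ (2 * L) < ε := by
    obtain ⟨L, hL⟩ := exists_pow_lt_of_lt_one hε (show y ^ 2 < 1 by nlinarith)
    exact ⟨L, by rw [pow_mul]; exact hL⟩
  -- cancellation on the layers
  set w : ℕ → ℤ := fun n => if Layer q u k L n then 1 else 0 with hw
  set F : ℕ → ℤ := fun n => sg (v n) * sg (v (2 ^ k * n + β)) with hF
  have hFabs : ∀ n, |F n| = 1 := by
    intro n; rw [hF]; simp only; rw [abs_mul, sg_abs, sg_abs]; norm_num
  have hsmall : Small fun n => w n * F n := by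
    apply Small.of_classes _ _ (2 ^ (2 * L * k)) (by positivity)
    · intro r _
      by_cases hr : Layer q u k L r
      · have e : (fun n => w (2 ^ (2 * L * k) * n + r) * F (2 ^ (2 * L * k) * n + r)) =
            fun n => sg (v (2 ^ (2 * L * k) * n + r)) *
              sg (v (2 ^ k * 2 ^ (2 * L * k) * n + (2 ^ k * r + β))) := by
          funext n
          have h1 : w (2 ^ (2 * L * k) * n + r) = 1 := by
            rw [hw]; simp only; rw [if_pos ((Layer_periodic q u k L n r).2 hr)]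
          have h2 : 2 ^ k * (2 ^ (2 * L * k) * n + r) + β =
              2 ^ k * 2 ^ (2 * L * k) * n + (2 ^ k * r + β) := by ring
          rw [h1, one_mul, hF]
          simp only
          rw [h2]
        rw [e]
        apply dilation_small A b B C₀ d hd hA hB k hk v hv _ _ _ (by positivity)
        push_cast
        rw [hβ]; ring
      · have e : (fun n => w (2 ^ (2 * L * k) * n + r) * F (2 ^ (2 * L * k) * n + r)) =
            fun _ => 0 := by
          funext n
          have h1 : w (2 ^ (2 * L * k) * n + r) = 0 := by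
            rw [hw]; simp only
            rw [if_neg (fun h => hr ((Layer_periodic q u k L n r).1 h))]
          rw [h1, zero_mul]
        rw [e]
        exact Small.zero
    · intro n
      rw [abs_mul, hFabs, mul_one, hw]
      simp only
      split_ifs <;> simp
  obtain ⟨N0, hN0⟩ := hsmall ε hε
  -- the counting inequality
  have hcount : ∀ M K : ℕ, 2 ^ k * K + β ≤ M →
      ((∑ n ∈ range K, w n : ℤ) : ℝ) - ((∑ n ∈ range K, w n * F n : ℤ) : ℝ) ≤
        2 * (((range M).filter fun n => ds (v n) % 2 = c).card : ℝ) := by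
    intro M K hMK
    set S := (range K).filter fun n =>
      Layer q u k L n ∧ ds (v n) % 2 ≠ ds (v (2 ^ k * n + β)) % 2 with hS
    have h1 : ∑ n ∈ range K, w n - ∑ n ∈ range K, w n * F n = 2 * (S.card : ℤ) := by
      rw [← Finset.sum_sub_distrib, hS, Finset.card_filter]
      push_cast
      rw [Finset.mul_sum]
      apply Finset.sum_congr rfl
      intro n _
      have h2 := Nat.mod_lt (ds (v n)) (show 0 < 2 by norm_num)
      have h3 := Nat.mod_lt (ds (v (2 ^ k * n + β))) (show 0 < 2 by norm_num)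
      simp only [hw, hF, sg_eq]
      by_cases hlay : Layer q u k L n
      · simp only [hlay, true_and, if_true]
        split_ifs <;> omega
      · simp only [hlay, false_and, if_false]
        norm_num
    have h2 : S.card ≤ ((range M).filter fun n => ds (v n) % 2 = c).card := by
      apply Finset.card_le_card_of_injOn
        (fun n => if ds (v n) % 2 = c then n else 2 ^ k * n + β)
      · intro n hn
        rw [Finset.mem_coe, hS, mem_filter, mem_range] at hn
        obtain ⟨hnK, _, hne⟩ := hn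
        rw [Finset.mem_coe, mem_filter, mem_range]
        have hlt : 2 ^ k * n + β < M := by
          have : 2 ^ k * (n + 1) ≤ 2 ^ k * K := Nat.mul_le_mul_left _ hnK
          have h3 : 2 ^ k * (n + 1) = 2 ^ k * n + 2 ^ k := by ring
          have h4 : 0 < 2 ^ k := by positivity
          omega
        have hle : n ≤ 2 ^ k * n := Nat.le_mul_of_pos_left _ (by positivity)
        have h5 := Nat.mod_lt (ds (v n)) (show 0 < 2 by norm_num)
        have h6 := Nat.mod_lt (ds (v (2 ^ k * n + β))) (show 0 < 2 by norm_num)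
        by_cases h : ds (v n) % 2 = c
        · simp only [if_pos h]
          exact ⟨by omega, h⟩
        · simp only [if_neg h]
          exact ⟨hlt, by omega⟩
      · intro n hn n' hn' hnn
        rw [Finset.mem_coe, hS, mem_filter] at hn hn'
        simp only at hnn
        have hinj : ∀ a a' : ℕ, 2 ^ k * a + β = 2 ^ k * a' + β → a = a' := by
          intro a a' h
          have : 2 ^ k * a = 2 ^ k * a' := by omega
          exact Nat.eq_of_mul_eq_mul_left (by positivity) this
        split_ifs at hnn with h h'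
        · exact hnn
        · exfalso
          apply Layer_disjoint q u k L n' n hn'.2.1 hn.2.1
          rw [hnn]; exact hrel n'
        · exfalso
          apply Layer_disjoint q u k L n n' hn.2.1 hn'.2.1
          rw [← hnn]; exact hrel n
        · exact hinj _ _ hnn
    have h3 : ((∑ n ∈ range K, w n : ℤ) : ℝ) - ((∑ n ∈ range K, w n * F n : ℤ) : ℝ) =
        2 * (S.card : ℝ) := by exact_mod_cast h1
    rw [h3]
    have h4 : (S.card : ℝ) ≤ (((range M).filter fun n => ds (v n) % 2 = c).card : ℝ) := by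
      exact_mod_cast h2
    linarith
  -- conclusion
  obtain ⟨M1, hM1⟩ := exists_nat_gt ((((β : ℝ) + 2 ^ k) * y + 4 * L) / (2 * ε))
  filter_upwards [eventually_ge_atTop (2 ^ k * (N0 + 1) + β + M1)] with M hM
  set K := (M - β) / 2 ^ k with hK
  have hK1 : 2 ^ k * K ≤ M - β := Nat.mul_div_le _ _
  have hK2 : M - β < 2 ^ k * (K + 1) := by
    have h1 := Nat.div_add_mod (M - β) (2 ^ k)
    rw [← hK] at h1
    have h2 := Nat.mod_lt (M - β) (show 0 < 2 ^ k by positivity)
    have h3 : 2 ^ k * (K + 1) = 2 ^ k * K + 2 ^ k := by ring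
    omega
  have hKN : N0 ≤ K := by
    by_contra hcon
    push Not at hcon
    have h1 : 2 ^ k * (K + 1) ≤ 2 ^ k * (N0 + 1) := Nat.mul_le_mul_left _ (by omega)
    have h2 : M - β < 2 ^ k * (N0 + 1) := lt_of_lt_of_le hK2 h1
    clear_value K
    omega
  have h1 := hcount M K (by
    clear_value K
    have : β ≤ M := by omega
    omega)
  have h2 := hN0 K hKN
  have h3 := Layer_count q hb u k K L
  have h4 : ((∑ n ∈ range K, w n : ℤ) : ℝ) = (((range K).filter (Layer q u k L)).card : ℝ) := by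
    rw [Finset.card_filter]
    simp only [hw]
    push_cast; rfl
  rw [h4] at h1
  rw [← hy] at h3
  have h5 : -(ε * K) ≤ ((∑ n ∈ range K, w n * F n : ℤ) : ℝ) ∧
      ((∑ n ∈ range K, w n * F n : ℤ) : ℝ) ≤ ε * K := abs_le.1 h2
  set Sw : ℝ := (((range K).filter (Layer q u k L)).card : ℝ) with hSw
  set Cc : ℝ := (((range M).filter fun n => ds (v n) % 2 = c).card : ℝ) with hCc
  -- lower bound for the layers
  have h6 : (K : ℝ) * (1 / (1 + y)) - ε * K - 2 * L ≤ Sw := by
    have hpos : 0 < 1 + y := by linarith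
    have h7 : (K : ℝ) * (1 - y ^ (2 * L)) / (1 + y) ≤ Sw + 2 * L := by
      rw [div_le_iff₀ hpos]; exact h3
    have h8 : (K : ℝ) * (1 / (1 + y)) - ε * K ≤ (K : ℝ) * (1 - y ^ (2 * L)) / (1 + y) := by
      have h9 : (K : ℝ) * (1 - y ^ (2 * L)) / (1 + y) =
          (K : ℝ) * (1 / (1 + y)) - K * y ^ (2 * L) / (1 + y) := by field_simp
      rw [h9]
      have h10 : (K : ℝ) * y ^ (2 * L) / (1 + y) ≤ ε * K := by
        have h11 : (K : ℝ) * y ^ (2 * L) / (1 + y) ≤ K * y ^ (2 * L) := by
          apply div_le_self (by positivity); linarith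
        have h12 : (K : ℝ) * y ^ (2 * L) ≤ K * ε := mul_le_mul_of_nonneg_left hL.le (by positivity)
        linarith
      linarith
    linarith
  have hKM : y * M - y * (β + 2 ^ k) ≤ K := by
    have h7 : (M : ℝ) ≤ 2 ^ k * (K + 1) + β := by
      have : M ≤ 2 ^ k * (K + 1) + β := by omega
      exact_mod_cast this
    have h8 : y * M ≤ y * (2 ^ k * (K + 1) + β) := mul_le_mul_of_nonneg_left h7 hy0.le
    have h9 : y * 2 ^ k = 1 := by rw [hy]; field_simp
    have h10 : y * (2 ^ k * (K + 1) + β) = (y * 2 ^ k) * K + y * (β + 2 ^ k) := by ring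
    rw [h10, h9] at h8
    linarith
  have hKM2 : (K : ℝ) ≤ M := by
    have : K ≤ M := (Nat.div_le_self _ _).trans (Nat.sub_le _ _)
    exact_mod_cast this
  have hM2 : (((β : ℝ) + 2 ^ k) * y + 4 * L) ≤ 2 * ε * M := by
    rw [div_lt_iff₀ (by positivity)] at hM1
    have h7 : (M1 : ℝ) ≤ M := by
      have : M1 ≤ M := by omega
      exact_mod_cast this
    have h8 : (M1 : ℝ) * (2 * ε) ≤ M * (2 * ε) := mul_le_mul_of_nonneg_right h7 (by positivity)
    linarith
  have hδM : (δ + 4 * ε) * M ≤ y * (1 / (1 + y)) / 2 * M :=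
    mul_le_mul_of_nonneg_right hε1.le (by positivity)
  have hyy : 1 / (1 + y) ≤ 1 := by
    rw [div_le_one (by linarith)]; linarith
  have hyy0 : 0 ≤ 1 / (1 + y) := by positivity
  -- `2 Cc ≥ Sw - ε K ≥ K / (1 + y) - 2 ε K - 2 L`
  have h7 : (y * M - y * (β + 2 ^ k)) * (1 / (1 + y)) ≤ K * (1 / (1 + y)) :=
    mul_le_mul_of_nonneg_right hKM hyy0
  have h8 : y * (β + 2 ^ k) * (1 / (1 + y)) ≤ y * (β + 2 ^ k) * 1 :=
    mul_le_mul_of_nonneg_left hyy (by positivity)
  have h9 : ε * K ≤ ε * M := mul_le_mul_of_nonneg_left hKM2 hε.le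
  have h10 : (0 : ℝ) ≤ L := by positivity
  have h11 : (0 : ℝ) ≤ y * (β + 2 ^ k) := by positivity
  nlinarith [h1, h5.1, h5.2, h6, h7, h8, h9, hM2, hδM]

end Pool.Agent.H51.TM
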