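import Pool.Agent.H51.TM.Average

/-!
# Two polynomials with a linear difference
-/

namespace Pool.Agent.H51.TM

open Finset Polynomial

/-- A rational polynomial with integer values at the naturals has, on every class modulo a common
denominator, integer coefficients. -/
theorem exists_den_classes (P : ℚ[X]) (hP : ∀ n : ℕ, ∃ m : ℤ, P.eval (n : ℚ) = m) :
    ∃ d : ℕ, 0 < d ∧ ∀ r : ℕ, ∃ y : ℤ[X], y.map (Int.castRingHom ℚ) = P.comp (C (d : ℚ) * X + C (r : ℚ)) := by
  obtain ⟨⟨d, hd⟩, hint⟩ := IsLocalization.exist_integer_multiples_of_finset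
    (M := nonZeroDivisors ℤ) (S := ℚ) (P.support.image P.coeff)
  have hd0 : d ≠ 0 := nonZeroDivisors.ne_zero hd
  have hcoeff : ∀ j, ∃ z : ℤ, (d.natAbs : ℚ) * P.coeff j = z := by
    intro j
    have h1 : ∃ z : ℤ, (d : ℚ) * P.coeff j = z := by
      by_cases hj : j ∈ P.support
      · obtain ⟨z, hz⟩ := hint (P.coeff j) (Finset.mem_image_of_mem _ hj)
        refine ⟨z, ?_⟩
        rw [show (algebraMap ℤ ℚ) z = (z : ℚ) from rfl] at hz
        rw [hz]
        simp
      · rw [notMem_support_iff.1 hj]; exact ⟨0, by simp⟩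
    obtain ⟨z, hz⟩ := h1
    rcases Int.natAbs_eq d with h | h
    · refine ⟨z, ?_⟩
      rw [← hz]
      congr 1
      have : ((d.natAbs : ℤ) : ℚ) = (d : ℚ) := by rw [← h]
      exact (Int.cast_natCast (R := ℚ) d.natAbs).symm.trans this
    · refine ⟨-z, ?_⟩
      have : ((d.natAbs : ℤ) : ℚ) = -(d : ℚ) := by
        have h2 : (d.natAbs : ℤ) = -d := by omega
        rw [h2]; push_cast; ring
      have h3 : (d.natAbs : ℚ) = -(d : ℚ) := (Int.cast_natCast (R := ℚ) d.natAbs).symm.trans this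
      rw [h3]; push_cast; rw [← hz]; ring
  set D := d.natAbs with hD
  have hDpos : 0 < D := Int.natAbs_pos.2 hd0
  -- an integer polynomial
  obtain ⟨G, hG⟩ : ∃ G : ℤ[X], G.map (Int.castRingHom ℚ) = C (D : ℚ) * P := by
    have : C (D : ℚ) * P ∈ lifts (Int.castRingHom ℚ) := by
      rw [lifts_iff_coeff_lifts]
      intro j
      obtain ⟨z, hz⟩ := hcoeff j
      exact ⟨z, by rw [coeff_C_mul, hz]; rfl⟩
    rw [lifts_iff_set_range] at this
    obtain ⟨G, hG⟩ := this
    exact ⟨G, hG⟩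
  refine ⟨D, hDpos, ?_⟩
  intro r
  have hmem : P.comp (C (D : ℚ) * X + C (r : ℚ)) ∈ lifts (Int.castRingHom ℚ) := by
    rw [lifts_iff_coeff_lifts]
    intro j
    have e1 : P.comp (C (D : ℚ) * X + C (r : ℚ)) = (taylor (r : ℚ) P).comp (C (D : ℚ) * X) := by
      rw [taylor_apply, comp_assoc]; congr 1; simp
    rw [e1, comp_C_mul_X_coeff]
    rcases Nat.eq_zero_or_pos j with rfl | hj
    · obtain ⟨m, hm⟩ := hP r
      refine ⟨m, ?_⟩
      rw [taylor_coeff_zero, hm, pow_zero, mul_one]; rfl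
    · obtain ⟨i, rfl⟩ := Nat.exists_eq_add_of_le hj
      refine ⟨(taylor (r : ℤ) G).coeff (1 + i) * (D : ℤ) ^ i, ?_⟩
      have e2 : (taylor (r : ℤ) G).map (Int.castRingHom ℚ) = C (D : ℚ) * taylor (r : ℚ) P := by
        rw [taylor_apply, Polynomial.map_comp, hG, taylor_apply, mul_comp, C_comp]
        simp
      have e3 := congrArg (fun p : ℚ[X] => p.coeff (1 + i)) e2
      simp only [coeff_map, coeff_C_mul] at e3
      rw [map_mul, e3, map_pow]
      simp only [Int.coe_castRingHom, Int.cast_natCast]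
      ring
  rw [lifts_iff_set_range] at hmem
  obtain ⟨y, hy⟩ := hmem
  exact ⟨y, hy⟩

theorem orth_core (P : ℚ[X]) (v1 v2 : ℕ → ℕ) (hP : ∀ n : ℕ, P.eval (n : ℚ) = v1 n)
    (hdeg : 2 ≤ P.natDegree) (T : ℕ) (hT : 0 < T) (β : ℤ)
    (h : ∀ n : ℕ, (v2 n : ℤ) = v1 n + T * n + β) : Small fun n => sg (v1 n) * sg (v2 n) := by
  obtain ⟨d, hd, hcl⟩ := exists_den_classes P (fun n => ⟨v1 n, by rw [hP]; push_cast; rfl⟩)
  have habs : ∀ n, |sg (v1 n) * sg (v2 n)| ≤ 1 := by
    intro n; rw [abs_mul, sg_abs, sg_abs]; norm_num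
  apply Small.of_shift _ habs β.natAbs
  apply Small.of_classes _ (fun n => habs _) d hd
  intro r _
  obtain ⟨y, hy⟩ := hcl (β.natAbs + r)
  have heval : ∀ n : ℕ, y.eval (n : ℤ) = v1 (β.natAbs + (d * n + r)) := by
    intro n
    have h1 : ((y.eval (n : ℤ) : ℤ) : ℚ) = (y.map (Int.castRingHom ℚ)).eval (n : ℚ) := by
      have := eval_intCast_map (Int.castRingHom ℚ) y (n : ℤ)
      simp only [Int.cast_natCast] at this
      rw [this]; rfl
    rw [hy, eval_comp] at h1
    simp only [eval_add, eval_mul, eval_C, eval_X] at h1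
    have h2 := hP (β.natAbs + (d * n + r))
    have h3 : (((β.natAbs + (d * n + r) : ℕ)) : ℚ) = (d : ℚ) * n + ((β.natAbs + r : ℕ) : ℚ) := by
      push_cast; ring
    rw [h3] at h2
    rw [h2] at h1
    exact_mod_cast h1
  have hnonneg : ∀ n : ℕ, 0 ≤ y.eval (n : ℤ) := by
    intro n; rw [heval]; positivity
  have hydeg : y.natDegree = P.natDegree := by
    have h1 : (y.map (Int.castRingHom ℚ)).natDegree = y.natDegree :=
      natDegree_map_eq_of_injective (Int.castRingHom ℚ).injective_int y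
    rw [hy] at h1
    rw [← h1, natDegree_comp]
    have h2 : (C (d : ℚ) * X + C ((β.natAbs + r : ℕ) : ℚ) : ℚ[X]).natDegree = 1 := by
      apply natDegree_linear
      exact_mod_cast hd.ne'
    rw [h2, mul_one]
  have hy2 : derivative (derivative y) ≠ 0 := by
    intro h0
    have h1 := derivative_eq_zero.1 h0
    have h2 : (derivative y).natDegree = y.natDegree - 1 := natDegree_derivative y
    omega
  obtain ⟨D0, hD0⟩ : ∃ D0 : ℕ, (D0 : ℤ) = T * (β.natAbs + r : ℕ) + β := by
    refine ⟨(T * (β.natAbs + r : ℕ) + β : ℤ).toNat, ?_⟩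
    apply Int.toNat_of_nonneg
    have h1 : -(β.natAbs : ℤ) ≤ β := by
      have := neg_abs_le β
      rwa [Int.abs_eq_natAbs] at this
    have h2 : (β.natAbs : ℤ) ≤ T * (β.natAbs + r : ℕ) := by
      have h3 : β.natAbs ≤ T * (β.natAbs + r) := by nlinarith [Nat.zero_le r, Nat.zero_le β.natAbs]
      exact_mod_cast h3
    linarith
  have hav := average y hnonneg hy2 (T * d) D0 (Nat.mul_pos hT hd)
  have hF : (fun n => sg (v1 (β.natAbs + (d * n + r))) * sg (v2 (β.natAbs + (d * n + r)))) =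
      F y (T * d) D0 := by
    funext n
    unfold F
    have h1 : y.eval (n : ℤ) + (((T * d : ℕ) : ℤ) * n + D0) = (v2 (β.natAbs + (d * n + r)) : ℤ) := by
      rw [h, heval, hD0]; push_cast; ring
    rw [h1, heval]
    unfold sgz
    rw [Int.toNat_natCast, Int.toNat_natCast, mul_comm]
  show Small (fun n => sg (v1 (β.natAbs + (d * n + r))) * sg (v2 (β.natAbs + (d * n + r))))
  rw [hF]
  exact hav

/-- Two polynomials whose difference is linear and not constant. -/
theorem orth (P1 P2 : ℚ[X]) (v1 v2 : ℕ → ℕ) (hP1 : ∀ n : ℕ, P1.eval (n : ℚ) = v1 n)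
    (hP2 : ∀ n : ℕ, P2.eval (n : ℚ) = v2 n) (hdeg : 2 ≤ P1.natDegree)
    (hdiff : (P1 - P2).natDegree = 1) : Small fun n => sg (v1 n) * sg (v2 n) := by
  obtain ⟨a, ha0, b, hab⟩ := natDegree_eq_one.1 hdiff
  have hev : ∀ n : ℕ, (v1 n : ℚ) - v2 n = a * n + b := by
    intro n
    have := congrArg (fun p : ℚ[X] => p.eval (n : ℚ)) hab
    simp only [eval_add, eval_mul, eval_C, eval_X, eval_sub, hP1, hP2] at this
    exact this.symm
  -- the coefficients are integers
  have h0 := hev 0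
  have h1 := hev 1
  set T : ℤ := ((v1 1 : ℤ) - v2 1) - ((v1 0 : ℤ) - v2 0) with hT
  set β : ℤ := (v1 0 : ℤ) - v2 0 with hβ
  have hβb : (β : ℚ) = b := by
    rw [hβ]; push_cast; push_cast at h0; linarith
  have hTa : (T : ℚ) = a := by
    rw [hT]; push_cast; rw [hβb]; push_cast at h1; linarith
  have hrel : ∀ n : ℕ, (v1 n : ℤ) = v2 n + T * n + β := by
    intro n
    have := hev n
    rw [← hTa, ← hβb] at this
    have h2 : (v1 n : ℚ) = v2 n + T * n + β := by linarith
    exact_mod_cast h2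
  have hT0 : T ≠ 0 := by
    intro h; apply ha0; rw [← hTa, h]; simp
  have hdeg2 : 2 ≤ P2.natDegree := by
    have e : P2 = P1 - (P1 - P2) := by ring
    have h3 : (P1 - (P1 - P2)).natDegree = P1.natDegree := by
      apply natDegree_sub_eq_left_of_natDegree_lt
      rw [hdiff]; omega
    rw [← e] at h3
    omega
  rcases lt_or_gt_of_ne hT0 with hneg | hpos
  · -- `v2 = v1 + (-T) n - β`
    obtain ⟨S, hS⟩ := Int.eq_ofNat_of_zero_le (show 0 ≤ -T by omega)
    refine orth_core P1 v1 v2 hP1 hdeg S (by omega) (-β) ?_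
    intro n
    have := hrel n
    have h2 : T = -(S : ℤ) := by omega
    rw [h2] at this
    linarith
  · obtain ⟨S, hS⟩ := Int.eq_ofNat_of_zero_le hpos.le
    have := orth_core P2 v2 v1 hP2 hdeg2 S (by omega) β (by
      intro n; rw [← hS]; exact hrel n)
    simpa only [mul_comm] using this

end Pool.Agent.H51.TM
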