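import Pool.Agent.H51.TM.Inner

/-!
# Integer polynomials modulo powers of two
-/

namespace Pool.Agent.H51.TM

open Finset Polynomial

theorem exists_two_pow_odd (m : ℤ) (hm : m ≠ 0) : ∃ (e : ℕ) (o : ℤ), Odd o ∧ m = 2 ^ e * o := by
  obtain ⟨e, o, ho, h⟩ := Nat.exists_eq_two_pow_mul_odd (n := m.natAbs) (Int.natAbs_ne_zero.2 hm)
  rcases Int.natAbs_eq m with h1 | h1
  · refine ⟨e, o, by exact_mod_cast ho, ?_⟩
    rw [h1, h]; push_cast; ring
  · refine ⟨e, -o, (show Odd (o : ℤ) by exact_mod_cast ho).neg, ?_⟩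
    rw [h1, h]; push_cast; ring

/-- roots modulo a high power of two are sparse -/
theorem sparse_roots (b e : ℕ) (c : ℤ) (hc0 : c ≠ 0) (hc : |c| < 2 ^ e) : ∀ (D : ℕ) (G : ℤ[X])
    (_ : G.natDegree = D) (_ : G.leadingCoeff = c) (ℓ : ℕ) (_ : b * D + e ≤ ℓ) (S : Finset ℤ)
    (_ : ∀ n ∈ S, ∀ n' ∈ S, |n - n'| < 2 ^ b) (_ : ∀ n ∈ S, (2 ^ ℓ : ℤ) ∣ G.eval n), S.card ≤ D := by
  intro D
  induction D with
  | zero =>
    intro G hG hlead ℓ hℓ S _ hS
    rw [Nat.le_zero, Finset.card_eq_zero]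
    by_contra hne
    obtain ⟨n, hn⟩ := Finset.nonempty_iff_ne_empty.2 hne
    have h1 := hS n hn
    rw [Polynomial.eq_C_of_natDegree_eq_zero hG] at h1 hlead
    rw [eval_C] at h1
    rw [leadingCoeff_C] at hlead
    rw [hlead] at h1
    have h2 : (2 : ℤ) ^ ℓ ≤ |c| := by
      have := Int.le_of_dvd (abs_pos.2 hc0) ((dvd_abs _ _).2 h1)
      exact this
    have h3 : (2 : ℤ) ^ e ≤ 2 ^ ℓ := pow_le_pow_right₀ (by norm_num) (by omega)
    linarith
  | succ D ih =>
    intro G hG hlead ℓ hℓ S hdiff hS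
    rcases S.eq_empty_or_nonempty with rfl | ⟨a, ha⟩
    · simp
    obtain ⟨H, hH⟩ := Polynomial.X_sub_C_dvd_sub_C_eval (p := G) (a := a)
    have hdeg : (G - C (G.eval a)).natDegree = D + 1 := by rw [natDegree_sub_C, hG]
    have hne : G - C (G.eval a) ≠ 0 := by
      intro h0; rw [h0, natDegree_zero] at hdeg; omega
    have hH0 : H ≠ 0 := by
      rintro rfl; rw [mul_zero] at hH; exact hne hH
    have hX : (X - C a : ℤ[X]) ≠ 0 := X_sub_C_ne_zero a
    have hHdeg : H.natDegree = D := by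
      have := natDegree_mul hX hH0
      rw [← hH, hdeg, natDegree_X_sub_C] at this
      omega
    have hHlead : H.leadingCoeff = c := by
      have h1 := leadingCoeff_mul (X - C a : ℤ[X]) H
      rw [← hH, leadingCoeff_X_sub_C, one_mul] at h1
      rw [← h1, leadingCoeff, hdeg, coeff_sub, coeff_C_succ, sub_zero, ← hlead, leadingCoeff, hG]
    have hIH := ih H hHdeg hHlead (ℓ - b) (by
      have : b * (D + 1) = b * D + b := by ring
      omega) (S.erase a) (by
        intro n hn n' hn'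
        exact hdiff n (Finset.mem_of_mem_erase hn) n' (Finset.mem_of_mem_erase hn')) (by
        intro n hn
        have hnS := Finset.mem_of_mem_erase hn
        have hna : n - a ≠ 0 := sub_ne_zero.2 (Finset.ne_of_mem_erase hn)
        have h1 : (2 ^ ℓ : ℤ) ∣ (n - a) * H.eval n := by
          have h2 : G.eval n - G.eval a = (n - a) * H.eval n := by
            have := congrArg (fun p : ℤ[X] => p.eval n) hH
            simpa using this
          rw [← h2]
          exact dvd_sub (hS n hnS) (hS a ha)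
        obtain ⟨i, ρ, hρ, hi⟩ := exists_two_pow_odd (n - a) hna
        have hib : i < b := by
          by_contra hcon
          push Not at hcon
          have h3 : (2 : ℤ) ^ b ∣ n - a := by
            rw [hi]; exact Dvd.dvd.mul_right (pow_dvd_pow _ hcon) _
          exact hna (Int.eq_zero_of_abs_lt_dvd h3 (hdiff n hnS a ha))
        have hbℓ : b ≤ ℓ := by
          have : b * (D + 1) = b * D + b := by ring
          omega
        have h4 : (2 : ℤ) ^ i * 2 ^ (ℓ - b) ∣ 2 ^ i * (ρ * H.eval n) := by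
          have h5 : (2 : ℤ) ^ i * 2 ^ (ℓ - b) ∣ 2 ^ ℓ := by
            rw [← pow_add]; exact pow_dvd_pow _ (by omega)
          have h6 : (2 : ℤ) ^ i * (ρ * H.eval n) = (n - a) * H.eval n := by rw [hi]; ring
          rw [h6]; exact h5.trans h1
        have h7 := (mul_dvd_mul_iff_left (show (2 : ℤ) ^ i ≠ 0 by positivity)).1 h4
        exact (IsCoprime.pow_left (Int.isCoprime_two_left.2 hρ)).dvd_of_dvd_mul_left h7)
    rw [Finset.card_erase_of_mem ha] at hIH
    omega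

/-- roots modulo a high power of two have small density -/
theorem few_roots (G : ℤ[X]) (hG : G ≠ 0) (ε : ℝ) (hε : 0 < ε) :
    ∃ ℓ s0 : ℕ, ∀ s ≥ s0, ∀ n0 : ℕ,
      (((range (2 ^ s)).filter fun n : ℕ => (2 ^ ℓ : ℤ) ∣ G.eval ((n0 + n : ℕ) : ℤ)).card : ℝ) ≤
        ε * 2 ^ s := by
  set D := G.natDegree with hD
  obtain ⟨b, hb⟩ : ∃ b : ℕ, (D : ℝ) ≤ ε * 2 ^ b := by
    obtain ⟨b, hb⟩ := pow_unbounded_of_one_lt ((D : ℝ) / ε) (show (1 : ℝ) < 2 by norm_num)
    refine ⟨b, ?_⟩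
    rw [div_lt_iff₀ hε] at hb
    linarith
  obtain ⟨e, he⟩ : ∃ e : ℕ, |G.leadingCoeff| < 2 ^ e := by
    refine ⟨G.leadingCoeff.natAbs, ?_⟩
    rw [Int.abs_eq_natAbs]
    have : G.leadingCoeff.natAbs < 2 ^ G.leadingCoeff.natAbs := Nat.lt_two_pow_self
    exact_mod_cast this
  refine ⟨b * D + e, b, ?_⟩
  intro s hs n0
  obtain ⟨s', rfl⟩ := Nat.exists_eq_add_of_le hs
  have h1 : ((range (2 ^ (b + s'))).filter fun n : ℕ =>
      (2 ^ (b * D + e) : ℤ) ∣ G.eval ((n0 + n : ℕ) : ℤ)).card ≤ D * 2 ^ s' := by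
    rw [Finset.card_filter, pow_add, sum_split]
    have h2 : ∀ u ∈ range (2 ^ s'), ∑ r ∈ range (2 ^ b),
        (if (2 ^ (b * D + e) : ℤ) ∣ G.eval ((n0 + (2 ^ b * u + r) : ℕ) : ℤ) then 1 else 0) ≤ D := by
      intro u _
      rw [← Finset.card_filter]
      set F := (range (2 ^ b)).filter fun r : ℕ =>
        (2 ^ (b * D + e) : ℤ) ∣ G.eval ((n0 + (2 ^ b * u + r) : ℕ) : ℤ) with hF
      have hinj : Set.InjOn (fun r : ℕ => ((n0 + (2 ^ b * u + r) : ℕ) : ℤ)) (F : Set ℕ) := by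
        intro r _ r' _ h
        have h' : ((n0 + (2 ^ b * u + r) : ℕ) : ℤ) = ((n0 + (2 ^ b * u + r') : ℕ) : ℤ) := h
        have h3 : n0 + (2 ^ b * u + r) = n0 + (2 ^ b * u + r') := by exact_mod_cast h'
        omega
      rw [← Finset.card_image_of_injOn hinj]
      apply sparse_roots b e G.leadingCoeff (leadingCoeff_ne_zero.2 hG) he D G rfl rfl
        (b * D + e) le_rfl
      · intro n hn n' hn'
        rw [mem_image] at hn hn'
        obtain ⟨r, hr, rfl⟩ := hn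
        obtain ⟨r', hr', rfl⟩ := hn'
        rw [hF, mem_filter, mem_range] at hr hr'
        have h3 : (r : ℤ) < 2 ^ b := by exact_mod_cast hr.1
        have h4 : (r' : ℤ) < 2 ^ b := by exact_mod_cast hr'.1
        push_cast
        rw [abs_lt]
        constructor <;> linarith
      · intro n hn
        rw [mem_image] at hn
        obtain ⟨r, hr, rfl⟩ := hn
        rw [hF, mem_filter] at hr
        exact hr.2
    refine (Finset.sum_le_sum h2).trans ?_
    rw [Finset.sum_const, Finset.card_range, smul_eq_mul, mul_comm]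
  have h2 : (((range (2 ^ (b + s'))).filter fun n : ℕ =>
      (2 ^ (b * D + e) : ℤ) ∣ G.eval ((n0 + n : ℕ) : ℤ)).card : ℝ) ≤ D * 2 ^ s' := by
    exact_mod_cast h1
  refine h2.trans ?_
  rw [pow_add, ← mul_assoc]
  exact mul_le_mul_of_nonneg_right hb (by positivity)

/-- first order expansion -/
theorem eval_add_int (g : ℤ[X]) (a h : ℤ) :
    ∃ s : ℤ, g.eval (a + h) = g.eval a + g.derivative.eval a * h + s * h ^ 2 :=
  ⟨(g.binomExpansion a h).1, (g.binomExpansion a h).2⟩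

/-- two points of one class with the same value -/
theorem same_value (g : ℤ[X]) (K ℓ : ℕ) (a a' : ℤ) (hcl : (2 ^ (ℓ + 1) : ℤ) ∣ a' - a)
    (hd : ¬ (2 ^ (ℓ + 1) : ℤ) ∣ g.derivative.eval a) (hv : (2 ^ K : ℤ) ∣ g.eval a' - g.eval a) :
    (2 ^ (K - ℓ) : ℤ) ∣ a' - a := by
  by_cases h0 : a' - a = 0
  · rw [h0]; exact dvd_zero _
  have hd0 : g.derivative.eval a ≠ 0 := by
    intro h; rw [h] at hd; exact hd (dvd_zero _)
  obtain ⟨i, ρ, hρ, hi⟩ := exists_two_pow_odd (a' - a) h0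
  obtain ⟨j, σ, hσ, hj⟩ := exists_two_pow_odd (g.derivative.eval a) hd0
  have hi1 : ℓ + 1 ≤ i := by
    by_contra hcon
    push Not at hcon
    obtain ⟨q, hq⟩ := hcl
    have h1 : (2 : ℤ) ^ i * ρ = 2 ^ i * (2 ^ (ℓ + 1 - i) * q) := by
      rw [← hi, hq, ← mul_assoc, ← pow_add]; congr 2; omega
    have h2 := mul_left_cancel₀ (show (2 : ℤ) ^ i ≠ 0 by positivity) h1
    rw [h2] at hρ
    have h3 : Even ((2 : ℤ) ^ (ℓ + 1 - i) * q) :=
      (Even.pow_of_ne_zero even_two (by omega)).mul_right q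
    exact (Int.not_even_iff_odd.2 hρ) h3
  have hj1 : j ≤ ℓ := by
    by_contra hcon
    push Not at hcon
    apply hd
    rw [hj]; exact Dvd.dvd.mul_right (pow_dvd_pow _ hcon) _
  obtain ⟨s, hs⟩ := eval_add_int g a (a' - a)
  have e1 : a + (a' - a) = a' := by ring
  rw [e1] at hs
  obtain ⟨d, hd'⟩ : ∃ d, i = j + (d + 1) := ⟨i - j - 1, by omega⟩
  have e2 : g.eval a' - g.eval a = 2 ^ (i + j) * (σ * ρ + 2 * (2 ^ d * ρ ^ 2 * s)) := by
    rw [hs, hj, hi]
    have h7 : (2 : ℤ) ^ i * 2 ^ i = 2 ^ (i + j) * (2 * 2 ^ d) := by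
      rw [← pow_succ', ← pow_add, ← pow_add]; congr 1; omega
    have h8 : (2 : ℤ) ^ (i + j) = 2 ^ i * 2 ^ j := pow_add _ _ _
    linear_combination (s * ρ ^ 2) * h7 - (σ * ρ) * h8
  rw [e2] at hv
  have hodd : Odd (σ * ρ + 2 * (2 ^ d * ρ ^ 2 * s)) := (hσ.mul hρ).add_even (even_two_mul _)
  have h3 : (2 : ℤ) ^ K ∣ 2 ^ (i + j) :=
    (IsCoprime.pow_left (Int.isCoprime_two_left.2 hodd)).dvd_of_dvd_mul_right hv
  have h4 : K ≤ i + j := by
    by_contra hcon
    push Not at hcon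
    have h5 := Int.le_of_dvd (by positivity) h3
    have h6 : (2 : ℤ) ^ (i + j) < 2 ^ K := pow_lt_pow_right₀ (by norm_num) hcon
    linarith
  rw [hi]
  exact Dvd.dvd.mul_right (pow_dvd_pow _ (by omega)) _

open Classical in
/-- the values of a polynomial at points with controlled derivative have bounded multiplicity -/
theorem multiplicity (g : ℤ[X]) (K ℓ : ℕ) (hℓ : ℓ ≤ K) (n0 : ℤ) (Φ : ℤ → ℤ) (hΦ0 : ∀ t, 0 ≤ Φ t)
    (hΦ : ∀ t k : ℤ, Φ (t + 2 ^ K * k) = Φ t) :
    ∑ n ∈ (range (2 ^ K)).filter (fun n : ℕ => ¬ (2 ^ (ℓ + 1) : ℤ) ∣ g.derivative.eval (n0 + n)),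
      Φ (g.eval (n0 + n)) ≤ 2 ^ (2 * ℓ + 1) * ∑ t ∈ range (2 ^ K), Φ t := by
  have hK : (0 : ℤ) < 2 ^ K := by positivity
  set S := (range (2 ^ K)).filter
    (fun n : ℕ => ¬ (2 ^ (ℓ + 1) : ℤ) ∣ g.derivative.eval (n0 + n)) with hS
  set τ : ℕ → ℕ := fun n => (g.eval (n0 + n) % 2 ^ K).toNat with hτ
  have hτ1 : ∀ n, ((τ n : ℕ) : ℤ) = g.eval (n0 + n) % 2 ^ K := fun n =>
    Int.toNat_of_nonneg (Int.emod_nonneg _ hK.ne')
  have hmaps : ∀ n ∈ S, τ n ∈ range (2 ^ K) := by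
    intro n _
    rw [mem_range]
    have := Int.emod_lt_of_pos (g.eval (n0 + n)) hK
    rw [← hτ1] at this
    exact_mod_cast this
  have hval : ∀ n : ℕ, Φ (g.eval (n0 + n)) = Φ ((τ n : ℕ) : ℤ) := by
    intro n
    rw [hτ1]
    have := Int.emod_add_mul_ediv (g.eval (n0 + n)) (2 ^ K)
    conv_lhs => rw [← this]
    rw [hΦ]
  rw [Finset.sum_congr rfl fun n _ => hval n, ← Finset.sum_fiberwise_of_maps_to hmaps, Finset.mul_sum]
  apply Finset.sum_le_sum
  intro v _
  have h1 : ∑ n ∈ S.filter (fun n => τ n = v), Φ ((τ n : ℕ) : ℤ) =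
      ∑ n ∈ S.filter (fun n => τ n = v), Φ (v : ℤ) := by
    apply Finset.sum_congr rfl
    intro n hn
    rw [mem_filter] at hn
    rw [hn.2]
  rw [h1, Finset.sum_const, nsmul_eq_mul]
  apply mul_le_mul_of_nonneg_right _ (hΦ0 _)
  -- the fibre
  have hcard : (S.filter (fun n => τ n = v)).card ≤ (range (2 ^ (ℓ + 1)) ×ˢ range (2 ^ ℓ)).card := by
    apply Finset.card_le_card_of_injOn (fun n => (n % 2 ^ (ℓ + 1), n / 2 ^ (K - ℓ)))
    · intro n hn
      simp only [Finset.coe_filter, hS, mem_filter, mem_range, Set.mem_ofPred_eq] at hn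
      simp only [Finset.coe_product, Finset.coe_range, Set.mem_prod, Set.mem_Iio]
      refine ⟨Nat.mod_lt _ (by positivity), ?_⟩
      rw [Nat.div_lt_iff_lt_mul (by positivity), ← pow_add]
      have : ℓ + (K - ℓ) = K := by omega
      rw [this]; exact hn.1.1
    · intro n hn n' hn' h
      simp only [Finset.coe_filter, hS, mem_filter, mem_range, Set.mem_ofPred_eq] at hn hn'
      simp only [Prod.mk.injEq] at h
      have hcl : (2 ^ (ℓ + 1) : ℤ) ∣ (n0 + n') - (n0 + n) := by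
        have h2 : (n : ℤ) ≡ n' [ZMOD 2 ^ (ℓ + 1)] := by
          have := h.1
          have h3 : n ≡ n' [MOD 2 ^ (ℓ + 1)] := this
          exact_mod_cast (Int.natCast_modEq_iff.2 h3)
        have h4 := h2.dvd
        have : (n0 + n') - (n0 + n) = (n' : ℤ) - n := by ring
        rw [this]; exact h4
      have hv : (2 ^ K : ℤ) ∣ g.eval (n0 + n') - g.eval (n0 + n) := by
        have h5 : g.eval (n0 + n) % 2 ^ K = g.eval (n0 + n') % 2 ^ K := by
          rw [← hτ1, ← hτ1, hn.2, hn'.2]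
        exact Int.ModEq.dvd h5
      have h6 := same_value g K ℓ _ _ hcl hn.1.2 hv
      have h7 : (n0 + n') - (n0 + n) = (n' : ℤ) - n := by ring
      rw [h7] at h6
      have h8 : n % 2 ^ (K - ℓ) = n' % 2 ^ (K - ℓ) := by
        have : (n : ℤ) ≡ n' [ZMOD ((2 ^ (K - ℓ) : ℕ) : ℤ)] := by
          rw [Int.modEq_iff_dvd]; push_cast; exact h6
        exact Int.natCast_modEq_iff.1 this
      have h9 := Nat.div_add_mod n (2 ^ (K - ℓ))
      have h10 := Nat.div_add_mod n' (2 ^ (K - ℓ))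
      rw [h.2, h8] at h9
      omega
  rw [Finset.card_product, Finset.card_range, Finset.card_range] at hcard
  have : 2 ^ (ℓ + 1) * 2 ^ ℓ = 2 ^ (2 * ℓ + 1) := by rw [← pow_add]; congr 1; ring
  rw [this] at hcard
  exact_mod_cast hcard

end Pool.Agent.H51.TM
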