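import Pool.Agent.H51.TM.Square

/-!
# Rotations: most multipliers spread the points `y0 + θ m`
-/

namespace Pool.Agent.H51.TM

open Finset

/-- `θ` is good modulo `2 ^ K` with gap `R` and arc length `L`: no small multiple of `θ` is close to
a multiple of `2 ^ K` -/
def Good (K R : ℕ) (L θ : ℤ) : Prop := ∀ r : ℕ, 0 < r → r < R → ∀ q : ℤ, L ≤ |r * θ - 2 ^ K * q|

theorem Good_congr (K R : ℕ) (L θ k : ℤ) : Good K R L (θ + 2 ^ K * k) ↔ Good K R L θ := by
  constructor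
  · intro h r h0 h1 q
    have := h r h0 h1 (q + r * k)
    have e : (r : ℤ) * (θ + 2 ^ K * k) - 2 ^ K * (q + r * k) = r * θ - 2 ^ K * q := by ring
    rwa [e] at this
  · intro h r h0 h1 q
    have := h r h0 h1 (q - r * k)
    have e : (r : ℤ) * (θ + 2 ^ K * k) - 2 ^ K * q = r * θ - 2 ^ K * (q - r * k) := by ring
    rwa [e]

open Classical in
theorem count_arc (K κ : ℕ) (hκ : κ ≤ K) :
    ∑ u ∈ range (2 ^ K), (if ∃ q : ℤ, |(u : ℤ) - 2 ^ K * q| < 2 ^ κ then 1 else 0) ≤ 2 * 2 ^ κ := by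
  rw [← Finset.card_filter]
  have hsub : (range (2 ^ K)).filter (fun u : ℕ => ∃ q : ℤ, |(u : ℤ) - 2 ^ K * q| < 2 ^ κ) ⊆
      range (2 ^ κ) ∪ (range (2 ^ κ)).image (fun i => 2 ^ K - 1 - i) := by
    intro u hu
    simp only [mem_filter, mem_range, mem_union, mem_image] at hu ⊢
    obtain ⟨hu1, q, hq⟩ := hu
    have hp : (2 : ℤ) ^ κ ≤ 2 ^ K := pow_le_pow_right₀ (by norm_num) hκ
    have hu1' : (u : ℤ) < 2 ^ K := by exact_mod_cast hu1
    have hk0 : (0 : ℤ) < 2 ^ K := by positivity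
    rw [abs_lt] at hq
    rcases lt_trichotomy q 0 with h | h | h
    · have : (2 : ℤ) ^ K * q ≤ 2 ^ K * (-1) := mul_le_mul_of_nonneg_left (by omega) hk0.le
      exfalso; linarith [hq.2]
    · subst h
      left
      have : (u : ℤ) < 2 ^ κ := by linarith [hq.2]
      exact_mod_cast this
    · rcases (by omega : q = 1 ∨ 2 ≤ q) with h2 | h2
      · subst h2
        right
        refine ⟨2 ^ K - 1 - u, ?_, by omega⟩
        have h3 : (2 : ℤ) ^ K - u < 2 ^ κ + 1 := by linarith [hq.1]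
        have h4 : ((2 ^ K - 1 - u : ℕ) : ℤ) = 2 ^ K - 1 - u := by
          have : u ≤ 2 ^ K - 1 := by omega
          have h5 : 1 ≤ 2 ^ K := Nat.one_le_two_pow
          push_cast [Nat.cast_sub this, Nat.cast_sub h5]; ring
        have h5 : ((2 ^ K - 1 - u : ℕ) : ℤ) < 2 ^ κ := by rw [h4]; linarith [hq.1]
        exact_mod_cast h5
      · have : (2 : ℤ) ^ K * 2 ≤ 2 ^ K * q := mul_le_mul_of_nonneg_left h2 hk0.le
        exfalso; linarith [hq.1]
  refine (Finset.card_le_card hsub).trans ((Finset.card_union_le _ _).trans ?_)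
  have := Finset.card_image_le (s := range (2 ^ κ)) (f := fun i => 2 ^ K - 1 - i)
  rw [Finset.card_range] at *
  omega

open Classical in
theorem count_mul (K κ r : ℕ) (hκ : κ ≤ K) (hr0 : 0 < r) (hr : r < 2 ^ κ) :
    ∑ θ ∈ range (2 ^ K), (if ∃ q : ℤ, |(r : ℤ) * θ - 2 ^ K * q| < 2 ^ κ then 1 else 0) ≤
      2 * 2 ^ κ := by
  obtain ⟨i, r', hr', hrr⟩ := Nat.exists_eq_two_pow_mul_odd (n := r) hr0.ne'
  have hi : i < κ := by
    have h1 : 2 ^ i ≤ r := by
      rw [hrr]; exact Nat.le_mul_of_pos_right _ hr'.pos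
    exact (Nat.pow_lt_pow_iff_right (by norm_num : 1 < 2)).1 (lt_of_le_of_lt h1 hr)
  obtain ⟨κ', hκ'⟩ : ∃ κ', κ = i + κ' := ⟨κ - i, by omega⟩
  obtain ⟨K', hK'⟩ : ∃ K', K = i + K' := ⟨K - i, by omega⟩
  have hiff : ∀ θ : ℤ, (∃ q : ℤ, |(r : ℤ) * θ - 2 ^ K * q| < 2 ^ κ) ↔
      (∃ q : ℤ, |(r' : ℤ) * θ - 2 ^ K' * q| < 2 ^ κ') := by
    intro θ
    have : ∀ q : ℤ, |(r : ℤ) * θ - 2 ^ K * q| < 2 ^ κ ↔ |(r' : ℤ) * θ - 2 ^ K' * q| < 2 ^ κ' := by
      intro q
      have e : (r : ℤ) * θ - 2 ^ K * q = 2 ^ i * ((r' : ℤ) * θ - 2 ^ K' * q) := by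
        rw [hrr, hK', pow_add]; push_cast; ring
      rw [e, abs_mul, hκ', pow_add, abs_of_pos (show (0 : ℤ) < 2 ^ i by positivity)]
      exact mul_lt_mul_iff_right₀ (by positivity)
    exact exists_congr this
  have h1 : ∀ θ ∈ range (2 ^ K), (if ∃ q : ℤ, |(r : ℤ) * θ - 2 ^ K * q| < 2 ^ κ then 1 else 0) =
      (if ∃ q : ℤ, |(r' : ℤ) * θ - 2 ^ K' * q| < 2 ^ κ' then 1 else 0) := by
    intro θ _
    simp only [hiff]
  rw [Finset.sum_congr rfl h1, hK', pow_add, mul_comm (2 ^ i) (2 ^ K'), sum_split]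
  -- the predicate
  set f : ℤ → ℕ := fun u => if ∃ q : ℤ, |u - 2 ^ K' * q| < 2 ^ κ' then 1 else 0 with hf
  have hper : ∀ t k : ℤ, f (t + ((2 ^ K' : ℕ) : ℤ) * k) = f t := by
    intro t k
    have : (∃ q : ℤ, |t + ((2 ^ K' : ℕ) : ℤ) * k - 2 ^ K' * q| < 2 ^ κ') ↔
        (∃ q : ℤ, |t - 2 ^ K' * q| < 2 ^ κ') := by
      constructor
      · rintro ⟨q, hq⟩
        refine ⟨q - k, ?_⟩
        have e : t - 2 ^ K' * (q - k) = t + ((2 ^ K' : ℕ) : ℤ) * k - 2 ^ K' * q := by push_cast; ring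
        rwa [e]
      · rintro ⟨q, hq⟩
        refine ⟨q + k, ?_⟩
        have e : t + ((2 ^ K' : ℕ) : ℤ) * k - 2 ^ K' * (q + k) = t - 2 ^ K' * q := by push_cast; ring
        rwa [e]
    simp only [hf, this]
  have h2 : ∀ u ∈ range (2 ^ i), ∑ x ∈ range (2 ^ K'),
      (if ∃ q : ℤ, |(r' : ℤ) * ((2 ^ K' * u + x : ℕ) : ℤ) - 2 ^ K' * q| < 2 ^ κ' then 1 else 0) ≤
      2 * 2 ^ κ' := by
    intro u _
    have h3 := sum_complete (2 ^ K') f hper (fun x => (r' : ℤ) * ((2 ^ K' * u + x : ℕ) : ℤ)) (by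
      intro a ha b hb hab
      have h4 : ((2 : ℤ) ^ K') ∣ r' * ((a : ℤ) - b) := by
        have : (r' : ℤ) * ((a : ℤ) - b) = (r' : ℤ) * ((2 ^ K' * u + a : ℕ) : ℤ) -
          (r' : ℤ) * ((2 ^ K' * u + b : ℕ) : ℤ) := by push_cast; ring
        rw [this]; exact_mod_cast hab
      have h5 : IsCoprime ((2 : ℤ) ^ K') r' :=
        IsCoprime.pow_left (Int.isCoprime_two_left.2 (by exact_mod_cast hr'))
      have h6 := h5.dvd_of_dvd_mul_left h4
      have h7 := Int.eq_zero_of_abs_lt_dvd h6 (by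
        have ha' : (a : ℤ) < 2 ^ K' := by exact_mod_cast ha
        have hb' : (b : ℤ) < 2 ^ K' := by exact_mod_cast hb
        rw [abs_lt]; constructor <;> omega)
      omega)
    have h8 := count_arc K' κ' (by omega)
    calc _ = ∑ x ∈ range (2 ^ K'), f ((r' : ℤ) * ((2 ^ K' * u + x : ℕ) : ℤ)) := rfl
      _ = ∑ x ∈ range (2 ^ K'), f x := h3
      _ ≤ 2 * 2 ^ κ' := h8
  refine (Finset.sum_le_sum h2).trans ?_
  rw [Finset.sum_const, Finset.card_range, smul_eq_mul, hκ', pow_add]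
  apply le_of_eq; ring

open Classical in
/-- few multipliers are not good -/
theorem count_not_good (K κ a w : ℕ) (hK : K = κ + w) (ha : a ≤ w) (hw : w ≤ κ) :
    ((range (2 ^ K)).filter fun θ : ℕ => ¬ Good K (2 ^ (w - a)) (2 ^ κ) θ).card * 2 ^ a ≤
      2 * 2 ^ K := by
  have hsub : (range (2 ^ K)).filter (fun θ : ℕ => ¬ Good K (2 ^ (w - a)) (2 ^ κ) θ) ⊆
      (Ico 1 (2 ^ (w - a)) : Finset ℕ).biUnion fun r : ℕ => (range (2 ^ K)).filter
        (fun θ : ℕ => ∃ q : ℤ, |(r : ℤ) * θ - 2 ^ K * q| < 2 ^ κ) := by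
    intro θ hθ
    simp only [mem_filter, mem_biUnion, mem_Ico] at hθ ⊢
    obtain ⟨h1, h2⟩ := hθ
    unfold Good at h2
    push Not at h2
    obtain ⟨r, hr0, hr1, q, hq⟩ := h2
    exact ⟨r, ⟨hr0, hr1⟩, h1, q, hq⟩
  have h1 : ((range (2 ^ K)).filter fun θ : ℕ => ¬ Good K (2 ^ (w - a)) (2 ^ κ) θ).card ≤
      ∑ r ∈ (Ico 1 (2 ^ (w - a)) : Finset ℕ), 2 * 2 ^ κ := by
    refine (Finset.card_le_card hsub).trans (Finset.card_biUnion_le.trans ?_)
    apply Finset.sum_le_sum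
    intro r hr
    rw [mem_Ico] at hr
    have h2 := count_mul K κ r (by omega) (by omega)
      (lt_of_lt_of_le hr.2 (Nat.pow_le_pow_right (by norm_num) (by omega)))
    rw [← Finset.card_filter] at h2
    exact h2
  rw [Finset.sum_const, Nat.card_Ico, smul_eq_mul] at h1
  have h2 : (2 ^ (w - a) - 1) * (2 * 2 ^ κ) * 2 ^ a ≤ 2 * 2 ^ K := by
    have h3 : (2 ^ (w - a) - 1) * (2 * 2 ^ κ) * 2 ^ a ≤ 2 ^ (w - a) * (2 * 2 ^ κ) * 2 ^ a :=
      Nat.mul_le_mul_right _ (Nat.mul_le_mul_right _ (Nat.sub_le _ _))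
    refine h3.trans (le_of_eq ?_)
    have : 2 ^ K = 2 ^ (w - a) * 2 ^ κ * 2 ^ a := by
      rw [← pow_add, ← pow_add]; congr 1; omega
    rw [this]; ring
  exact (Nat.mul_le_mul_right _ h1).trans h2

/-- A good multiplier visits an arc of length `2 ^ κ` rarely. -/
theorem visits (κ w : ℕ) (R : ℕ) (hR : 0 < R) (θ y0 : ℤ) (hg : Good (κ + w) R (2 ^ κ) θ) (M : ℕ)
    (v : ℤ) : ((range M).filter fun m : ℕ =>
      (2 ^ w : ℤ) ∣ (y0 + θ * m) / 2 ^ κ - v).card ≤ M / R + 1 := by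
  have hκ : (0 : ℤ) < 2 ^ κ := by positivity
  calc _ ≤ (range (M / R + 1)).card := by
        apply Finset.card_le_card_of_injOn (fun m => m / R)
        · intro m hm
          simp only [Finset.coe_filter, mem_range, Set.mem_ofPred_eq] at hm
          simp only [Finset.coe_range, Set.mem_Iio]
          have := Nat.div_le_div_right (c := R) hm.1.le
          omega
        · intro m hm m' hm' hmm
          simp only [Finset.coe_filter, mem_range, Set.mem_ofPred_eq] at hm hm'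
          by_contra hne
          wlog hlt : m < m' generalizing m m'
          · exact this hmm.symm hm' hm (Ne.symm hne) (by omega)
          obtain ⟨e, he⟩ := hm.2
          obtain ⟨e', he'⟩ := hm'.2
          have h1 := Int.mul_ediv_add_emod (y0 + θ * m) (2 ^ κ)
          have h2 := Int.mul_ediv_add_emod (y0 + θ * m') (2 ^ κ)
          have h3 := Int.emod_nonneg (y0 + θ * m) hκ.ne'
          have h4 := Int.emod_lt_of_pos (y0 + θ * m) hκ
          have h5 := Int.emod_nonneg (y0 + θ * m') hκ.ne'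
          have h6 := Int.emod_lt_of_pos (y0 + θ * m') hκ
          have h7 := hg (m' - m) (by omega) (by
            have hmm' : m / R = m' / R := hmm
            have h8 := Nat.div_add_mod m R
            have h9 := Nat.div_add_mod m' R
            have h10 := Nat.mod_lt m hR
            have h11 := Nat.mod_lt m' hR
            rw [hmm'] at h8
            omega) (e' - e)
          have h12 : ((m' - m : ℕ) : ℤ) = (m' : ℤ) - m := by
            push_cast [Nat.cast_sub hlt.le]; ring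
          rw [h12] at h7
          have h13 : ((m' : ℤ) - m) * θ - 2 ^ (κ + w) * (e' - e) =
              (y0 + θ * m') % 2 ^ κ - (y0 + θ * m) % 2 ^ κ := by
            rw [pow_add]
            linear_combination h1 - h2 + (2 : ℤ) ^ κ * he' - 2 ^ κ * he
          rw [h13] at h7
          have h14 : |(y0 + θ * m') % 2 ^ κ - (y0 + θ * m) % 2 ^ κ| < 2 ^ κ := by
            rw [abs_lt]; constructor <;> linarith
          exact absurd h7 (not_le.2 h14)
    _ = M / R + 1 := Finset.card_range _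

/-- comparison with the uniform distribution -/
theorem spread (κ w : ℕ) (R : ℕ) (hR : 0 < R) (θ y0 : ℤ) (hg : Good (κ + w) R (2 ^ κ) θ) (M : ℕ)
    (f : ℤ → ℤ) (hf0 : ∀ v, 0 ≤ f v) (hf : ∀ v k : ℤ, f (v + 2 ^ w * k) = f v) :
    ∑ m ∈ range M, f ((y0 + θ * m) / 2 ^ κ) ≤ (M / R + 1 : ℕ) * ∑ v ∈ range (2 ^ w), f v := by
  have hw : (0 : ℤ) < 2 ^ w := by positivity
  set τ : ℕ → ℕ := fun m => (((y0 + θ * m) / 2 ^ κ) % 2 ^ w).toNat with hτ
  have hτ1 : ∀ m, ((τ m : ℕ) : ℤ) = ((y0 + θ * m) / 2 ^ κ) % 2 ^ w := fun m =>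
    Int.toNat_of_nonneg (Int.emod_nonneg _ hw.ne')
  have hmaps : ∀ m ∈ range M, τ m ∈ range (2 ^ w) := by
    intro m _
    rw [mem_range]
    have := Int.emod_lt_of_pos ((y0 + θ * m) / 2 ^ κ) hw
    rw [← hτ1] at this
    exact_mod_cast this
  have hval : ∀ m : ℕ, f ((y0 + θ * m) / 2 ^ κ) = f ((τ m : ℕ) : ℤ) := by
    intro m
    rw [hτ1]
    have := Int.emod_add_mul_ediv ((y0 + θ * m) / 2 ^ κ) (2 ^ w)
    conv_lhs => rw [← this]
    rw [hf]
  rw [Finset.sum_congr rfl fun m _ => hval m, ← Finset.sum_fiberwise_of_maps_to hmaps, Finset.mul_sum]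
  apply Finset.sum_le_sum
  intro v _
  have h1 : ∑ m ∈ (range M).filter (fun m => τ m = v), f ((τ m : ℕ) : ℤ) =
      ∑ m ∈ (range M).filter (fun m => τ m = v), f (v : ℤ) := by
    apply Finset.sum_congr rfl
    intro m hm
    rw [mem_filter] at hm
    rw [hm.2]
  rw [h1, Finset.sum_const, nsmul_eq_mul]
  apply mul_le_mul_of_nonneg_right _ (hf0 _)
  have h2 : (range M).filter (fun m => τ m = v) ⊆ (range M).filter fun m : ℕ =>
      (2 ^ w : ℤ) ∣ (y0 + θ * m) / 2 ^ κ - v := by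
    intro m hm
    rw [mem_filter] at hm ⊢
    refine ⟨hm.1, ?_⟩
    have h3 := hτ1 m
    rw [hm.2] at h3
    rw [h3]
    exact Int.dvd_self_sub_emod
  exact_mod_cast (Finset.card_le_card h2).trans (visits κ w R hR θ y0 hg M v)

end Pool.Agent.H51.TM
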