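import Pool.Agent.H51.TM.Segment

/-!
# Cancellation along a segment, assembly
-/

namespace Pool.Agent.H51.TM

open Finset Polynomial

open Classical in
/-- the bound for the inner sum as a function of the slope -/
noncomputable def Phi (κ2 w a c T : ℕ) (d1 θ : ℤ) : ℤ :=
  (if Good (w + w) (2 ^ (w - a)) (2 ^ w) θ then 0 else 2 ^ (w + κ2)) +
    ((2 ^ w / 2 ^ (w - a) + 1 : ℕ) * ∑ i ∈ range (T + 2), ∑ v ∈ range (2 ^ w),
      Th w κ2 T v (d1 + i) θ +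
    2 * ((2 ^ (w + κ2) / 2 ^ (w - a) + 1 : ℕ) * 2 ^ (w - c)))

theorem Phi_nonneg (κ2 w a c T : ℕ) (d1 θ : ℤ) : 0 ≤ Phi κ2 w a c T d1 θ := by
  unfold Phi
  have h1 : 0 ≤ ∑ i ∈ range (T + 2), ∑ v ∈ range (2 ^ w), Th w κ2 T v (d1 + i) θ :=
    Finset.sum_nonneg fun i _ => Finset.sum_nonneg fun v _ => Th_nonneg _ _ _ _ _ _
  split_ifs <;> positivity

theorem Phi_per (κ2 w a c T : ℕ) (d1 θ k : ℤ) :
    Phi κ2 w a c T d1 (θ + 2 ^ (w + w) * k) = Phi κ2 w a c T d1 θ := by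
  unfold Phi
  have h1 : ∀ (i : ℕ) (v : ℕ), Th w κ2 T v (d1 + i) (θ + 2 ^ (w + w) * k) =
      Th w κ2 T v (d1 + i) θ := by
    intro i v
    have : θ + 2 ^ (w + w) * k = θ + 2 ^ w * (2 ^ w * k) := by rw [pow_add]; ring
    rw [this, Th_per_θ]
  simp only [h1]
  have h2 := Good_congr (w + w) (2 ^ (w - a)) (2 ^ w) θ k
  by_cases hg : Good (w + w) (2 ^ (w - a)) (2 ^ w) θ
  · rw [if_pos hg, if_pos (h2.2 hg)]
  · rw [if_neg hg, if_neg (fun h => hg (h2.1 h))]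

theorem base_le (y : ℤ[X]) (hy : ∀ n : ℕ, 0 ≤ y.eval (n : ℤ)) (T D0 κ2 w a c μ n0 n1 : ℕ)
    (hK : w + w ≤ μ) (hn1 : n1 < 2 ^ μ) (hc : c ≤ w)
    (hD : ((T * n0 + D0 : ℤ) / 2 ^ μ + T + 1) + T * 2 ^ (w + κ2) ≤ 2 ^ (w + w - c)) :
    |∑ m ∈ range (2 ^ (w + κ2)), F y T D0 (n0 + n1 + 2 ^ μ * m)| ≤
      Phi κ2 w a c T ((T * n0 + D0 : ℤ) / 2 ^ μ / 2 ^ w) (y.derivative.eval ((n0 : ℤ) + n1)) := by
  unfold Phi
  have h1 : 0 ≤ ∑ i ∈ range (T + 2), ∑ v ∈ range (2 ^ w),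
      Th w κ2 T v ((T * n0 + D0 : ℤ) / 2 ^ μ / 2 ^ w + i) (y.derivative.eval ((n0 : ℤ) + n1)) :=
    Finset.sum_nonneg fun i _ => Finset.sum_nonneg fun v _ => Th_nonneg _ _ _ _ _ _
  split_ifs with hg
  · rw [zero_add]
    exact base_bound y hy T D0 w κ2 w c μ (2 ^ (w - a)) n0 n1 (by positivity) hK hn1 hc _ rfl hD _ rfl
      hg
  · have h2 : |∑ m ∈ range (2 ^ (w + κ2)), F y T D0 (n0 + n1 + 2 ^ μ * m)| ≤ 2 ^ (w + κ2) := by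
      refine (Finset.abs_sum_le_sum_abs _ _).trans ?_
      rw [Finset.sum_congr rfl fun m _ => F_abs y T D0 _]
      simp
    refine h2.trans ?_
    have h3 : (0 : ℤ) ≤ ((2 ^ w / 2 ^ (w - a) + 1 : ℕ) : ℤ) * ∑ i ∈ range (T + 2), ∑ v ∈ range (2 ^ w),
      Th w κ2 T v ((T * n0 + D0 : ℤ) / 2 ^ μ / 2 ^ w + i) (y.derivative.eval ((n0 : ℤ) + n1)) :=
      mul_nonneg (by positivity) h1
    have h4 : (0 : ℤ) ≤ 2 * (((2 ^ (w + κ2) / 2 ^ (w - a) + 1 : ℕ) : ℤ) * 2 ^ (w - c)) := by positivity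
    linarith

open Classical in
theorem sum_Phi (κ2 w a c T : ℕ) (d1 : ℤ) (ha : a ≤ w) (hc : c ≤ w) (ε : ℝ) (hε : 0 ≤ ε)
    (h : ∀ δ : ℤ, ((∑ t ∈ range (2 ^ w), ∑ v ∈ range (2 ^ w), Th w κ2 T v δ t : ℤ) : ℝ) ≤
      ε * (4 ^ w * 2 ^ κ2)) :
    ((∑ t ∈ range (2 ^ (w + w)), Phi κ2 w a c T d1 t : ℤ) : ℝ) * 2 ^ a ≤
      2 ^ (w + w) * 2 ^ (w + κ2) * (2 + 2 ^ (2 * a + 1) * (T + 2) * ε +
        2 ^ (2 * a + 2) / 2 ^ c) := by
  unfold Phi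
  rw [Finset.sum_add_distrib, Finset.sum_add_distrib, ← Finset.mul_sum]
  -- the arcs
  have h1 : (∑ t ∈ range (2 ^ (w + w)), (if Good (w + w) (2 ^ (w - a)) (2 ^ w) (t : ℤ) then (0 : ℤ)
      else 2 ^ (w + κ2))) * 2 ^ a ≤ 2 * 2 ^ (w + w) * 2 ^ (w + κ2) := by
    have h2 : ∀ t : ℕ, (if Good (w + w) (2 ^ (w - a)) (2 ^ w) (t : ℤ) then (0 : ℤ) else 2 ^ (w + κ2)) =
        (if ¬ Good (w + w) (2 ^ (w - a)) (2 ^ w) (t : ℤ) then 1 else 0) * 2 ^ (w + κ2) := by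
      intro t; split_ifs <;> simp_all
    rw [Finset.sum_congr rfl fun t _ => h2 t, ← Finset.sum_mul]
    have h3 := count_not_good (w + w) w a w rfl ha le_rfl
    rw [Finset.card_filter] at h3
    have h4 : (∑ t ∈ range (2 ^ (w + w)), (if ¬ Good (w + w) (2 ^ (w - a)) (2 ^ w) (t : ℤ) then (1 : ℤ)
        else 0)) * 2 ^ a ≤ 2 * 2 ^ (w + w) := by exact_mod_cast h3
    have h5 := mul_le_mul_of_nonneg_right h4 (show (0 : ℤ) ≤ 2 ^ (w + κ2) by positivity)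
    calc _ = (∑ t ∈ range (2 ^ (w + w)), (if ¬ Good (w + w) (2 ^ (w - a)) (2 ^ w) (t : ℤ) then (1 : ℤ)
        else 0)) * 2 ^ a * 2 ^ (w + κ2) := by ring
      _ ≤ _ := h5
  -- the correlations
  have h2 : ((∑ t ∈ range (2 ^ (w + w)), ∑ i ∈ range (T + 2), ∑ v ∈ range (2 ^ w),
      Th w κ2 T v (d1 + i) t : ℤ) : ℝ) ≤ 2 ^ w * ((T + 2) * (ε * (4 ^ w * 2 ^ κ2))) := by
    rw [Finset.sum_comm]
    have h3 : ∀ i ∈ range (T + 2), ((∑ t ∈ range (2 ^ (w + w)), ∑ v ∈ range (2 ^ w),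
        Th w κ2 T v (d1 + i) t : ℤ) : ℝ) ≤ 2 ^ w * (ε * (4 ^ w * 2 ^ κ2)) := by
      intro i _
      have h4 := sum_period w w (fun t => ∑ v ∈ range (2 ^ w), Th w κ2 T v (d1 + i) t)
        (fun t k => Finset.sum_congr rfl fun v _ => Th_per_θ _ _ _ _ _ _ _)
      rw [h4]
      push_cast
      exact mul_le_mul_of_nonneg_left (by exact_mod_cast h (d1 + i)) (by positivity)
    have h5 := Finset.sum_le_sum h3
    rw [Finset.sum_const, Finset.card_range, nsmul_eq_mul] at h5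
    push_cast at h5 ⊢
    calc _ ≤ ((T : ℝ) + 2) * (2 ^ w * (ε * (4 ^ w * 2 ^ κ2))) := h5
      _ = _ := by ring
  -- the numbers of visits
  have e1 : 2 ^ w / 2 ^ (w - a) + 1 ≤ 2 ^ (a + 1) := by
    rw [Nat.pow_div (Nat.sub_le _ _) (by norm_num), Nat.sub_sub_self ha, pow_succ]
    have : 1 ≤ 2 ^ a := Nat.one_le_two_pow
    omega
  have e2 : 2 ^ (w + κ2) / 2 ^ (w - a) + 1 ≤ 2 ^ (a + κ2 + 1) := by
    rw [Nat.pow_div (by omega) (by norm_num)]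
    have : w + κ2 - (w - a) = a + κ2 := by omega
    rw [this, pow_succ]
    have : 1 ≤ 2 ^ (a + κ2) := Nat.one_le_two_pow
    omega
  have e1' : ((2 ^ w / 2 ^ (w - a) + 1 : ℕ) : ℝ) ≤ 2 ^ (a + 1) := by exact_mod_cast e1
  have e2' : ((2 ^ (w + κ2) / 2 ^ (w - a) + 1 : ℕ) : ℝ) ≤ 2 ^ (a + κ2 + 1) := by exact_mod_cast e2
  have e3 : (4 : ℝ) ^ w = 2 ^ (w + w) := by rw [pow_add, ← mul_pow]; norm_num
  have h1' : ((∑ t ∈ range (2 ^ (w + w)), (if Good (w + w) (2 ^ (w - a)) (2 ^ w) (t : ℤ) then (0 : ℤ)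
      else 2 ^ (w + κ2)) : ℤ) : ℝ) * 2 ^ a ≤ 2 * 2 ^ (w + w) * 2 ^ (w + κ2) := by exact_mod_cast h1
  have hb1 : (((2 ^ w / 2 ^ (w - a) + 1 : ℕ) : ℝ) * ((∑ t ∈ range (2 ^ (w + w)), ∑ i ∈ range (T + 2),
      ∑ v ∈ range (2 ^ w), Th w κ2 T v (d1 + i) t : ℤ) : ℝ)) * 2 ^ a ≤
      2 ^ (w + w) * 2 ^ (w + κ2) * (2 ^ (2 * a + 1) * (T + 2) * ε) := by
    have h3 : (0 : ℝ) ≤ 2 ^ w * ((T + 2) * (ε * (4 ^ w * 2 ^ κ2))) := by positivity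
    calc _ ≤ (2 ^ (a + 1) * (2 ^ w * ((T + 2) * (ε * (4 ^ w * 2 ^ κ2))))) * 2 ^ a := by
          apply mul_le_mul_of_nonneg_right _ (by positivity)
          calc _ ≤ ((2 ^ w / 2 ^ (w - a) + 1 : ℕ) : ℝ) * (2 ^ w * ((T + 2) * (ε * (4 ^ w * 2 ^ κ2)))) :=
                mul_le_mul_of_nonneg_left h2 (by positivity)
            _ ≤ _ := mul_le_mul_of_nonneg_right e1' h3
      _ = _ := by rw [e3, pow_add 2 w κ2]; ring
  have hb2 : ((∑ _t ∈ range (2 ^ (w + w)), (2 : ℤ) * (((2 ^ (w + κ2) / 2 ^ (w - a) + 1 : ℕ) : ℤ) *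
      2 ^ (w - c)) : ℤ) : ℝ) * 2 ^ a ≤
      2 ^ (w + w) * 2 ^ (w + κ2) * (2 ^ (2 * a + 2) / 2 ^ c) := by
    rw [Finset.sum_const, Finset.card_range, nsmul_eq_mul]
    push_cast
    have e4 : (2 : ℝ) ^ (w - c) = 2 ^ w / 2 ^ c := by
      rw [eq_div_iff (by positivity), ← pow_add]; congr 1; omega
    have e5 : ((2 ^ (w + κ2) / 2 ^ (w - a) + 1 : ℕ) : ℝ) * 2 ^ (w - c) ≤
        2 ^ (a + κ2 + 1) * (2 ^ w / 2 ^ c) := by
      rw [e4]; exact mul_le_mul_of_nonneg_right e2' (by positivity)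
    push_cast at e5
    calc _ ≤ ((2 : ℝ) ^ (w + w) * (2 * (2 ^ (a + κ2 + 1) * (2 ^ w / 2 ^ c)))) * 2 ^ a :=
          mul_le_mul_of_nonneg_right (mul_le_mul_of_nonneg_left
            (mul_le_mul_of_nonneg_left e5 (by norm_num)) (by positivity)) (by positivity)
      _ = _ := by
        rw [pow_add 2 w κ2]
        field_simp
        ring
  rw [Int.cast_add, Int.cast_add, Int.cast_mul, Int.cast_natCast, add_mul, add_mul]
  linarith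

open Classical in
/-- cancellation along long segments -/
theorem segment (y : ℤ[X]) (hy : ∀ n : ℕ, 0 ≤ y.eval (n : ℤ))
    (hy2 : derivative (derivative y) ≠ 0) (T D0 : ℕ) (hT : 0 < T) (ε : ℝ) (hε : 0 < ε) (s : ℕ) :
    ∃ κ μ0 : ℕ, ∀ μ ≥ μ0, ∀ n0 ≤ 2 ^ (μ + κ + s),
      |((∑ n ∈ range (2 ^ (μ + κ)), F y T D0 (n0 + n) : ℤ) : ℝ)| ≤ ε * 2 ^ (μ + κ) := by
  obtain ⟨ℓ, s0, hroots⟩ := few_roots _ hy2 (ε / 4) (by positivity)
  obtain ⟨a, ha⟩ : ∃ a : ℕ, (2 : ℝ) ^ (2 * ℓ + 2) ≤ ε / 4 * 2 ^ a := by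
    obtain ⟨a, ha⟩ := pow_unbounded_of_one_lt ((2 : ℝ) ^ (2 * ℓ + 2) / (ε / 4))
      (show (1 : ℝ) < 2 by norm_num)
    refine ⟨a, ?_⟩
    rw [div_lt_iff₀ (by positivity)] at ha
    linarith
  obtain ⟨c, hc⟩ : ∃ c : ℕ, (2 : ℝ) ^ (2 * ℓ + a + 3) ≤ ε / 4 * 2 ^ c := by
    obtain ⟨c, hc⟩ := pow_unbounded_of_one_lt ((2 : ℝ) ^ (2 * ℓ + a + 3) / (ε / 4))
      (show (1 : ℝ) < 2 by norm_num)
    refine ⟨c, ?_⟩
    rw [div_lt_iff₀ (by positivity)] at hc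
    linarith
  set ε2 : ℝ := ε / 4 / (2 ^ (2 * ℓ + 1) * 2 ^ (a + 1) * (T + 2)) with hε2
  have hε2pos : 0 < ε2 := by rw [hε2]; positivity
  obtain ⟨k0, t, hTh⟩ := sum_Th_small T hT ε2 hε2pos
  obtain ⟨b, hb⟩ : ∃ b : ℕ, T * 2 ^ s + D0 + 2 * T + 1 ≤ 2 ^ b :=
    ⟨T * 2 ^ s + D0 + 2 * T + 1, Nat.lt_two_pow_self.le⟩
  set κ2 := k0 + a + ℓ with hκ2
  set w := κ2 + (c + b + t) with hw
  refine ⟨w + κ2, max s0 (w + w), ?_⟩
  intro μ hμ n0 hn0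
  have hμ1 : s0 ≤ μ := le_trans (le_max_left _ _) hμ
  have hμ2 : w + w ≤ μ := le_trans (le_max_right _ _) hμ
  have hD : ((T * n0 + D0 : ℤ) / 2 ^ μ + T + 1) + T * 2 ^ (w + κ2) ≤ 2 ^ (w + w - c) := by
    have h1 : (T * n0 + D0 : ℤ) / 2 ^ μ ≤ T * 2 ^ (w + κ2 + s) + D0 := by
      have h2 : (T * n0 + D0 : ℤ) ≤ (T * 2 ^ (w + κ2 + s) + D0) * 2 ^ μ := by
        have h3 : (n0 : ℤ) ≤ 2 ^ (μ + (w + κ2) + s) := by exact_mod_cast hn0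
        have h4 : (2 : ℤ) ^ (μ + (w + κ2) + s) = 2 ^ (w + κ2 + s) * 2 ^ μ := by
          rw [← pow_add]; congr 1; omega
        rw [h4] at h3
        have h5 : (T : ℤ) * n0 ≤ T * (2 ^ (w + κ2 + s) * 2 ^ μ) :=
          mul_le_mul_of_nonneg_left h3 (by positivity)
        have h6 : (D0 : ℤ) ≤ D0 * 2 ^ μ := by
          have : (1 : ℤ) ≤ 2 ^ μ := one_le_pow₀ (by norm_num)
          nlinarith [show (0 : ℤ) ≤ D0 by positivity]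
        linarith
      have := Int.ediv_le_ediv (show (0 : ℤ) < 2 ^ μ by positivity) h2
      rwa [Int.mul_ediv_cancel _ (show (2 : ℤ) ^ μ ≠ 0 by positivity)] at this
    have h2 : (T * 2 ^ (w + κ2 + s) + D0 + T + 1 : ℤ) + T * 2 ^ (w + κ2) ≤
        2 ^ (w + κ2) * 2 ^ b := by
      have h3 : (T * 2 ^ s + D0 + 2 * T + 1 : ℤ) ≤ 2 ^ b := by exact_mod_cast hb
      have h4 : (2 : ℤ) ^ (w + κ2) * (T * 2 ^ s + D0 + 2 * T + 1) ≤ 2 ^ (w + κ2) * 2 ^ b :=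
        mul_le_mul_of_nonneg_left h3 (by positivity)
      have h5 : (1 : ℤ) ≤ 2 ^ (w + κ2) := one_le_pow₀ (by norm_num)
      have h6 : (0 : ℤ) ≤ (2 ^ (w + κ2) - 1) * (D0 + T + 1) :=
        mul_nonneg (by linarith) (by positivity)
      have h7 : (T : ℤ) * 2 ^ (w + κ2 + s) = 2 ^ (w + κ2) * (T * 2 ^ s) := by rw [pow_add]; ring
      rw [h7]
      linarith
    have h3 : (2 : ℤ) ^ (w + κ2) * 2 ^ b ≤ 2 ^ (w + w - c) := by
      rw [← pow_add]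
      exact pow_le_pow_right₀ (by norm_num) (by omega)
    linarith
  set d1 : ℤ := (T * n0 + D0 : ℤ) / 2 ^ μ / 2 ^ w with hd1
  -- exchange of summations
  have hsum : ∑ n ∈ range (2 ^ (μ + (w + κ2))), F y T D0 (n0 + n) =
      ∑ n1 ∈ range (2 ^ μ), ∑ m ∈ range (2 ^ (w + κ2)), F y T D0 (n0 + n1 + 2 ^ μ * m) := by
    rw [pow_add, sum_split, Finset.sum_comm]
    apply Finset.sum_congr rfl; intro n1 _
    apply Finset.sum_congr rfl; intro m _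
    congr 1; ring
  set E : ℕ → ℤ := fun n1 => |∑ m ∈ range (2 ^ (w + κ2)), F y T D0 (n0 + n1 + 2 ^ μ * m)| with hE
  have hEtriv : ∀ n1, E n1 ≤ 2 ^ (w + κ2) := by
    intro n1
    refine (Finset.abs_sum_le_sum_abs _ _).trans ?_
    rw [Finset.sum_congr rfl fun m _ => F_abs y T D0 _]
    simp
  have hEbase : ∀ n1 < 2 ^ μ, E n1 ≤ Phi κ2 w a c T d1 (y.derivative.eval ((n0 : ℤ) + n1)) := by
    intro n1 hn1
    exact base_le y hy T D0 κ2 w a c μ n0 n1 hμ2 hn1 (by omega) hD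
  have htotal : |∑ n ∈ range (2 ^ (μ + (w + κ2))), F y T D0 (n0 + n)| ≤
      ∑ n1 ∈ range (2 ^ μ), E n1 := by
    rw [hsum]; exact Finset.abs_sum_le_sum_abs _ _
  -- bad points
  set bad : ℕ → Prop := fun n1 =>
    (2 ^ (ℓ + 1) : ℤ) ∣ (derivative (derivative y)).eval ((n0 : ℤ) + n1) with hbad
  have hcb : (((range (2 ^ μ)).filter bad).card : ℝ) ≤ ε / 4 * 2 ^ μ := by
    refine le_trans ?_ (hroots μ hμ1 n0)
    have : (range (2 ^ μ)).filter bad ⊆ (range (2 ^ μ)).filter fun n : ℕ =>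
        (2 ^ ℓ : ℤ) ∣ (derivative (derivative y)).eval ((n0 + n : ℕ) : ℤ) := by
      intro n hn
      rw [mem_filter] at hn ⊢
      refine ⟨hn.1, ?_⟩
      have h2 : ((n0 + n : ℕ) : ℤ) = (n0 : ℤ) + n := by push_cast; rfl
      rw [h2]
      exact (pow_dvd_pow _ (Nat.le_succ ℓ)).trans hn.2
    exact_mod_cast Finset.card_le_card this
  have hsplit : ∑ n1 ∈ range (2 ^ μ), E n1 ≤
      ((range (2 ^ μ)).filter bad).card * 2 ^ (w + κ2) +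
      ∑ n1 ∈ (range (2 ^ μ)).filter (fun n => ¬ bad n),
        Phi κ2 w a c T d1 (y.derivative.eval ((n0 : ℤ) + n1)) := by
    rw [← Finset.sum_filter_add_sum_filter_not (range (2 ^ μ)) bad]
    apply add_le_add
    · refine (Finset.sum_le_sum fun n _ => hEtriv n).trans ?_
      rw [Finset.sum_const, nsmul_eq_mul]
    · apply Finset.sum_le_sum
      intro n hn
      rw [mem_filter, mem_range] at hn
      exact hEbase n hn.1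
  -- blocks
  obtain ⟨ν, hν⟩ := Nat.exists_eq_add_of_le hμ2
  have hblocks : ∑ n1 ∈ (range (2 ^ μ)).filter (fun n => ¬ bad n),
        Phi κ2 w a c T d1 (y.derivative.eval ((n0 : ℤ) + n1)) ≤
      2 ^ ν * (2 ^ (2 * ℓ + 1) * ∑ t ∈ range (2 ^ (w + w)), Phi κ2 w a c T d1 t) := by
    rw [Finset.sum_filter, hν, pow_add, sum_split]
    have h1 : ∀ u ∈ range (2 ^ ν), ∑ r ∈ range (2 ^ (w + w)),
        (if ¬ bad (2 ^ (w + w) * u + r) then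
          Phi κ2 w a c T d1 (y.derivative.eval ((n0 : ℤ) + (2 ^ (w + w) * u + r : ℕ))) else 0) ≤
        2 ^ (2 * ℓ + 1) * ∑ t ∈ range (2 ^ (w + w)), Phi κ2 w a c T d1 t := by
      intro u _
      have h2 := multiplicity y.derivative (w + w) ℓ (by omega) ((n0 : ℤ) + 2 ^ (w + w) * u)
        (Phi κ2 w a c T d1) (fun t => Phi_nonneg _ _ _ _ _ _ _) (fun t k => Phi_per _ _ _ _ _ _ _ _)
      rw [Finset.sum_filter] at h2
      refine le_trans (le_of_eq ?_) h2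
      apply Finset.sum_congr rfl
      intro r _
      have h3 : (n0 : ℤ) + ((2 ^ (w + w) * u + r : ℕ) : ℤ) = (n0 : ℤ) + 2 ^ (w + w) * u + r := by
        push_cast; ring
      simp only [hbad, h3]
    refine (Finset.sum_le_sum h1).trans (le_of_eq ?_)
    rw [Finset.sum_const, Finset.card_range, nsmul_eq_mul]
    push_cast; rfl
  have hPhi := sum_Phi κ2 w a c T d1 (by omega) (by omega) ε2 hε2pos.le
    (fun δ => hTh κ2 (by omega) w (by omega) δ)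
  -- conclusion
  have hfin : ((|∑ n ∈ range (2 ^ (μ + (w + κ2))), F y T D0 (n0 + n)| : ℤ) : ℝ) ≤
      (((range (2 ^ μ)).filter bad).card : ℝ) * 2 ^ (w + κ2) +
      2 ^ ν * (2 ^ (2 * ℓ + 1) * ((∑ t ∈ range (2 ^ (w + w)), Phi κ2 w a c T d1 t : ℤ) : ℝ)) := by
    have := htotal.trans (hsplit.trans (add_le_add le_rfl hblocks))
    exact_mod_cast this
  rw [Int.cast_abs] at hfin
  refine hfin.trans ?_
  have e1 : (((range (2 ^ μ)).filter bad).card : ℝ) * 2 ^ (w + κ2) ≤ ε / 4 * 2 ^ (μ + (w + κ2)) := by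
    rw [pow_add 2 μ (w + κ2), ← mul_assoc]
    exact mul_le_mul_of_nonneg_right hcb (by positivity)
  have e2 : 2 ^ ν * (2 ^ (2 * ℓ + 1) * ((∑ t ∈ range (2 ^ (w + w)), Phi κ2 w a c T d1 t : ℤ) : ℝ)) ≤
      3 * (ε / 4) * 2 ^ (μ + (w + κ2)) := by
    have h1 : ((∑ t ∈ range (2 ^ (w + w)), Phi κ2 w a c T d1 t : ℤ) : ℝ) ≤
        2 ^ (w + w) * 2 ^ (w + κ2) * (2 + 2 ^ (2 * a + 1) * (T + 2) * ε2 +
        2 ^ (2 * a + 2) / 2 ^ c) / 2 ^ a := by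
      rw [le_div_iff₀ (by positivity)]; exact hPhi
    have h2 : (2 : ℝ) ^ (2 * ℓ + 1) * ((2 + 2 ^ (2 * a + 1) * (T + 2) * ε2 +
        2 ^ (2 * a + 2) / 2 ^ c) / 2 ^ a) ≤ 3 * (ε / 4) := by
      have g1 : (2 : ℝ) ^ (2 * ℓ + 1) * (2 / 2 ^ a) ≤ ε / 4 := by
        rw [← mul_div_assoc, div_le_iff₀ (by positivity)]
        calc _ = (2 : ℝ) ^ (2 * ℓ + 2) := by ring
          _ ≤ _ := ha
      have g2 : (2 : ℝ) ^ (2 * ℓ + 1) * (2 ^ (2 * a + 1) * (T + 2) * ε2 / 2 ^ a) = ε / 4 := by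
        rw [hε2]
        field_simp
        ring
      have g3 : (2 : ℝ) ^ (2 * ℓ + 1) * (2 ^ (2 * a + 2) / 2 ^ c / 2 ^ a) ≤ ε / 4 := by
        rw [← mul_div_assoc, ← mul_div_assoc, div_le_iff₀ (by positivity), div_le_iff₀ (by positivity)]
        calc (2 : ℝ) ^ (2 * ℓ + 1) * 2 ^ (2 * a + 2) = 2 ^ (2 * ℓ + a + 3) * 2 ^ a := by ring
          _ ≤ (ε / 4 * 2 ^ c) * 2 ^ a := mul_le_mul_of_nonneg_right hc (by positivity)
          _ = _ := by ring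
      calc _ = (2 : ℝ) ^ (2 * ℓ + 1) * (2 / 2 ^ a) +
            (2 : ℝ) ^ (2 * ℓ + 1) * (2 ^ (2 * a + 1) * (T + 2) * ε2 / 2 ^ a) +
            (2 : ℝ) ^ (2 * ℓ + 1) * (2 ^ (2 * a + 2) / 2 ^ c / 2 ^ a) := by ring
        _ ≤ ε / 4 + ε / 4 + ε / 4 := by
            rw [g2]; linarith
        _ = _ := by ring
    have e3 : (2 : ℝ) ^ (μ + (w + κ2)) = 2 ^ ν * (2 ^ (w + w) * 2 ^ (w + κ2)) := by
      rw [← pow_add, ← pow_add]; congr 1; omega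
    calc _ ≤ 2 ^ ν * ((2 : ℝ) ^ (2 * ℓ + 1) * (2 ^ (w + w) * 2 ^ (w + κ2) *
          (2 + 2 ^ (2 * a + 1) * (T + 2) * ε2 + 2 ^ (2 * a + 2) / 2 ^ c) / 2 ^ a)) :=
          mul_le_mul_of_nonneg_left (mul_le_mul_of_nonneg_left h1 (by positivity)) (by positivity)
      _ = 2 ^ ν * (2 ^ (w + w) * 2 ^ (w + κ2)) * ((2 : ℝ) ^ (2 * ℓ + 1) *
          ((2 + 2 ^ (2 * a + 1) * (T + 2) * ε2 + 2 ^ (2 * a + 2) / 2 ^ c) / 2 ^ a)) := by ring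
      _ ≤ 2 ^ ν * (2 ^ (w + w) * 2 ^ (w + κ2)) * (3 * (ε / 4)) :=
          mul_le_mul_of_nonneg_left h2 (by positivity)
      _ = _ := by rw [e3]; ring
  calc _ ≤ ε / 4 * 2 ^ (μ + (w + κ2)) + 3 * (ε / 4) * 2 ^ (μ + (w + κ2)) := add_le_add e1 e2
    _ = _ := by ring

end Pool.Agent.H51.TM
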