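import Pool.Agent.H51.TM.Poly

/-!
# Cancellation along a segment
-/

namespace Pool.Agent.H51.TM

open Finset Polynomial

/-- product of the two signs -/
noncomputable def F (y : ℤ[X]) (T D0 : ℕ) (n : ℕ) : ℤ :=
  sgz (y.eval (n : ℤ) + (T * n + D0)) * sgz (y.eval (n : ℤ))

theorem F_abs (y : ℤ[X]) (T D0 n : ℕ) : |F y T D0 n| = 1 := by
  unfold F; rw [abs_mul, sgz_abs, sgz_abs]; norm_num

theorem base_bound (y : ℤ[X]) (hy : ∀ n : ℕ, 0 ≤ y.eval (n : ℤ)) (T D0 κ1 κ2 w c μ R n0 n1 : ℕ)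
    (hR : 0 < R) (hK : κ1 + w ≤ μ) (hn1 : n1 < 2 ^ μ) (hc : c ≤ w) (d0 : ℤ)
    (hd0 : d0 = (T * n0 + D0 : ℤ) / 2 ^ μ)
    (hD : (d0 + T + 1) + T * 2 ^ (κ1 + κ2) ≤ 2 ^ (κ1 + w - c)) (θ : ℤ)
    (hθ : θ = y.derivative.eval ((n0 : ℤ) + n1)) (hgood : Good (κ1 + w) R (2 ^ κ1) θ) :
    |∑ m ∈ range (2 ^ (κ1 + κ2)), F y T D0 (n0 + n1 + 2 ^ μ * m)| ≤
      (2 ^ κ1 / R + 1 : ℕ) * ∑ i ∈ range (T + 2), ∑ v ∈ range (2 ^ w),
        Th w κ2 T v (d0 / 2 ^ κ1 + i) θ +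
      2 * ((2 ^ (κ1 + κ2) / R + 1 : ℕ) * 2 ^ (w - c)) := by
  have hL : (0 : ℤ) < 2 ^ μ := by positivity
  set g : ℤ := (n0 : ℤ) + n1 with hg
  have hg' : ((n0 + n1 : ℕ) : ℤ) = g := by push_cast; rfl
  -- digits of `y g`
  set Yu := y.eval g / 2 ^ μ with hYu
  set Yl := y.eval g % 2 ^ μ with hYl
  have hY : y.eval g = 2 ^ μ * Yu + Yl := (Int.mul_ediv_add_emod _ _).symm
  have hYl0 : 0 ≤ Yl := Int.emod_nonneg _ hL.ne'
  have hYl1 : Yl < 2 ^ μ := Int.emod_lt_of_pos _ hL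
  set D := (Yl + (T * g + D0)) / 2 ^ μ with hDdef
  set Xl := (Yl + (T * g + D0)) % 2 ^ μ with hXl
  have hX : Yl + (T * g + D0) = 2 ^ μ * D + Xl := (Int.mul_ediv_add_emod _ _).symm
  have hXl0 : 0 ≤ Xl := Int.emod_nonneg _ hL.ne'
  have hXl1 : Xl < 2 ^ μ := Int.emod_lt_of_pos _ hL
  -- bounds for `D`
  have f1 := Int.mul_ediv_add_emod (T * n0 + D0 : ℤ) (2 ^ μ)
  have f2 := Int.emod_nonneg (T * n0 + D0 : ℤ) hL.ne'
  have f3 := Int.emod_lt_of_pos (T * n0 + D0 : ℤ) hL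
  rw [← hd0] at f1
  have hn1' : (n1 : ℤ) + 1 ≤ 2 ^ μ := by exact_mod_cast hn1
  have hTn : (T : ℤ) * n1 + T ≤ T * 2 ^ μ := by
    have : (T : ℤ) * (n1 + 1) ≤ T * 2 ^ μ := mul_le_mul_of_nonneg_left hn1' (by positivity)
    linarith
  have hTn0 : (0 : ℤ) ≤ T * n1 := by positivity
  have hX' : Yl + T * n1 + (T * n0 + D0 : ℤ) = 2 ^ μ * D + Xl := by rw [← hX, hg]; ring
  have g1 : d0 ≤ D := by
    by_contra hcon
    have : (2 : ℤ) ^ μ * (D + 1) ≤ 2 ^ μ * d0 := mul_le_mul_of_nonneg_left (by omega) hL.le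
    linarith
  have g2 : D ≤ d0 + T + 1 := by
    by_contra hcon
    have : (2 : ℤ) ^ μ * (d0 + T + 2) ≤ 2 ^ μ * D := mul_le_mul_of_nonneg_left (by omega) hL.le
    have e : (2 : ℤ) ^ μ * (d0 + T + 2) = 2 ^ μ * d0 + T * 2 ^ μ + 2 * 2 ^ μ := by ring
    have hT0 : (0 : ℤ) ≤ T := by positivity
    linarith
  have hd00 : 0 ≤ d0 := by rw [hd0]; exact Int.ediv_nonneg (by positivity) hL.le
  have hD0' : 0 ≤ D := hd00.trans g1
  -- second order terms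
  have hexp : ∀ m : ℕ, ∃ s : ℤ, y.eval (g + 2 ^ μ * m) =
      y.eval g + y.derivative.eval g * (2 ^ μ * m) + s * (2 ^ μ * m) ^ 2 := fun m =>
    eval_add_int y g (2 ^ μ * m)
  choose s hs using hexp
  set yu : ℕ → ℤ := fun m => Yu + θ * m + 2 ^ μ * (m ^ 2 * s m) with hyu
  have hyv : ∀ m : ℕ, y.eval (g + 2 ^ μ * m) = 2 ^ μ * yu m + Yl := by
    intro m
    rw [hs m, hY, ← hθ]
    simp only [hyu]; ring
  have hcast : ∀ m : ℕ, ((n0 + n1 + 2 ^ μ * m : ℕ) : ℤ) = g + 2 ^ μ * m := by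
    intro m; push_cast; rfl
  have hyu0 : ∀ m : ℕ, 0 ≤ yu m := by
    intro m
    have h1 := hy (n0 + n1 + 2 ^ μ * m)
    rw [hcast, hyv] at h1
    by_contra hneg
    have : (2 : ℤ) ^ μ * yu m ≤ 2 ^ μ * (-1) := mul_le_mul_of_nonneg_left (by omega) hL.le
    linarith
  have hF : ∀ m : ℕ, F y T D0 (n0 + n1 + 2 ^ μ * m) =
      sgz Xl * sgz Yl * (sgz (yu m + (D + T * m)) * sgz (yu m)) := by
    intro m
    unfold F
    rw [hcast, hyv]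
    have e1 : 2 ^ μ * yu m + Yl + (T * (g + 2 ^ μ * m) + D0) =
        2 ^ μ * (yu m + (D + T * m)) + Xl := by linear_combination hX
    rw [e1, sgz_split μ _ Xl (by have := hyu0 m; positivity) hXl0 hXl1,
      sgz_split μ _ Yl (hyu0 m) hYl0 hYl1]
    ring
  rw [Finset.sum_congr rfl fun m _ => hF m, ← Finset.mul_sum, abs_mul, abs_mul, sgz_abs, sgz_abs,
    one_mul, one_mul]
  have hcK : c ≤ κ1 + w := by omega
  have w1 := to_window (κ1 + w) (2 ^ (κ1 + κ2)) c yu Yu θ D T hcK (fun m _ => hyu0 m)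
    (fun m _ => by
      simp only [hyu]
      have : Yu + θ * m + 2 ^ μ * (m ^ 2 * s m) - (Yu + θ * m) = 2 ^ μ * ((m : ℤ) ^ 2 * s m) := by ring
      rw [this]
      exact Dvd.dvd.mul_right (pow_dvd_pow _ hK) _) hD0' (by push_cast; linarith)
  have w2 := inner_bound κ1 κ2 w T R hR θ Yu D d0 g1 g2 hgood
  have w3 := overflow κ1 (2 ^ (κ1 + κ2)) w c hc R hR θ Yu hgood
  linarith

/-- Cauchy-Schwarz -/
theorem sum_Th_sq (w k T : ℕ) (δ : ℤ) :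
    (∑ t ∈ range (2 ^ w), ∑ v ∈ range (2 ^ w), Th w k T v δ t) ^ 2 ≤ 4 ^ w * Qf w k T δ := by
  have h1 : ∑ t ∈ range (2 ^ w), ∑ v ∈ range (2 ^ w), Th w k T v δ t =
      ∑ p ∈ range (2 ^ w) ×ˢ range (2 ^ w), Th w k T p.2 δ p.1 := by
    rw [Finset.sum_product]
  have h2 : Qf w k T δ = ∑ p ∈ range (2 ^ w) ×ˢ range (2 ^ w), Th w k T p.2 δ p.1 ^ 2 := by
    rw [Finset.sum_product]
    unfold Qf Th
    apply Finset.sum_congr rfl; intro t _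
    apply Finset.sum_congr rfl; intro v _
    rw [sq_abs]
  rw [h1, h2]
  have h3 := sq_sum_le_card_mul_sum_sq (s := range (2 ^ w) ×ˢ range (2 ^ w))
    (f := fun p : ℕ × ℕ => Th w k T p.2 δ p.1)
  rw [Finset.card_product, Finset.card_range] at h3
  have e : (4 : ℤ) ^ w = ((2 ^ w * 2 ^ w : ℕ) : ℤ) := by push_cast; rw [← mul_pow]; norm_num
  rw [e]; exact h3

theorem sum_Th_small (T : ℕ) (hT : 0 < T) (ε : ℝ) (hε : 0 < ε) :
    ∃ k0 t : ℕ, ∀ k ≥ k0, ∀ w ≥ k + t, ∀ δ : ℤ,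
      ((∑ t ∈ range (2 ^ w), ∑ v ∈ range (2 ^ w), Th w k T v δ t : ℤ) : ℝ) ≤ ε * (4 ^ w * 2 ^ k) := by
  obtain ⟨k0, t, h⟩ := Qf_small (T : ℤ) (by exact_mod_cast hT.ne') (ε ^ 2) (by positivity)
  refine ⟨k0, t, ?_⟩
  intro k hk w hw δ
  have h1 := h k hk w hw δ
  have h2 : (((∑ t ∈ range (2 ^ w), ∑ v ∈ range (2 ^ w), Th w k T v δ t : ℤ) : ℝ)) ^ 2 ≤
      4 ^ w * (Qf w k T δ : ℝ) := by exact_mod_cast sum_Th_sq w k T δ
  have h3 : (((∑ t ∈ range (2 ^ w), ∑ v ∈ range (2 ^ w), Th w k T v δ t : ℤ) : ℝ)) ^ 2 ≤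
      (ε * (4 ^ w * 2 ^ k)) ^ 2 := by
    refine h2.trans ?_
    have e : (4 : ℝ) ^ k = 2 ^ k * 2 ^ k := by rw [← mul_pow]; norm_num
    have h4 := mul_le_mul_of_nonneg_left h1 (show (0 : ℝ) ≤ 4 ^ w by positivity)
    refine h4.trans (le_of_eq ?_)
    rw [e]; ring
  exact le_of_sq_le_sq h3 (by positivity)

theorem sum_period (w d : ℕ) (f : ℤ → ℤ) (hf : ∀ t k : ℤ, f (t + 2 ^ w * k) = f t) :
    ∑ t ∈ range (2 ^ (w + d)), f t = 2 ^ d * ∑ t ∈ range (2 ^ w), f t := by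
  rw [pow_add, sum_split]
  have h1 : ∀ u ∈ range (2 ^ d), ∑ r ∈ range (2 ^ w), f ((2 ^ w * u + r : ℕ) : ℤ) =
      ∑ r ∈ range (2 ^ w), f r := by
    intro u _
    apply Finset.sum_congr rfl
    intro r _
    have : ((2 ^ w * u + r : ℕ) : ℤ) = r + 2 ^ w * u := by push_cast; ring
    rw [this, hf]
  rw [Finset.sum_congr rfl h1, Finset.sum_const, Finset.card_range, nsmul_eq_mul]
  push_cast; rfl

end Pool.Agent.H51.TM
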