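import Pool.Agent.H51.TM.Four

/-!
# The square sum is small
-/

namespace Pool.Agent.H51.TM

open Finset

theorem sum_G_le (t : ℕ) (T T' : ℤ) (hT : T = 2 ^ t * T') (hT' : Odd T') (j w' k' : ℕ) (s : ℤ) :
    256 ^ j * ∑ m ∈ range (2 ^ (4 * j + k')), G (w' + 4 * j + t) (s + T * m) ≤
      2 ^ ((4 * j + k') + (w' + 4 * j + t)) * 252 ^ j := by
  have e1 : (2 : ℕ) ^ (4 * j + k') = 16 ^ j * 2 ^ k' := by
    rw [pow_add, pow_mul]; norm_num
  rw [e1, sum_split]
  have h1 : ∀ m1 ∈ range (2 ^ k'), ∑ m0 ∈ range (16 ^ j),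
      G (w' + 4 * j + t) (s + T * ((16 ^ j * m1 + m0 : ℕ) : ℤ)) ≤ 2 ^ t * (2 ^ w' * 252 ^ j) := by
    intro m1 _
    set s' := s + T * (16 ^ j * m1 : ℕ) with hs'
    set e := s' / 2 ^ t with he
    set r := s' % 2 ^ t with hr
    have hpt : (0 : ℤ) < 2 ^ t := by positivity
    have hs'' : s' = 2 ^ t * e + r := (Int.mul_ediv_add_emod _ _).symm
    have hr0 : 0 ≤ r := Int.emod_nonneg _ hpt.ne'
    have hr1 : r < 2 ^ t := Int.emod_lt_of_pos _ hpt
    have hr2 : r.toNat < 2 ^ t := by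
      have : ((r.toNat : ℕ) : ℤ) < ((2 ^ t : ℕ) : ℤ) := by
        rw [Int.toNat_of_nonneg hr0]; push_cast; exact hr1
      exact_mod_cast this
    calc ∑ m0 ∈ range (16 ^ j), G (w' + 4 * j + t) (s + T * ((16 ^ j * m1 + m0 : ℕ) : ℤ))
        ≤ ∑ m0 ∈ range (16 ^ j), 2 ^ t * G (w' + 4 * j) (e + T' * m0) := by
          apply Finset.sum_le_sum
          intro m0 _
          have e2 : s + T * ((16 ^ j * m1 + m0 : ℕ) : ℤ) = 2 ^ t * (e + T' * m0) + (r.toNat : ℕ) := by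
            rw [Int.toNat_of_nonneg hr0]
            have : s + T * ((16 ^ j * m1 + m0 : ℕ) : ℤ) = s' + T * m0 := by
              rw [hs']; push_cast; ring
            rw [this, hs'', hT]; ring
          rw [e2]
          exact G_pow t (w' + 4 * j) _ _ hr2
      _ = 2 ^ t * ∑ m0 ∈ range (16 ^ j), G (w' + 4 * j) (e + T' * m0) := by rw [Finset.mul_sum]
      _ ≤ 2 ^ t * (2 ^ w' * 252 ^ j) :=
          mul_le_mul_of_nonneg_left (sum_G_odd T' hT' w' j e) (by positivity)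
  calc _ ≤ 256 ^ j * ∑ m1 ∈ range (2 ^ k'), (2 ^ t * (2 ^ w' * 252 ^ j) : ℤ) :=
        mul_le_mul_of_nonneg_left (Finset.sum_le_sum h1) (by positivity)
    _ = 2 ^ ((4 * j + k') + (w' + 4 * j + t)) * 252 ^ j := by
        rw [Finset.sum_const, Finset.card_range, nsmul_eq_mul]
        have e3 : (256 : ℤ) ^ j = 2 ^ (4 * j) * 2 ^ (4 * j) := by
          rw [← pow_add, show (256 : ℤ) = 2 ^ 8 by norm_num, ← pow_mul]; congr 1; ring
        rw [e3, pow_add, pow_add, pow_add, pow_add]; push_cast; ring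

/-- the sum at level `i` -/
def Sf (w k i : ℕ) (T δ : ℤ) : ℤ := ∑ m ∈ range (2 ^ k), G (w - i) ((δ + T * m) / 2 ^ i)

theorem Sf_trivial (w k i : ℕ) (T δ : ℤ) : Sf w k i T δ ≤ 2 ^ k * 2 ^ (w - i) := by
  unfold Sf
  refine (Finset.sum_le_sum (g := fun _ => (2 : ℤ) ^ (w - i)) fun m _ => G_le _ _).trans ?_
  rw [Finset.sum_const, Finset.card_range, nsmul_eq_mul]; push_cast; exact le_rfl

theorem Sf_le (t : ℕ) (T T' : ℤ) (hT : T = 2 ^ t * T') (hT' : Odd T') (j w k i : ℕ) (δ : ℤ)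
    (hi : i + 4 * j ≤ k) (hw : k + t ≤ w) :
    256 ^ j * Sf w k i T δ ≤ 2 ^ k * 2 ^ (w - i) * 252 ^ j := by
  obtain ⟨k', hk'⟩ : ∃ k', k = i + (4 * j + k') := ⟨k - i - 4 * j, by omega⟩
  obtain ⟨w', hw'⟩ : ∃ w', w - i = w' + 4 * j + t := ⟨w - i - 4 * j - t, by omega⟩
  unfold Sf
  rw [hk', pow_add, sum_split, Finset.sum_comm]
  have h1 : ∀ m0 ∈ range (2 ^ i), 256 ^ j * ∑ m1 ∈ range (2 ^ (4 * j + k')),
      G (w - i) ((δ + T * ((2 ^ i * m1 + m0 : ℕ) : ℤ)) / 2 ^ i) ≤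
      2 ^ ((4 * j + k') + (w' + 4 * j + t)) * 252 ^ j := by
    intro m0 _
    rw [hw']
    have h2 := sum_G_le t T T' hT hT' j w' k' ((δ + T * m0) / 2 ^ i)
    have h3 : ∀ m1 : ℕ, (δ + T * ((2 ^ i * m1 + m0 : ℕ) : ℤ)) / 2 ^ i =
        (δ + T * m0) / 2 ^ i + T * m1 := by
      intro m1
      have : δ + T * ((2 ^ i * m1 + m0 : ℕ) : ℤ) = (δ + T * m0) + 2 ^ i * (T * m1) := by
        push_cast; ring
      rw [this, Int.add_mul_ediv_left _ _ (by positivity)]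
    rw [Finset.sum_congr rfl fun m1 _ => by rw [h3 m1]]
    exact h2
  rw [Finset.mul_sum]
  refine (Finset.sum_le_sum h1).trans ?_
  rw [Finset.sum_const, Finset.card_range, nsmul_eq_mul, hw']
  apply le_of_eq
  rw [pow_add (2 : ℤ) (4 * j + k'), pow_add (2 : ℤ) i]
  push_cast; ring

theorem count_dvd (k i m : ℕ) (hi : i ≤ k) :
    ∑ m' ∈ range (2 ^ k), (if (2 ^ i : ℤ) ∣ (m' : ℤ) - m then (1 : ℤ) else 0) = 2 ^ (k - i) := by
  obtain ⟨k', rfl⟩ := Nat.exists_eq_add_of_le hi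
  have h1 := sum_shift (2 ^ (i + k')) (fun t : ℤ => if (2 ^ i : ℤ) ∣ t then (1 : ℤ) else 0) (by
    intro t q
    have : (2 ^ i : ℤ) ∣ ((2 ^ (i + k') : ℕ) : ℤ) * q := by
      push_cast; rw [pow_add, mul_assoc]; exact Dvd.intro _ rfl
    have h2 : (2 ^ i : ℤ) ∣ t + ((2 ^ (i + k') : ℕ) : ℤ) * q ↔ (2 ^ i : ℤ) ∣ t :=
      (Int.dvd_add_left this)
    simp only [h2]) (-(m : ℤ))
  have h3 : ∑ m' ∈ range (2 ^ (i + k')), (if (2 ^ i : ℤ) ∣ (m' : ℤ) - m then (1 : ℤ) else 0) =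
      ∑ m' ∈ range (2 ^ (i + k')), (if (2 ^ i : ℤ) ∣ (m' : ℤ) then (1 : ℤ) else 0) := by
    rw [← h1]
    apply Finset.sum_congr rfl
    intro m' _
    rw [sub_eq_add_neg]
  rw [h3, pow_add, sum_split]
  have h4 : ∀ u ∈ range (2 ^ k'), ∑ r ∈ range (2 ^ i),
      (if (2 ^ i : ℤ) ∣ ((2 ^ i * u + r : ℕ) : ℤ) then (1 : ℤ) else 0) = 1 := by
    intro u _
    rw [Finset.sum_eq_single 0]
    · simp
    · intro r hr hr0
      rw [if_neg]
      intro hd
      have h5 : (2 ^ i : ℤ) ∣ (r : ℤ) := by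
        have h6 : ((2 ^ i * u + r : ℕ) : ℤ) = 2 ^ i * u + r := by push_cast; ring
        rw [h6] at hd
        exact (Int.dvd_add_right (Dvd.intro _ rfl)).1 hd
      have h7 : (2 ^ i : ℕ) ∣ r := by exact_mod_cast h5
      have h8 := Nat.le_of_dvd (by omega) h7
      rw [mem_range] at hr
      omega
    · intro h; simp at h
  rw [Finset.sum_congr rfl h4]
  simp

theorem Qf_le (w k : ℕ) (T δ : ℤ) (hw : k ≤ w) :
    Qf w k T δ ≤ 2 ^ k * 4 ^ w + ∑ i ∈ range k, 2 ^ (k + w) * Sf w k i T δ := by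
  rw [Qf_eq]
  -- bound of one row
  have row : ∀ m ∈ range (2 ^ k), ∑ m' ∈ range (2 ^ k), H4 w (δ + T * m) (δ + T * m') (m' - m) ≤
      4 ^ w + ∑ i ∈ range k, 2 ^ (k + w) * G (w - i) ((δ + T * m) / 2 ^ i) := by
    intro m hm
    have entry : ∀ m' ∈ range (2 ^ k), H4 w (δ + T * m) (δ + T * m') (m' - m) ≤
        (if m' = m then 4 ^ w else 0) + ∑ i ∈ range k,
          (if (2 ^ i : ℤ) ∣ (m' : ℤ) - m then (1 : ℤ) else 0) *
            (4 ^ i * (2 ^ (w - i) * G (w - i) ((δ + T * m) / 2 ^ i))) := by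
      intro m' hm'
      have hnn : ∀ i ∈ range k, (0 : ℤ) ≤ (if (2 ^ i : ℤ) ∣ (m' : ℤ) - m then (1 : ℤ) else 0) *
            (4 ^ i * (2 ^ (w - i) * G (w - i) ((δ + T * m) / 2 ^ i))) := by
        intro i _
        have := G_nonneg (w - i) ((δ + T * m) / 2 ^ i)
        split_ifs <;> positivity
      by_cases h : m' = m
      · rw [if_pos h]
        have := (le_abs_self _).trans (H4_trivial w (δ + T * m) (δ + T * m') (m' - m))
        linarith [Finset.sum_nonneg hnn]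
      · rw [if_neg h, zero_add]
        have hne : (m' : ℤ) - m ≠ 0 := by
          intro h0; apply h; omega
        obtain ⟨i, ρ, hρ, hv⟩ : ∃ (i : ℕ) (ρ : ℤ), Odd ρ ∧ (m' : ℤ) - m = 2 ^ i * ρ := by
          obtain ⟨e, o, ho, h1⟩ := Nat.exists_eq_two_pow_mul_odd (n := ((m' : ℤ) - m).natAbs)
            (Int.natAbs_ne_zero.2 hne)
          rcases Int.natAbs_eq ((m' : ℤ) - m) with h2 | h2
          · exact ⟨e, o, by exact_mod_cast ho, by rw [h2, h1]; push_cast; ring⟩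
          · exact ⟨e, -o, (show Odd (o : ℤ) by exact_mod_cast ho).neg,
              by rw [h2, h1]; push_cast; ring⟩
        have hik : i < k := by
          by_contra hcon
          push Not at hcon
          have h3 : (2 : ℤ) ^ k ∣ (m' : ℤ) - m := by
            rw [hv]; exact Dvd.dvd.mul_right (pow_dvd_pow _ hcon) _
          rw [mem_range] at hm hm'
          have hm1 : (m : ℤ) < 2 ^ k := by exact_mod_cast hm
          have hm2 : (m' : ℤ) < 2 ^ k := by exact_mod_cast hm'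
          exact hne (Int.eq_zero_of_abs_lt_dvd h3 (by rw [abs_lt]; constructor <;> omega))
        have hbd := H4_bound (w - i) ((δ + T * m) / 2 ^ i) ρ hρ i (δ + T * m) (δ + T * m')
          (by
            have := Int.mul_ediv_add_emod (δ + T * m) (2 ^ i)
            have h4 := Int.emod_nonneg (δ + T * m) (show (2 : ℤ) ^ i ≠ 0 by positivity)
            linarith)
          (by
            have := Int.mul_ediv_add_emod (δ + T * m) (2 ^ i)
            have h4 := Int.emod_lt_of_pos (δ + T * m) (show (0 : ℤ) < 2 ^ i by positivity)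
            linarith)
        rw [show w - i + i = w by omega, ← hv] at hbd
        refine ((le_abs_self _).trans hbd).trans ?_
        have h5 := Finset.single_le_sum hnn (mem_range.2 hik)
        rw [if_pos (show (2 ^ i : ℤ) ∣ (m' : ℤ) - m by rw [hv]; exact Dvd.intro _ rfl), one_mul] at h5
        exact h5
    refine (Finset.sum_le_sum entry).trans ?_
    rw [Finset.sum_add_distrib, Finset.sum_ite_eq' (range (2 ^ k)) m, if_pos hm, Finset.sum_comm]
    apply add_le_add le_rfl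
    apply Finset.sum_le_sum
    intro i hi
    rw [mem_range] at hi
    rw [← Finset.sum_mul, count_dvd k i m hi.le]
    apply le_of_eq
    have e1 : (2 : ℤ) ^ (k - i) * (4 ^ i * 2 ^ (w - i)) = 2 ^ (k + w) := by
      have : (4 : ℤ) ^ i = 2 ^ i * 2 ^ i := by rw [← mul_pow]; norm_num
      rw [this, ← pow_add, ← pow_add, ← pow_add]; congr 1; omega
    rw [← e1]; ring
  refine (Finset.sum_le_sum row).trans ?_
  rw [Finset.sum_add_distrib, Finset.sum_const, Finset.card_range, nsmul_eq_mul, Finset.sum_comm]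
  push_cast
  apply add_le_add le_rfl
  apply Finset.sum_le_sum
  intro i _
  rw [← Finset.mul_sum]
  rfl

/-- the square sum is `o (4 ^ w * 4 ^ k)` -/
theorem Qf_small (T : ℤ) (hT : T ≠ 0) (ε : ℝ) (hε : 0 < ε) :
    ∃ k0 t : ℕ, ∀ k ≥ k0, ∀ w ≥ k + t, ∀ δ : ℤ, (Qf w k T δ : ℝ) ≤ ε * (4 ^ w * 4 ^ k) := by
  obtain ⟨t, T', hT', hTe⟩ : ∃ (t : ℕ) (T' : ℤ), Odd T' ∧ T = 2 ^ t * T' := by
    obtain ⟨e, o, ho, h1⟩ := Nat.exists_eq_two_pow_mul_odd (n := T.natAbs) (Int.natAbs_ne_zero.2 hT)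
    rcases Int.natAbs_eq T with h2 | h2
    · exact ⟨e, o, by exact_mod_cast ho, by rw [h2, h1]; push_cast; ring⟩
    · exact ⟨e, -o, (show Odd (o : ℤ) by exact_mod_cast ho).neg, by rw [h2, h1]; push_cast; ring⟩
  -- choice of `j`
  obtain ⟨j1, hj1⟩ := exists_pow_lt_of_lt_one (show 0 < ε / 8 by positivity)
    (show (252 / 256 : ℝ) < 1 by norm_num)
  obtain ⟨j2, hj2⟩ := exists_pow_lt_of_lt_one (show 0 < ε / 8 by positivity)
    (show (1 / 2 : ℝ) < 1 by norm_num)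
  set j := max j1 j2 with hj
  have b1 : (252 / 256 : ℝ) ^ j ≤ ε / 8 :=
    (pow_le_pow_of_le_one (by norm_num) (by norm_num) (le_max_left _ _)).trans hj1.le
  have b2 : (1 / 2 : ℝ) ^ j ≤ ε / 8 :=
    (pow_le_pow_of_le_one (by norm_num) (by norm_num) (le_max_right _ _)).trans hj2.le
  refine ⟨5 * j, t, ?_⟩
  intro k hk w hw δ
  have hS : ∀ i ∈ range k, (Sf w k i T δ : ℝ) ≤
      2 ^ k * (2 ^ w * (1 / 2) ^ i) * ((252 / 256) ^ j + (if i < j then 0 else 1)) := by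
    intro i hi
    rw [mem_range] at hi
    have e1 : (2 : ℝ) ^ (w - i) = 2 ^ w * (1 / 2) ^ i := by
      rw [one_div, inv_pow, ← div_eq_mul_inv, eq_div_iff (by positivity), ← pow_add]
      congr 1; omega
    have hp : (0 : ℝ) ≤ (252 / 256) ^ j := by positivity
    split_ifs with h
    · have h1 := Sf_le t T T' hTe hT' j w k i δ (by omega) hw
      have h2 : (256 : ℝ) ^ j * (Sf w k i T δ : ℝ) ≤ 2 ^ k * 2 ^ (w - i) * 252 ^ j := by
        exact_mod_cast h1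
      rw [e1] at h2
      have e4 : (252 / 256 : ℝ) ^ j = 252 ^ j / 256 ^ j := div_pow _ _ _
      rw [add_zero, e4, mul_div_assoc', le_div_iff₀ (by positivity)]
      linarith
    · have h1 := Sf_trivial w k i T δ
      have h2 : (Sf w k i T δ : ℝ) ≤ 2 ^ k * 2 ^ (w - i) := by exact_mod_cast h1
      rw [e1] at h2
      refine h2.trans ?_
      apply le_mul_of_one_le_right (by positivity)
      linarith
  have h1 := Qf_le w k T δ (by omega)
  have h2 : (Qf w k T δ : ℝ) ≤ 2 ^ k * 4 ^ w + ∑ i ∈ range k, 2 ^ (k + w) * (Sf w k i T δ : ℝ) := by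
    exact_mod_cast h1
  have h3 : ∑ i ∈ range k, (2 : ℝ) ^ (k + w) * (Sf w k i T δ : ℝ) ≤
      ∑ i ∈ range k, (4 ^ w * 4 ^ k) * ((1 / 2) ^ i * ((252 / 256) ^ j + (if i < j then 0 else 1))) := by
    apply Finset.sum_le_sum
    intro i hi
    calc (2 : ℝ) ^ (k + w) * (Sf w k i T δ : ℝ)
        ≤ 2 ^ (k + w) * (2 ^ k * (2 ^ w * (1 / 2) ^ i) * ((252 / 256) ^ j + (if i < j then 0 else 1))) :=
          mul_le_mul_of_nonneg_left (hS i hi) (by positivity)
      _ = _ := by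
          have e2 : (4 : ℝ) ^ w = 2 ^ w * 2 ^ w := by rw [← mul_pow]; norm_num
          have e3 : (4 : ℝ) ^ k = 2 ^ k * 2 ^ k := by rw [← mul_pow]; norm_num
          rw [e2, e3, pow_add]; ring
  have h4 : ∑ i ∈ range k, ((1 / 2 : ℝ) ^ i * ((252 / 256) ^ j + (if i < j then 0 else 1))) ≤
      2 * (252 / 256) ^ j + 2 * (1 / 2) ^ j := by
    have g1 : ∀ n : ℕ, ∑ i ∈ range n, (1 / 2 : ℝ) ^ i ≤ 2 := by
      intro n
      have := geom_sum_eq (show (1 / 2 : ℝ) ≠ 1 by norm_num) n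
      rw [this]
      have hp : (0 : ℝ) ≤ (1 / 2) ^ n := by positivity
      have e : ((1 / 2 : ℝ) ^ n - 1) / (1 / 2 - 1) = 2 * (1 - (1 / 2) ^ n) := by ring
      rw [e]; linarith
    have g2 : ∑ i ∈ range k, ((1 / 2 : ℝ) ^ i * (if i < j then 0 else 1)) ≤ 2 * (1 / 2) ^ j := by
      obtain ⟨k', hk'⟩ : ∃ k', k = j + k' := ⟨k - j, by omega⟩
      rw [hk', Finset.sum_range_add]
      have z1 : ∑ i ∈ range j, ((1 / 2 : ℝ) ^ i * (if i < j then 0 else 1)) = 0 := by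
        apply Finset.sum_eq_zero
        intro i hi
        rw [if_pos (mem_range.1 hi), mul_zero]
      rw [z1, zero_add]
      have z2 : ∑ i ∈ range k', ((1 / 2 : ℝ) ^ (j + i) * (if j + i < j then 0 else 1)) =
          (1 / 2) ^ j * ∑ i ∈ range k', (1 / 2 : ℝ) ^ i := by
        rw [Finset.mul_sum]
        apply Finset.sum_congr rfl
        intro i _
        rw [if_neg (by omega), mul_one, pow_add]
      rw [z2]
      have hp : (0 : ℝ) ≤ (1 / 2) ^ j := by positivity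
      nlinarith [g1 k']
    have g3 : ∑ i ∈ range k, ((1 / 2 : ℝ) ^ i * ((252 / 256) ^ j + (if i < j then 0 else 1))) =
        (∑ i ∈ range k, (1 / 2 : ℝ) ^ i) * (252 / 256) ^ j +
        ∑ i ∈ range k, ((1 / 2 : ℝ) ^ i * (if i < j then 0 else 1)) := by
      rw [Finset.sum_mul, ← Finset.sum_add_distrib]
      apply Finset.sum_congr rfl
      intro i _; ring
    rw [g3]
    have hp : (0 : ℝ) ≤ (252 / 256) ^ j := by positivity
    nlinarith [g1 k, g2]
  have h5 : (2 : ℝ) ^ k * 4 ^ w ≤ (ε / 8) * (4 ^ w * 4 ^ k) := by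
    have e3 : (4 : ℝ) ^ k = 2 ^ k * 2 ^ k := by rw [← mul_pow]; norm_num
    have h6 : (1 / 2 : ℝ) ^ k ≤ ε / 8 :=
      (pow_le_pow_of_le_one (by norm_num) (by norm_num) (by omega : j ≤ k)).trans b2
    have h7 : (1 : ℝ) ≤ ε / 8 * 2 ^ k := by
      rw [one_div, inv_pow, inv_le_iff_one_le_mul₀ (by positivity)] at h6
      linarith
    rw [e3]
    have hp : (0 : ℝ) < 2 ^ k * 4 ^ w := by positivity
    nlinarith
  have h3' : ∑ i ∈ range k, (2 : ℝ) ^ (k + w) * (Sf w k i T δ : ℝ) ≤ (4 ^ w * 4 ^ k) *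
      ∑ i ∈ range k, ((1 / 2) ^ i * ((252 / 256) ^ j + (if i < j then 0 else 1))) := by
    rw [Finset.mul_sum]; exact h3
  have hP : (0 : ℝ) < 4 ^ w * 4 ^ k := by positivity
  calc (Qf w k T δ : ℝ) ≤ (ε / 8) * (4 ^ w * 4 ^ k) +
        (4 ^ w * 4 ^ k) * (2 * (252 / 256) ^ j + 2 * (1 / 2) ^ j) := by
        linarith [h2, h3', h5, mul_le_mul_of_nonneg_left h4 hP.le]
    _ ≤ (ε / 8) * (4 ^ w * 4 ^ k) + (4 ^ w * 4 ^ k) * (2 * (ε / 8) + 2 * (ε / 8)) := by
        have := mul_le_mul_of_nonneg_left (show 2 * (252 / 256 : ℝ) ^ j + 2 * (1 / 2) ^ j ≤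
          2 * (ε / 8) + 2 * (ε / 8) by linarith) hP.le
        linarith
    _ ≤ ε * (4 ^ w * 4 ^ k) := by nlinarith

end Pool.Agent.H51.TM
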