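import Pool.Agent.H51.TM.Layers

/-!
# Positive lower density from one pair of different symbols, pure power case
-/

namespace Pool.Agent.H51.TM

open Finset Polynomial Filter Topology

/-- digit sum of a (nonnegative) integer -/
def dz (m : ℤ) : ℕ := ds m.toNat

theorem dz_split (H a : ℤ) (k : ℕ) (hH : 0 ≤ H) (h0 : 0 ≤ a) (h1 : a < 2 ^ k) :
    dz (2 ^ k * H + a) = dz H + dz a := by
  obtain ⟨H', rfl⟩ := Int.eq_ofNat_of_zero_le hH
  obtain ⟨a', rfl⟩ := Int.eq_ofNat_of_zero_le h0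
  unfold dz
  have e1 : ((2 : ℤ) ^ k * (H' : ℤ) + (a' : ℤ)).toNat = 2 ^ k * H' + a' := by
    have : ((2 : ℤ) ^ k * (H' : ℤ) + (a' : ℤ)) = ((2 ^ k * H' + a' : ℕ) : ℤ) := by push_cast; ring
    rw [this, Int.toNat_natCast]
  rw [e1, Int.toNat_natCast, Int.toNat_natCast]
  exact ds_split _ _ _ (by exact_mod_cast h1)


/-- number of `n < N` with digit sum of `f n` congruent to `c` modulo two -/
def cnt (f : ℕ → ℕ) (c N : ℕ) : ℕ := ((range N).filter fun n => ds (f n) % 2 = c).card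

theorem cnt_mono (f : ℕ → ℕ) (c : ℕ) : Monotone (cnt f c) := by
  intro M N h
  apply Finset.card_le_card
  intro n hn
  simp only [mem_filter, mem_range] at hn ⊢
  exact ⟨by omega, hn.2⟩

theorem density_of_pow (s : ℕ → ℕ) (hs : Monotone s) (K M n1 : ℕ) (hK : 0 < K)
    (h : ∀ n ≥ n1, 2 ^ n ≤ M * s (K * 2 ^ n)) :
    ∃ δ > (0 : ℝ), ∃ N0 : ℕ, ∀ N ≥ N0, δ * N ≤ s N := by
  have hM : 0 < M := by
    rcases Nat.eq_zero_or_pos M with h0 | h0
    · have := h n1 le_rfl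
      rw [h0, zero_mul] at this
      have := Nat.one_le_two_pow (n := n1)
      omega
    · exact h0
  refine ⟨1 / (2 * K * M), by positivity, K * 2 ^ n1, ?_⟩
  intro N hN
  set q := N / K with hq
  have hq1 : 2 ^ n1 ≤ q := (Nat.le_div_iff_mul_le hK).2 (by rw [mul_comm]; exact hN)
  have hq0 : q ≠ 0 := by
    have := Nat.one_le_two_pow (n := n1)
    omega
  set n := Nat.log 2 q with hn
  have hn1 : n1 ≤ n := Nat.le_log_of_pow_le (by norm_num) hq1
  have hp1 : 2 ^ n ≤ q := Nat.pow_log_le_self 2 hq0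
  have hp2 : q < 2 ^ (n + 1) := Nat.lt_pow_succ_log_self (by norm_num) q
  have h1 := h n hn1
  have h2 : K * 2 ^ n ≤ N := by
    calc K * 2 ^ n ≤ K * q := Nat.mul_le_mul_left _ hp1
      _ ≤ N := Nat.mul_div_le N K
  have h3 : M * s (K * 2 ^ n) ≤ M * s N := Nat.mul_le_mul_left _ (hs h2)
  have h4 : N < K * 2 ^ (n + 1) := by
    have h5 : N < K * (q + 1) := by
      have := Nat.lt_mul_div_succ N hK
      simpa [hq] using this
    exact lt_of_lt_of_le h5 (Nat.mul_le_mul_left _ hp2)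
  have h6 : N ≤ 2 * K * M * s N := by
    have : K * 2 ^ (n + 1) = 2 * K * 2 ^ n := by rw [pow_succ]; ring
    calc N ≤ K * 2 ^ (n + 1) := h4.le
      _ = 2 * K * 2 ^ n := this
      _ ≤ 2 * K * (M * s N) := Nat.mul_le_mul_left _ (h1.trans h3)
      _ = 2 * K * M * s N := by ring
  have h7 : (N : ℝ) ≤ 2 * K * M * s N := by exact_mod_cast h6
  rw [div_mul_eq_mul_div, one_mul, div_le_iff₀ (by positivity)]
  linarith

/-- If many `g` have a partner `g'`, `g' + b = 2 ^ k (g + b)`, carrying the other symbol, then both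
symbols have positive lower density. -/
theorem density_of_family (f : ℕ → ℕ) (b : ℚ) (k M K n1 : ℕ) (hn1 : M ≤ n1)
    (H : ∀ n ≥ n1, ∃ g : ℕ → ℕ, Set.InjOn g (Set.Iio (2 ^ (n - M))) ∧ ∀ i < 2 ^ (n - M),
      g i < K * 2 ^ n ∧ ∃ g' : ℕ, (g' : ℚ) + b = 2 ^ k * ((g i : ℚ) + b) ∧
        ds (f (g i)) % 2 ≠ ds (f g') % 2) (c : ℕ) (hc : c < 2) :
    ∃ δ > (0 : ℝ), ∃ N0 : ℕ, ∀ N ≥ N0, δ * N ≤ cnt f c N := by
  obtain ⟨R, hR⟩ : ∃ R : ℕ, |b| ≤ R := exists_nat_ge _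
  set K' := 2 ^ k * (K + 2 * R) + K + 1 with hK'
  refine density_of_pow (cnt f c) (cnt_mono f c) K' (2 ^ M * 2) n1 (by positivity) ?_
  intro n hn
  obtain ⟨g, hinj, hg⟩ := H n hn
  choose! hlt g' hg' hne using hg
  have hk1 : 1 ≤ 2 ^ k := Nat.one_le_two_pow
  have hn1' : 1 ≤ 2 ^ n := Nat.one_le_two_pow
  have hlt1 : ∀ i < 2 ^ (n - M), g i < K' * 2 ^ n := by
    intro i hi
    refine lt_of_lt_of_le (hlt i hi) (Nat.mul_le_mul_right _ ?_)
    rw [hK']; omega
  have hlt2 : ∀ i < 2 ^ (n - M), g' i < K' * 2 ^ n := by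
    intro i hi
    have h1 : (g' i : ℚ) = 2 ^ k * ((g i : ℚ) + b) - b := by linarith [hg' i hi]
    have hb := abs_le.1 hR
    have h2 : ((g i : ℕ) : ℚ) < K * 2 ^ n := by exact_mod_cast hlt i hi
    have hk1' : (1 : ℚ) ≤ 2 ^ k := by exact_mod_cast hk1
    have hn1'' : (1 : ℚ) ≤ 2 ^ n := by exact_mod_cast hn1'
    have hR0 : (0 : ℚ) ≤ R := by positivity
    have h3 : (g' i : ℚ) < K' * 2 ^ n := by
      rw [h1, hK']; push_cast
      have e1 : (2 : ℚ) ^ k * ((g i : ℚ) + b) ≤ 2 ^ k * (K * 2 ^ n + R) :=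
        mul_le_mul_of_nonneg_left (by linarith [hb.2]) (by positivity)
      have e2 : (2 : ℚ) ^ k * R ≤ 2 ^ k * R * 2 ^ n := le_mul_of_one_le_right (by positivity) hn1''
      have e3 : (R : ℚ) ≤ 2 ^ k * R * 2 ^ n := by
        calc (R : ℚ) ≤ 2 ^ k * R := le_mul_of_one_le_left hR0 hk1'
          _ ≤ _ := e2
      have e4 : (0 : ℚ) ≤ K * 2 ^ n := by positivity
      nlinarith [hb.1, hb.2]
    exact_mod_cast h3
  -- the two halves
  have hsplit : 2 ^ (n - M) ≤ cnt f c (K' * 2 ^ n) + cnt f c (K' * 2 ^ n) := by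
    have h1 : ((range (2 ^ (n - M))).filter fun i => ds (f (g i)) % 2 = c).card ≤
        cnt f c (K' * 2 ^ n) := by
      apply Finset.card_le_card_of_injOn g
      · intro i hi
        simp only [Finset.coe_filter, mem_range, Set.mem_ofPred_eq] at hi ⊢
        exact ⟨hlt1 i hi.1, hi.2⟩
      · intro i hi j hj hij
        simp only [Finset.coe_filter, mem_range, Set.mem_ofPred_eq] at hi hj
        exact hinj hi.1 hj.1 hij
    have h2 : ((range (2 ^ (n - M))).filter fun i => ¬ ds (f (g i)) % 2 = c).card ≤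
        cnt f c (K' * 2 ^ n) := by
      apply Finset.card_le_card_of_injOn g'
      · intro i hi
        simp only [Finset.coe_filter, mem_range, Set.mem_ofPred_eq] at hi ⊢
        refine ⟨hlt2 i hi.1, ?_⟩
        have := hne i hi.1
        omega
      · intro i hi j hj hij
        simp only [Finset.coe_filter, mem_range, Set.mem_ofPred_eq] at hi hj
        apply hinj hi.1 hj.1
        have e1 := hg' i hi.1
        have e2 := hg' j hj.1
        rw [hij, e2] at e1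
        have hk : (2 : ℚ) ^ k ≠ 0 := by positivity
        have e3 := mul_left_cancel₀ hk e1
        have e4 : ((g j : ℕ) : ℚ) = ((g i : ℕ) : ℚ) := by linarith
        exact_mod_cast e4.symm
    have h3 := Finset.card_filter_add_card_filter_not (s := range (2 ^ (n - M)))
      (fun i => ds (f (g i)) % 2 = c)
    rw [Finset.card_range] at h3
    omega
  have e : 2 ^ n = 2 ^ M * 2 ^ (n - M) := by
    rw [← pow_add]; congr 1; omega
  calc 2 ^ n = 2 ^ M * 2 ^ (n - M) := e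
    _ ≤ 2 ^ M * (cnt f c (K' * 2 ^ n) + cnt f c (K' * 2 ^ n)) := Nat.mul_le_mul_left _ hsplit
    _ = 2 ^ M * 2 * cnt f c (K' * 2 ^ n) := by ring

/-! ## Values of the polynomial -/

theorem dz_two_pow (j m : ℕ) : dz (2 ^ j * (m : ℤ)) = ds m := by
  have h := dz_split (m : ℤ) 0 j (by positivity) le_rfl (by positivity)
  rw [add_zero] at h
  rw [h]
  unfold dz
  simp [ds]

/-- the quotient `((z + c h) ^ d - z ^ d) / (c h)` -/
def SS (d : ℕ) (z c h : ℤ) : ℤ := ∑ i ∈ range d, (z + c * h) ^ i * z ^ (d - 1 - i)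

theorem SS_mul (d : ℕ) (z c h : ℤ) : SS d z c h * (c * h) = (z + c * h) ^ d - z ^ d := by
  have := geom_sum₂_mul (z + c * h) z d
  unfold SS
  rw [← this]; ring

theorem incr (A b B C : ℚ) (d e q k : ℕ) (α β : ℤ) (f : ℕ → ℕ)
    (hf : ∀ n : ℕ, (f n : ℚ) = A * (n + b) ^ d + B * (n + b) + C) (hq : q ≠ 0)
    (hα : (α : ℚ) = 2 ^ e * q * A) (hβ : (β : ℚ) = 2 ^ e * q * B)
    (n0 h m0 m1 : ℕ) (hm0 : (m0 : ℚ) + b = 2 ^ k * (n0 + b))
    (hm1 : (m1 : ℚ) + b = 2 ^ k * (n0 + q * b.den ^ d * h + b)) :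
    (2 : ℤ) ^ e * f m1 = 2 ^ e * f m0 +
      ((2 ^ k) ^ d * α * b.den) * h *
        SS d (b.den * n0 + b.num) (b.den * (q * b.den ^ d)) h + (2 ^ k * (β * b.den ^ d)) * h := by
  have hS := SS_mul d (b.den * n0 + b.num) (b.den * (q * b.den ^ d)) h
  set S := SS d (b.den * n0 + b.num) (b.den * (q * b.den ^ d)) h with hSdef
  have hSq : (S : ℚ) * (b.den * (q * b.den ^ d) * h) =
      (b.den * n0 + b.num + b.den * (q * b.den ^ d) * h) ^ d - (b.den * n0 + b.num) ^ d := by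
    exact_mod_cast hS
  have hv : (b.den : ℚ) ≠ 0 := by exact_mod_cast b.den_nz
  have hq' : (q : ℚ) ≠ 0 := by exact_mod_cast hq
  have hbn : (b.num : ℚ) = b.den * b := by
    rw [mul_comm]; exact (Rat.mul_den_eq_num b).symm
  have e1 : (b.den * n0 + b.num : ℚ) = b.den * (n0 + b) := by rw [hbn]; ring
  have e2 : (b.den * n0 + b.num + b.den * (q * b.den ^ d) * h : ℚ) =
      b.den * (n0 + q * b.den ^ d * h + b) := by rw [hbn]; ring
  rw [e2, e1, mul_pow, mul_pow, ← mul_sub] at hSq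
  have hvd : (b.den : ℚ) ^ d ≠ 0 := pow_ne_zero _ hv
  have hSq' : (n0 + q * b.den ^ d * h + b : ℚ) ^ d - (n0 + b) ^ d = S * (b.den * q * h) := by
    have : (b.den : ℚ) ^ d * ((n0 + q * b.den ^ d * h + b : ℚ) ^ d - (n0 + b) ^ d) =
        b.den ^ d * (S * (b.den * q * h)) := by
      rw [← hSq]; ring
    exact mul_left_cancel₀ hvd this
  have f1 : (f m1 : ℚ) = f m0 + A * ((2 ^ k) ^ d * (S * (b.den * q * h))) +
      B * (2 ^ k * (q * b.den ^ d * h)) := by
    rw [hf, hf, hm1, hm0, mul_pow, mul_pow, ← hSq']; ring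
  have goal : ((2 : ℚ) ^ e * f m1) = 2 ^ e * f m0 + ((2 ^ k) ^ d * α * b.den) * h * S +
      (2 ^ k * (β * b.den ^ d)) * h := by
    rw [f1, hα, hβ]; ring
  exact_mod_cast goal

/-- common odd denominator, up to a power of two -/
theorem exists_den (A B : ℚ) : ∃ (e q : ℕ) (α β : ℤ), Odd q ∧ (α : ℚ) = 2 ^ e * q * A ∧
    (β : ℚ) = 2 ^ e * q * B := by
  obtain ⟨e, q, hq, hD⟩ := Nat.exists_eq_two_pow_mul_odd (n := A.den * B.den)
    (Nat.mul_ne_zero A.den_nz B.den_nz)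
  refine ⟨e, q, A.num * B.den, B.num * A.den, hq, ?_, ?_⟩
  · have : (2 : ℚ) ^ e * q = A.den * B.den := by exact_mod_cast hD.symm
    rw [this]; push_cast
    rw [← Rat.mul_den_eq_num A]; ring
  · have : (2 : ℚ) ^ e * q = A.den * B.den := by exact_mod_cast hD.symm
    rw [this]; push_cast
    rw [← Rat.mul_den_eq_num B]; ring

/-- the dilation `n + b ↦ 2 ^ k (n + b)` preserves the integers -/
theorem exists_dilation (b : ℚ) (hb : Odd b.den) : ∃ (k : ℕ) (κ : ℤ), 1 ≤ k ∧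
    ∀ n : ℤ, ((2 ^ k * n + κ : ℤ) : ℚ) + b = 2 ^ k * (n + b) := by
  have hcop : Nat.Coprime 2 b.den := Nat.coprime_two_left.2 hb
  refine ⟨Nat.totient b.den, (2 ^ Nat.totient b.den - 1) / b.den * b.num,
    Nat.totient_pos.2 b.pos, ?_⟩
  intro n
  have h1 : (b.den : ℤ) ∣ 2 ^ Nat.totient b.den - 1 := by
    have := Nat.ModEq.pow_totient hcop
    have h2 := (Nat.modEq_iff_dvd.1 this.symm)
    push_cast at h2
    exact h2
  obtain ⟨w, hw⟩ := h1
  have hv : (b.den : ℚ) ≠ 0 := by exact_mod_cast b.den_nz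
  have hv' : (b.den : ℤ) ≠ 0 := by exact_mod_cast b.den_nz
  have e1 : ((2 : ℤ) ^ Nat.totient b.den - 1) / b.den = w := by
    rw [hw]; exact Int.mul_ediv_cancel_left _ hv'
  rw [e1]
  have e2 : (2 : ℚ) ^ Nat.totient b.den - 1 = b.den * w := by exact_mod_cast hw
  have hbn : (b.num : ℚ) = b.den * b := by
    rw [mul_comm]; exact (Rat.mul_den_eq_num b).symm
  push_cast
  rw [hbn]
  linear_combination (-b) * e2


/-- The case `B = 0` with one pair of different symbols. -/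
theorem family_of_witness (A b C : ℚ) (d : ℕ) (hA : A ≠ 0) (f : ℕ → ℕ)
    (hf : ∀ n : ℕ, (f n : ℚ) = A * (n + b) ^ d + C) (k m m' : ℕ)
    (hm : (m' : ℚ) + b = 2 ^ k * ((m : ℚ) + b)) (hne : ds (f m) % 2 ≠ ds (f m') % 2)
    (hb : Odd b.den) :
    ∃ k M K n1 : ℕ, M ≤ n1 ∧ ∀ n ≥ n1, ∃ g : ℕ → ℕ, Set.InjOn g (Set.Iio (2 ^ (n - M))) ∧
      ∀ i < 2 ^ (n - M), g i < K * 2 ^ n ∧ ∃ g' : ℕ, (g' : ℚ) + b = 2 ^ k * ((g i : ℚ) + b) ∧
        ds (f (g i)) % 2 ≠ ds (f g') % 2 := by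
  obtain ⟨e, q, α, β, hq, hα, hβ⟩ := exists_den A 0
  have hq0 : q ≠ 0 := by rintro rfl; simp at hq
  have hβ0 : β = 0 := by
    have : (β : ℚ) = 0 := by rw [hβ, mul_zero]
    exact_mod_cast this
  have hf' : ∀ n : ℕ, (f n : ℚ) = A * (n + b) ^ d + 0 * (n + b) + C := by
    intro n; rw [hf, zero_mul, add_zero]
  set v := b.den with hv
  set Q : ℕ := q * v ^ d with hQ
  have hQ0 : 0 < Q := Nat.mul_pos (Nat.pos_of_ne_zero hq0) (pow_pos b.pos _)
  set J : ℕ := 2 ^ e * f m + 2 ^ e * f m' with hJ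
  have hJ1 : (2 : ℤ) ^ e * f m < 2 ^ J := by
    have h1 : J < 2 ^ J := Nat.lt_two_pow_self
    have h2 : 2 ^ e * f m < 2 ^ J := by omega
    exact_mod_cast h2
  have hJ2 : (2 : ℤ) ^ e * f m' < 2 ^ J := by
    have h1 : J < 2 ^ J := Nat.lt_two_pow_self
    have h2 : 2 ^ e * f m' < 2 ^ J := by omega
    exact_mod_cast h2
  refine ⟨k, 0, m + Q * 2 ^ J + 1, 0, le_rfl, ?_⟩
  intro n _
  rw [Nat.sub_zero]
  refine ⟨fun i => m + Q * (2 ^ J * i), ?_, ?_⟩
  · intro i _ j _ hij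
    have h1 : m + Q * (2 ^ J * i) = m + Q * (2 ^ J * j) := hij
    have h2 : Q * (2 ^ J * i) = Q * (2 ^ J * j) := by omega
    have h3 := Nat.eq_of_mul_eq_mul_left hQ0 h2
    exact Nat.eq_of_mul_eq_mul_left (by positivity) h3
  · intro i hi
    refine ⟨?_, m' + 2 ^ k * (Q * (2 ^ J * i)), ?_, ?_⟩
    · show m + Q * (2 ^ J * i) < (m + Q * 2 ^ J + 1) * 2 ^ n
      have h1 : Q * (2 ^ J * i) ≤ Q * (2 ^ J * 2 ^ n) :=
        Nat.mul_le_mul_left _ (Nat.mul_le_mul_left _ hi.le)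
      have h2 : 1 ≤ 2 ^ n := Nat.one_le_two_pow
      have h3 : m ≤ m * 2 ^ n := Nat.le_mul_of_pos_right _ (by omega)
      have h4 : (m + Q * 2 ^ J + 1) * 2 ^ n = m * 2 ^ n + Q * (2 ^ J * 2 ^ n) + 2 ^ n := by ring
      omega
    · push_cast
      linear_combination hm
    · set h : ℕ := 2 ^ J * i with hh
      have i1 := incr A b 0 C d e q 0 α β f hf' hq0 hα hβ m h m (m + Q * h) (by simp)
        (by rw [hQ]; push_cast; ring)
      have i2 := incr A b 0 C d e q k α β f hf' hq0 hα hβ m h m' (m' + 2 ^ k * (Q * h)) hm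
        (by rw [hQ]; push_cast; linear_combination hm)
      set Sh : ℤ := SS d (b.den * m + b.num) (b.den * (q * b.den ^ d)) h with hSh
      set W : ℤ := α * v * i * Sh with hW
      rw [hβ0] at i1 i2
      have j1 : (2 : ℤ) ^ e * f (m + Q * h) = 2 ^ J * W + 2 ^ e * f m := by
        rw [i1, hW, hh]; push_cast; ring
      have j2 : (2 : ℤ) ^ e * f (m' + 2 ^ k * (Q * h)) = 2 ^ (J + k * d) * W + 2 ^ e * f m' := by
        rw [i2, hW, hh, pow_add, pow_mul]; push_cast; ring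
      have hW0 : 0 ≤ W := by
        by_contra hneg
        have h1 : (2 : ℤ) ^ J * W ≤ 2 ^ J * (-1) :=
          mul_le_mul_of_nonneg_left (by omega) (by positivity)
        have h2 : (0 : ℤ) ≤ 2 ^ e * f (m + Q * h) := by positivity
        rw [j1] at h2
        linarith
      have k1 := dz_split W (2 ^ e * f m) J hW0 (by positivity) hJ1
      have k2 := dz_split W (2 ^ e * f m') (J + k * d) hW0 (by positivity)
        (hJ2.trans_le (pow_le_pow_right₀ (by norm_num) (by omega)))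
      rw [← j1, dz_two_pow, dz_two_pow] at k1
      rw [← j2, dz_two_pow, dz_two_pow] at k2
      show ds (f (m + Q * h)) % 2 ≠ _
      rw [k1, k2]
      omega


end Pool.Agent.H51.TM
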